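import Pool.Agent.helper19.HF.Fin
import Pool.Agent.helper99.HF.UOR

/-!
# Project HF (MP_bf63dc_nt): the uniform form of the conclusion
-/

set_option autoImplicit false

namespace Pool.Agent.HF

open Finset Pool.Agent.AT Pool.Agent.IT

/-- the chains -/
def Chn (D Q : ℕ) (s : ℕ → ℕ) : Prop := (∀ i, 1 ≤ s i) ∧ D ∣ s 0 ∧ ∀ i, Q * s i ∣ s (i + 1)

theorem Chn_dvd (D Q : ℕ) (s : ℕ → ℕ) (h : Chn D Q s) (i j : ℕ) (hij : i ≤ j) : s i ∣ s j := by
  induction j with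
  | zero =>
    have e : i = 0 := by omega
    rw [e]
  | succ j ih =>
    rcases Nat.lt_or_ge j i with h1 | h1
    · have e : i = j + 1 := by omega
      rw [e]
    · exact (ih h1).trans ((Dvd.intro_left Q rfl).trans (h.2.2 j))

theorem Chn_bad (A : ℕ → Prop) (D Q K : ℕ) (hK : 1 ≤ K) (hQ : 1 ≤ Q) (H : ∀ s : ℕ → ℕ, Chn D Q s → ∃ i < K, A (s i)) (s : ℕ → ℕ) (hs : Chn D Q s) :
    {i | ¬ A (s i)}.Finite ∧ {i | ¬ A (s i)}.ncard < K := by
  classical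
  have key : ¬ ∃ T : Finset ℕ, (∀ i ∈ T, ¬ A (s i)) ∧ #T = K := by
    rintro ⟨T, hT, hTK⟩
    obtain ⟨i, hi⟩ : ∃ i : ℕ → ℕ, i = fun j => if h : j < K then T.orderEmbOfFin hTK ⟨j, h⟩ else 0 := ⟨_, rfl⟩
    have hiT : ∀ j < K, i j ∈ T := by
      intro j hj
      rw [hi]
      dsimp only
      rw [dif_pos hj]
      exact T.orderEmbOfFin_mem hTK _
    have hlt : ∀ j, j + 1 < K → i j < i (j + 1) := by
      intro j hj
      rw [hi]
      dsimp only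
      rw [dif_pos hj, dif_pos (by omega)]
      refine (T.orderEmbOfFin hTK).lt_iff_lt.2 ?_
      rw [Fin.lt_def]
      dsimp only
      omega
    obtain ⟨s', hs'⟩ : ∃ s' : ℕ → ℕ, s' = fun j => if j < K then s (i j) else Q ^ (j + 1 - K) * s (i (K - 1)) := ⟨_, rfl⟩
    have h1 : Chn D Q s' := by
      refine ⟨?_, ?_, ?_⟩
      · intro j
        rw [hs']
        dsimp only
        split_ifs with h
        · exact hs.1 _
        · exact Nat.mul_pos (Nat.pow_pos hQ) (hs.1 _)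
      · rw [hs']
        dsimp only
        rw [if_pos (by omega)]
        exact hs.2.1.trans (Chn_dvd D Q s hs _ _ (Nat.zero_le _))
      · intro j
        rw [hs']
        dsimp only
        by_cases h2 : j + 1 < K
        · rw [if_pos (by omega), if_pos h2]
          exact (hs.2.2 (i j)).trans (Chn_dvd D Q s hs _ _ (hlt j h2))
        · rw [if_neg h2]
          by_cases h3 : j < K
          · have e : j = K - 1 := by omega
            rw [if_pos h3]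
            have e1 : j + 1 + 1 - K = 1 := by omega
            rw [e1, pow_one, e]
          · rw [if_neg h3]
            have e1 : j + 1 + 1 - K = (j + 1 - K) + 1 := by omega
            rw [e1, pow_succ]
            refine dvd_of_eq ?_
            ring
    obtain ⟨j, hj, hA⟩ := H s' h1
    rw [hs'] at hA
    dsimp only at hA
    rw [if_pos hj] at hA
    exact hT _ (hiT j hj) hA
  have hfin : {i | ¬ A (s i)}.Finite := by
    by_contra hinf
    obtain ⟨T, hT1, hT2⟩ := Set.Infinite.exists_subset_card_eq (s := {i | ¬ A (s i)}) hinf K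
    exact key ⟨T, fun i hi => hT1 (mem_coe.2 hi), hT2⟩
  refine ⟨hfin, ?_⟩
  by_contra hge
  push Not at hge
  rw [Set.ncard_eq_toFinset_card _ hfin] at hge
  obtain ⟨T, hT1, hT2⟩ := exists_subset_card_eq hge
  refine key ⟨T, fun i hi => ?_, hT2⟩
  have h1 := hT1 hi
  rw [Set.Finite.mem_toFinset] at h1
  exact h1

/-- `n` is good for the set `P` -/
def Goo (P : ℕ → Prop) (n : ℕ) : Prop := ∃ M₀ : ℕ,
  (∀ M : ℕ, M₀ ≤ M → ∀ u : ℕ, (1 / 2 + 3 / 10 ^ 6 : ℝ) * M ≤ ({k : ℕ | (u < k ∧ k ≤ u + M) ∧ P (n * k)}.ncard : ℝ)) ∧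
  (∀ K : ℕ, M₀ ≤ K → ∃ k k' : ℕ, 1 ≤ k ∧ 1 ≤ k' ∧ k + k' = K ∧ P (n * k) ∧ P (n * k')) ∧
  ∀ M : ℕ, M₀ ≤ M → ∀ h u : ℕ, (6 / 10 ^ 6 : ℝ) * M ≤ ({k : ℕ | (u < k ∧ k ≤ u + M) ∧ P (n * k) ∧ P (n * (k + h))}.ncard : ℝ)

theorem goo_of (P : ℕ → Prop) (n : ℕ) (h : Gd P (1 / 2 + 3 / 10 ^ 6) n) : Goo P n := by
  classical
  obtain ⟨M₀, hM⟩ := h
  obtain ⟨⟨N₀, h1⟩, h2⟩ := COR (fun t => P (n * t)) (3 / 10 ^ 6) M₀ (by norm_num) (fun M hM' u => by
    refine (hM M hM' u).trans (le_of_eq ?_)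
    refine congrArg (fun z : Finset ℕ => ((#z : ℕ) : ℝ)) ?_
    ext t
    simp only [mem_filter])
  refine ⟨max M₀ N₀, ?_, ?_, ?_⟩
  · intro M hM' u
    refine (hM M ((le_max_left _ _).trans hM') u).trans ?_
    rw [← Set.ncard_coe_finset]
    refine Nat.cast_le.2 (Set.ncard_le_ncard ?_ ?_)
    · intro k hk
      rw [mem_coe, mem_filter, mem_Ioc] at hk
      exact hk
    · refine (finite_toSet (Ioc u (u + M))).subset ?_
      rintro k ⟨hk, -⟩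
      rw [mem_coe, mem_Ioc]
      exact hk
  · intro K hK
    obtain ⟨t, t', ht, ht', h3, h4, h5⟩ := h1 K ((le_max_right _ _).trans hK)
    exact ⟨t, t', ht, ht', h3, h4, h5⟩
  · intro M hM' k u
    have h3 := h2 k M ((le_max_left _ _).trans hM') u
    have e : (2 : ℝ) * (3 / 10 ^ 6) = 6 / 10 ^ 6 := by norm_num
    rw [e] at h3
    refine h3.trans ?_
    rw [← Set.ncard_coe_finset]
    refine Nat.cast_le.2 (Set.ncard_le_ncard ?_ ?_)
    · intro t ht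
      rw [mem_coe, mem_filter, mem_Ioc] at ht
      exact ht
    · refine (finite_toSet (Ioc u (u + M))).subset ?_
      rintro t ⟨ht, -⟩
      rw [mem_coe, mem_Ioc]
      exact ht

theorem goo_mono (P P' : ℕ → Prop) (n : ℕ) (hn : 1 ≤ n) (hP : ∀ m, 1 ≤ m → P m → P' m) (h : Goo P n) : Goo P' n := by
  obtain ⟨M₀, h1, h2, h3⟩ := h
  have hfin : ∀ (u M : ℕ) (Q : ℕ → Prop), ({k : ℕ | (u < k ∧ k ≤ u + M) ∧ Q k}).Finite := by
    intro u M Q
    refine (finite_toSet (Ioc u (u + M))).subset ?_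
    rintro t ⟨ht, -⟩
    rw [mem_coe, mem_Ioc]
    exact ht
  refine ⟨M₀, ?_, ?_, ?_⟩
  · intro M hM u
    refine (h1 M hM u).trans (Nat.cast_le.2 (Set.ncard_le_ncard ?_ (hfin _ _ _)))
    rintro k ⟨hk, hk2⟩
    exact ⟨hk, hP _ (Nat.mul_pos hn (by omega)) hk2⟩
  · intro K hK
    obtain ⟨k, k', hk, hk', h4, h5, h6⟩ := h2 K hK
    exact ⟨k, k', hk, hk', h4, hP _ (Nat.mul_pos hn hk) h5, hP _ (Nat.mul_pos hn hk') h6⟩
  · intro M hM t u
    refine (h3 M hM t u).trans (Nat.cast_le.2 (Set.ncard_le_ncard ?_ (hfin _ _ _)))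
    rintro k ⟨hk, hk2, hk3⟩
    exact ⟨hk, hP _ (Nat.mul_pos hn (by omega)) hk2, hP _ (Nat.mul_pos hn (by omega)) hk3⟩

/-- a good number for `P (2 m)` gives a good number for `P` -/
theorem goo_two (P : ℕ → Prop) (n : ℕ) (h : Goo (fun m => P (2 * m)) n) : Goo P (2 * n) := by
  obtain ⟨M₀, h1, h2, h3⟩ := h
  have e : ∀ k, 2 * (n * k) = 2 * n * k := fun k => by ring
  simp only [e] at h1 h2 h3
  exact ⟨M₀, h1, h2, h3⟩

/-- **UNIFORM HALF** -/
theorem goo_all : ∃ D Q K : ℕ, 1 ≤ D ∧ 1 ≤ Q ∧ ∀ s : ℕ → ℕ, Chn D Q s → ∀ (a b : ℕ) (c : ℤ), Ad a b c →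
    {i | ¬ Goo (It a b c) (s i)}.Finite ∧ {i | ¬ Goo (It a b c) (s i)}.ncard < K := by
  obtain ⟨D, Q, K, hD, hQ, hK, h⟩ := UHALF FC_all LLB LRB_all FEK GEN NES ADK Q_all
  refine ⟨D, Q, K, hD, hQ, fun s hs a b c hAd => ?_⟩
  refine Chn_bad (Goo (It a b c)) D Q K hK hQ (fun s hs => ?_) s hs
  obtain ⟨i, hi, hG⟩ := h a b c hAd s hs.1 hs.2.1 hs.2.2
  exact ⟨i, hi, goo_of _ _ hG⟩

/-- **HALF** for one case -/
theorem goo_mult (a b : ℕ) (c : ℤ) (hAd : Ad a b c) : ∃ n₀ : ℕ, 1 ≤ n₀ ∧ ∀ n : ℕ, 1 ≤ n → n₀ ∣ n → Goo (It a b c) n := by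
  obtain ⟨n₀, hn₀, h⟩ := half_all a b c hAd
  exact ⟨n₀, hn₀, fun n hn hnn => h n hn hnn⟩

end Pool.Agent.HF
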