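import Pool.Agent.helper19.HF.SpecA

/-!
# Row hf:MAIN (MP_bf63dc_nt), spec Pool/Agent/helper19/HF/SpecA.lean
-/

set_option autoImplicit false

namespace Pool.Agent.HF

open Finset

/-- the differences from a location -/
def MAIN_b (g : ℕ → Prop) (loc s : ℕ) (d : ℤ) : Prop := g ((loc + s * d : ℤ).toNat)

theorem MAIN_H1 (g : ℕ → Prop) (V : ℕ → Prop) (s Q l₀ : ℕ) (γ ε ε' : ℝ) (hε : ε ≤ ε') (hV : ∀ Y, V Y → V (Y + s))
    (h : ∀ q : ℕ, 1 ≤ q → q ≤ Q → ∀ l : ℕ, l₀ ≤ l → ∀ Y, V Y → (γ - ε) * l ≤ cw g Y (s * q) l)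
    (R loc : ℕ) (hloc : ∃ Y, V Y ∧ Y + s * R = loc) : H1 (MAIN_b g loc s) γ ε' Q l₀ R := by
  classical
  intro q hq hqQ l hl w hw hw2
  obtain ⟨Y, hY, hYl⟩ := hloc
  obtain ⟨x, hx⟩ : ∃ x : ℕ, w = (x : ℤ) - R := ⟨(w + R).toNat, by omega⟩
  have hVx : V (Y + s * x) := by
    clear hx hYl
    induction x with
    | zero => simpa using hY
    | succ x ih =>
      have e : Y + s * (x + 1) = Y + s * x + s := by ring
      rw [e]
      exact hV _ ih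
  have h1 := h q hq hqQ l hl _ hVx
  have h2 : (γ - ε') * l ≤ (γ - ε) * l := mul_le_mul_of_nonneg_right (by linarith) (Nat.cast_nonneg _)
  refine h2.trans (h1.trans (le_of_eq ?_))
  unfold cw
  congr 2
  ext y
  simp only [mem_filter]
  have e : ((loc : ℤ) + s * (w + q * (y : ℕ))).toNat = Y + s * x + s * q * y := by
    have e2 : (loc : ℤ) + s * (w + q * (y : ℕ)) = ((Y + s * x + s * q * y : ℕ) : ℤ) := by
      rw [hx, ← hYl]
      push_cast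
      ring
    rw [e2, Int.toNat_natCast]
  unfold MAIN_b
  rw [e]

theorem MAIN_H2 (g : ℕ → Prop) (s : ℕ) (γ ε ε' : ℝ) (hε : ε ≤ ε') (R loc Y : ℕ) (hloc : Y + s * R = loc)
    (h : (cw g Y s (2 * R) : ℝ) ≤ (γ + ε) * (2 * R)) : H2 (MAIN_b g loc s) γ ε' R := by
  classical
  unfold H2
  have h2 : (γ + ε) * (2 * R) ≤ (γ + ε') * (2 * R) := mul_le_mul_of_nonneg_right (by linarith) (by positivity)
  refine le_trans ?_ (h.trans h2)
  unfold cw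
  refine Nat.cast_le.2 (card_le_card_of_injOn (fun d => (d + R).toNat) ?_ ?_)
  · intro d hd
    rw [mem_coe, mem_filter, mem_Ico] at hd
    rw [mem_coe, mem_filter, mem_range]
    dsimp only
    refine ⟨by omega, ?_⟩
    have h3 := hd.2
    unfold MAIN_b at h3
    have e : ((loc : ℤ) + s * d).toNat = Y + s * (d + R).toNat := by
      obtain ⟨x, hx⟩ : ∃ x : ℕ, d = (x : ℤ) - R := ⟨(d + R).toNat, by omega⟩
      have e2 : (loc : ℤ) + s * d = ((Y + s * x : ℕ) : ℤ) := by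
        rw [hx, ← hloc]
        push_cast
        ring
      rw [e2, Int.toNat_natCast, hx]
      congr 2
      omega
    rw [e] at h3
    exact h3
  · intro d hd d' hd' hdd
    rw [mem_coe, mem_filter, mem_Ico] at hd hd'
    dsimp only at hdd
    omega

open Classical in
theorem MAIN_H3 (g : ℕ → Prop) (s R loc : ℕ) (Pb Pb' : ℕ → ℕ) (a a' : ℕ → ℝ) (ε ε' : ℝ) (hε : ε ≤ ε') (E : ℕ → ℕ → Prop)
    (hE : ∀ u v, E u v ↔ (Pb u < Pb' v → g (Pb' v - Pb u)))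
    (hP : ∀ u < R, ∀ v < R, (Pb u : ℤ) < Pb' v ∧ (Pb' v : ℤ) - Pb u = loc + s * ((v : ℤ) - u))
    (h : ∑ u ∈ range R, ∑ v ∈ range R, (if E u v then 0 else a u * a' v) ≤ ε * (R : ℝ) ^ 2) :
    H3 (MAIN_b g loc s) ε' R a a' := by
  unfold H3
  have h2 : ε * (R : ℝ) ^ 2 ≤ ε' * (R : ℝ) ^ 2 := mul_le_mul_of_nonneg_right hε (by positivity)
  refine le_trans (le_of_eq ?_) (h.trans h2)
  refine sum_congr rfl fun u hu => sum_congr rfl fun v hv => ?_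
  obtain ⟨h3, h4⟩ := hP u (mem_range.1 hu) v (mem_range.1 hv)
  have e : ((loc : ℤ) + s * ((v : ℤ) - u)).toNat = Pb' v - Pb u := by omega
  have e1 : MAIN_b g loc s ((v : ℤ) - u) ↔ E u v := by
    unfold MAIN_b
    rw [e, hE]
    constructor
    · intro h _
      exact h
    · intro h
      exact h (by omega)
  by_cases h5 : MAIN_b g loc s ((v : ℤ) - u)
  · rw [if_pos h5, if_pos (e1.1 h5)]
  · rw [if_neg h5, if_neg (fun h6 => h5 (e1.2 h6))]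

theorem MAIN_bad (g : ℕ → Prop) (s : ℕ) (d γ₂ : ℝ)
    (hbad : by
      classical
      exact ¬ ∃ l₀ : ℕ, ∀ l : ℕ, l₀ ≤ l → ∀ u : ℕ, d * l ≤ (#{t ∈ Ioc u (u + l) | g (s * t)} : ℝ))
    (h : ∀ ε : ℝ, 0 < ε → ∃ l₀ : ℕ, ∀ l : ℕ, l₀ ≤ l → ∀ Y, s ∣ Y → (γ₂ - ε) * l ≤ cw g Y s l) : γ₂ ≤ d := by
  classical
  by_contra hlt
  push Not at hlt
  apply hbad
  obtain ⟨l₀, hl₀⟩ := h (γ₂ - d) (by linarith)
  refine ⟨l₀, fun l hl u => ?_⟩
  have h1 := hl₀ l hl (s * (u + 1)) (Dvd.intro _ rfl)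
  have e : γ₂ - (γ₂ - d) = d := by ring
  rw [e] at h1
  refine h1.trans ?_
  unfold cw
  refine Nat.cast_le.2 (card_le_card_of_injOn (fun x => u + 1 + x) ?_ ?_)
  · intro x hx
    rw [mem_coe, mem_filter, mem_range] at hx
    rw [mem_coe, mem_filter, mem_Ioc]
    dsimp only
    refine ⟨by omega, ?_⟩
    have e2 : s * (u + 1 + x) = s * (u + 1) + s * x := by ring
    rw [e2]
    exact hx.2
  · intro x _ y _ hxy
    dsimp only at hxy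
    omega

theorem MAIN_side (k : ℕ) (f : Fin k → ℝ) (R e c : ℝ) (hR : 0 ≤ R) (hc : 0 ≤ c) (he : e ≤ c) (hf1 : ∀ i, f i ≤ R)
    (h : ∀ i j, i ≠ j → e * R ≤ f i → f j ≤ c * R) : ∑ i, f i ≤ k * c * R + R := by
  classical
  by_cases h1 : ∃ i, e * R ≤ f i
  · obtain ⟨i, hi⟩ := h1
    rw [← add_sum_erase univ f (mem_univ i)]
    have h2 : ∑ j ∈ univ.erase i, f j ≤ ∑ _j ∈ univ.erase i, c * R :=
      sum_le_sum fun j hj => h i j (ne_of_mem_erase hj).symm hi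
    rw [sum_const, nsmul_eq_mul] at h2
    have h3 : (#(univ.erase i) : ℝ) ≤ k := by
      have h4 : #(univ.erase i) ≤ #(univ : Finset (Fin k)) := card_le_card (erase_subset _ _)
      rw [card_univ, Fintype.card_fin] at h4
      exact_mod_cast h4
    have h5 : (#(univ.erase i) : ℝ) * (c * R) ≤ k * (c * R) := mul_le_mul_of_nonneg_right h3 (by positivity)
    have h6 := hf1 i
    linarith
  · push Not at h1
    have h2 : ∑ i, f i ≤ ∑ _i : Fin k, c * R := sum_le_sum fun i _ => (h1 i).le.trans (mul_le_mul_of_nonneg_right he hR)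
    rw [sum_const, nsmul_eq_mul, card_univ, Fintype.card_fin] at h2
    linarith

theorem MAIN_max (k : ℕ) (hk : 1 ≤ k) (f : Fin k → ℝ) : ∃ i, ∑ j, f j ≤ k * f i := by
  classical
  have : Nonempty (Fin k) := ⟨⟨0, by omega⟩⟩
  obtain ⟨i, -, hi⟩ := exists_max_image univ f univ_nonempty
  refine ⟨i, ?_⟩
  have h1 : ∑ j, f j ≤ ∑ _j : Fin k, f i := sum_le_sum fun j hj => hi j hj
  rw [sum_const, nsmul_eq_mul, card_univ, Fintype.card_fin] at h1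
  exact h1

theorem MAIN_cnc_mono (g : ℕ → Prop) (d d' : ℝ) (hd : d' ≤ d) (h : Cnc g d) : Cnc g d' := by
  classical
  obtain ⟨m₀, hm, h⟩ := h
  refine ⟨m₀, hm, fun m hm1 hmm => ?_⟩
  obtain ⟨l₀, h⟩ := h m hm1 hmm
  refine ⟨l₀, fun l hl u => le_trans (mul_le_mul_of_nonneg_right hd (Nat.cast_nonneg _)) (h l hl u)⟩

open Classical in
theorem MAIN_core (g : ℕ → Prop) (s R k₂ : ℕ) (α εF e ε₁ ε₂ ε₁' ε₂' εX γ γ₂ : ℝ) (Q l₀ l₁ N Y D : ℕ) (Z : ℕ → ℕ) (a : Fin (k₂ + k₂) → ℕ → ℝ)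
    (P : Fin (k₂ + k₂) → ℕ → ℕ) (hk₂ : 1 ≤ k₂) (hs : 1 ≤ s) (hR : 1 ≤ R) (hDs : D ∣ s) (hDY : D ∣ Y) (hZs : ∀ j, s ∣ Z j)
    (hP1 : ∀ i u, P (Fin.castAdd k₂ i) u = Z i + s * u) (hP2 : ∀ i u, P (Fin.natAdd k₂ i) u = Y + Z i + s * u)
    (hγ : γ ≤ 1 - e) (hγ0 : 0 ≤ γ) (hγ₂0 : 0 ≤ γ₂) (hγ₂1 : γ₂ ≤ 1) (he : 0 < e)
    (hF1 : εF ≤ ε₁') (hF2 : εF ≤ ε₂') (hX1 : 4 * (N + 1) * εX ≤ ε₁) (hX2 : 4 * (N + 1) * εX ≤ ε₂) (hX : 0 < εX)
    (hL : ∀ (b : ℤ → Prop) (γ : ℝ), 0 ≤ γ → γ ≤ 1 → H1 b γ ε₂ 1 l₁ R → H2 b γ ε₂ R → ∀ a a' : ℕ → ℝ, (∀ u, 0 ≤ a u ∧ a u ≤ 1) → (∀ u, 0 ≤ a' u ∧ a' u ≤ 1) →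
      H3 b ε₂' R a a' →
      (e * R ≤ ∑ u ∈ range R, a u → ∑ u ∈ range R, a' u ≤ (γ + e) * R) ∧ (e * R ≤ ∑ u ∈ range R, a' u → ∑ u ∈ range R, a u ≤ (γ + e) * R))
    (hLR : ∀ (b : ℤ → Prop) (γ : ℝ), 0 ≤ γ → γ ≤ 1 - e → H1 b γ ε₁ Q l₀ R → H2 b γ ε₁ R → ∀ a a' : ℕ → ℝ, (∀ u, 0 ≤ a u ∧ a u ≤ 1) → (∀ u, 0 ≤ a' u ∧ a' u ≤ 1) →
      H3 b ε₁' R a a' → e * R ≤ ∑ u ∈ range R, a u → e * R ≤ ∑ u ∈ range R, a' u → ∑ u ∈ range R, a u + ∑ u ∈ range R, a' u ≤ (γ + e) * R)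
    (hE : ∀ q : ℕ, 1 ≤ q → q ≤ Q → ∀ l : ℕ, l₀ ≤ l → ∀ Y, D ∣ Y → (γ - εX) * l ≤ cw g Y (s * q) l)
    (hF : ∀ l : ℕ, l₁ ≤ l → ∀ Y, s ∣ Y → (γ₂ - εX) * l ≤ cw g Y s l)
    (hZ : ∀ i j, i < j → j < k₂ → Z i + s * R ≤ Z j ∧ (cw g (Z j - Z i - s * R) s (2 * R) : ℝ) ≤ (γ₂ + 4 * (N + 1) * εX) * (2 * R))
    (hY : ∀ i < k₂, Z i + s * R ≤ Y)
    (hY2 : ∀ i < k₂, ∀ j < k₂, ∃ Y' : ℕ, D ∣ Y' ∧ Y' + s * R + Z i = Y + Z j ∧ (cw g Y' s (2 * R) : ℝ) ≤ (γ + 4 * (N + 1) * εX) * (2 * R))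
    (ha : ∀ β u, 0 ≤ a β u ∧ a β u ≤ 1) (hsum : (α - εF) * ((k₂ + k₂ : ℕ) * R) ≤ ∑ β, ∑ u ∈ range R, a β u)
    (E : Fin (k₂ + k₂) → Fin (k₂ + k₂) → ℕ → ℕ → Prop) (hEE : ∀ β β' u v, E β β' u v ↔ (P β u < P β' v → g (P β' v - P β u)))
    (hpair : ∀ β β', β ≠ β' → ∑ u ∈ range R, ∑ v ∈ range R, (if E β β' u v then 0 else a β u * a β' v) ≤ εF * (R : ℝ) ^ 2)
    (hfin1 : e + e + (γ₂ + 1 / k₂) ≤ 2 * α - 2 * εF) (hfin2 : γ + e < 2 * α - 2 * εF) : False := by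
  have hR0 : (0 : ℝ) < R := by exact_mod_cast hR
  have hk0 : (0 : ℝ) < k₂ := by exact_mod_cast hk₂
  have hXX : εX ≤ 4 * (N + 1) * εX := by
    have h1 : (0 : ℝ) ≤ N := Nat.cast_nonneg _
    nlinarith
  obtain ⟨M, hM⟩ : ∃ M : Fin (k₂ + k₂) → ℝ, M = fun β => ∑ u ∈ range R, a β u := ⟨_, rfl⟩
  have hM' : ∀ β, M β = ∑ u ∈ range R, a β u := fun β => by rw [hM]
  have hM1 : ∀ β, M β ≤ R := by
    intro β
    rw [hM']
    refine (sum_le_sum fun u _ => (ha β u).2).trans ?_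
    rw [sum_const, card_range, nsmul_eq_mul, mul_one]
  -- two blocks of the same side
  have hsame : ∀ (c : ℕ) (ι : Fin k₂ → Fin (k₂ + k₂)), Function.Injective ι → (∀ i u, P (ι i) u = c + Z i + s * u) → ∀ i j : Fin k₂, i < j →
      (e * R ≤ M (ι i) → M (ι j) ≤ (γ₂ + e) * R) ∧ (e * R ≤ M (ι j) → M (ι i) ≤ (γ₂ + e) * R) := by
    intro c ι hι hPι i j hij
    obtain ⟨h1, h2⟩ := hZ i j hij j.2
    rw [hM', hM']
    refine hL (MAIN_b g (Z j - Z i) s) γ₂ hγ₂0 hγ₂1 ?_ ?_ (a (ι i)) (a (ι j)) (ha _) (ha _) ?_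
    · refine MAIN_H1 g (fun Y => s ∣ Y) s 1 l₁ γ₂ εX ε₂ (hXX.trans hX2) (fun Y hY => (Nat.dvd_add_right hY).2 (dvd_refl s)) ?_ R _ ⟨Z j - Z i - s * R, ?_, by omega⟩
      · intro q hq hq1 l hl Y hY
        have e1 : q = 1 := by omega
        rw [e1, mul_one]
        exact hF l hl Y hY
      · exact Nat.dvd_sub (Nat.dvd_sub (hZs _) (hZs _)) (Dvd.intro _ rfl)
    · exact MAIN_H2 g s γ₂ _ ε₂ hX2 R _ _ (by omega) h2
    · refine MAIN_H3 g s R _ (P (ι i)) (P (ι j)) (a (ι i)) (a (ι j)) εF ε₂' hF2 (E (ι i) (ι j)) (hEE _ _) ?_ (hpair _ _ (fun h => hij.ne (hι h)))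
      intro u hu v hv
      have h3 : s * u ≤ s * R := Nat.mul_le_mul_left _ hu.le
      have h3' : s * u < s * R := Nat.mul_lt_mul_of_pos_left hu hs
      have e1 : ((Z j - Z i : ℕ) : ℤ) = (Z j : ℤ) - Z i := by omega
      rw [hPι, hPι, e1]
      push_cast
      constructor
      · have h4 : ((Z i : ℤ)) + s * R ≤ Z j := by exact_mod_cast h1
        have h5 : ((s : ℤ)) * u < s * R := by exact_mod_cast h3'
        have h6 : (0 : ℤ) ≤ (s : ℤ) * v := by positivity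
        linarith
      · ring
  have hside : ∀ (c : ℕ) (ι : Fin k₂ → Fin (k₂ + k₂)), Function.Injective ι → (∀ i u, P (ι i) u = c + Z i + s * u) →
      ∑ i, M (ι i) ≤ k₂ * (γ₂ + e) * R + R := by
    intro c ι hι hPι
    refine MAIN_side k₂ (fun i => M (ι i)) R e (γ₂ + e) hR0.le (by linarith) (by linarith) (fun i => hM1 _) ?_
    intro i j hij hi
    rcases lt_or_gt_of_ne hij with h1 | h1
    · exact (hsame c ι hι hPι i j h1).1 hi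
    · exact (hsame c ι hι hPι j i h1).2 hi
  have hleft := hside 0 (Fin.castAdd k₂) (Fin.castAdd_injective _ _) (fun i u => by rw [hP1, zero_add])
  have hright := hside Y (Fin.natAdd k₂) (Fin.natAdd_injective _ _) (fun i u => hP2 i u)
  have htot : (α - εF) * ((k₂ + k₂ : ℕ) * R) ≤ ∑ i, M (Fin.castAdd k₂ i) + ∑ i, M (Fin.natAdd k₂ i) := by
    rw [← Fin.sum_univ_add]
    refine hsum.trans (le_of_eq (sum_congr rfl fun β _ => (hM' β).symm))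
  push_cast at htot
  obtain ⟨i, hi⟩ := MAIN_max k₂ hk₂ (fun i => M (Fin.castAdd k₂ i))
  obtain ⟨j, hj⟩ := MAIN_max k₂ hk₂ (fun i => M (Fin.natAdd k₂ i))
  have hkR : (0 : ℝ) < k₂ * R := by positivity
  have hfin1' : (e + e + γ₂) * (k₂ * R) + R ≤ (2 * α - 2 * εF) * (k₂ * R) := by
    have h1 := mul_le_mul_of_nonneg_right hfin1 hkR.le
    have h2 : (e + e + (γ₂ + 1 / (k₂ : ℝ))) * (k₂ * R) = (e + e + γ₂) * (k₂ * R) + R := by
      field_simp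
      ring
    rw [h2] at h1
    exact h1
  have hMi : e * R ≤ M (Fin.castAdd k₂ i) := by
    have h1 : k₂ * (e * R) ≤ k₂ * M (Fin.castAdd k₂ i) := by nlinarith
    exact le_of_mul_le_mul_left h1 hk0
  have hMj : e * R ≤ M (Fin.natAdd k₂ j) := by
    have h1 : k₂ * (e * R) ≤ k₂ * M (Fin.natAdd k₂ j) := by nlinarith
    exact le_of_mul_le_mul_left h1 hk0
  have hMij : (2 * α - 2 * εF) * R ≤ M (Fin.castAdd k₂ i) + M (Fin.natAdd k₂ j) := by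
    have h1 : k₂ * ((2 * α - 2 * εF) * R) ≤ k₂ * (M (Fin.castAdd k₂ i) + M (Fin.natAdd k₂ j)) := by nlinarith
    exact le_of_mul_le_mul_left h1 hk0
  have hcross : M (Fin.castAdd k₂ i) + M (Fin.natAdd k₂ j) ≤ (γ + e) * R := by
    have hYi := hY i i.2
    obtain ⟨Y', hDY', hY'e, hY'c⟩ := hY2 i i.2 j j.2
    rw [hM', hM']
    rw [hM'] at hMi hMj
    refine hLR (MAIN_b g (Y + Z j - Z i) s) γ hγ0 hγ ?_ ?_ (a _) (a _) (ha _) (ha _) ?_ hMi hMj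
    · refine MAIN_H1 g (fun Y => D ∣ Y) s Q l₀ γ εX ε₁ (hXX.trans hX1) (fun Y hY => (Nat.dvd_add_right hY).2 hDs) hE R _ ⟨Y', hDY', by omega⟩
    · exact MAIN_H2 g s γ _ ε₁ hX1 R _ Y' (by omega) hY'c
    · refine MAIN_H3 g s R _ _ _ (a _) (a _) εF ε₁' hF1 (E _ _) (hEE _ _) ?_ (hpair _ _ ?_)
      · intro u hu v hv
        have h3' : s * u < s * R := Nat.mul_lt_mul_of_pos_left hu hs
        have e1 : ((Y + Z j - Z i : ℕ) : ℤ) = (Y : ℤ) + Z j - Z i := by omega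
        rw [hP1, hP2, e1]
        push_cast
        constructor
        · have h4 : ((Z i : ℤ)) + s * R ≤ Y := by exact_mod_cast hYi
          have h5 : ((s : ℤ)) * u < s * R := by exact_mod_cast h3'
          have h6 : (0 : ℤ) ≤ (s : ℤ) * v := by positivity
          have h7 : (0 : ℤ) ≤ (Z j : ℤ) := by positivity
          linarith
        · ring
      · intro h
        have h1 := congrArg (fun x : Fin (k₂ + k₂) => (x : ℕ)) h
        simp only [Fin.val_castAdd, Fin.val_natAdd] at h1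
        have h2 := i.2
        omega
  have h1 := hMij.trans hcross
  have h2 := le_of_mul_le_mul_right h1 hR0
  linarith

theorem MAIN_max_l (Q : ℕ) (A : ℕ → ℕ → Prop) (hA : ∀ q l l', l ≤ l' → A q l → A q l') (h : ∀ q : ℕ, 1 ≤ q → ∃ l, A q l) :
    ∃ l₀, ∀ q : ℕ, 1 ≤ q → q ≤ Q → A q l₀ := by
  induction Q with
  | zero => exact ⟨0, fun q h1 h2 => by omega⟩
  | succ Q ih =>
    obtain ⟨l, hl⟩ := ih
    obtain ⟨l', hl'⟩ := h (Q + 1) (by omega)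
    refine ⟨max l l', fun q h1 h2 => ?_⟩
    rcases Nat.lt_or_ge Q q with h3 | h3
    · have e : q = Q + 1 := by omega
      rw [e]
      exact hA _ _ _ (le_max_right _ _) hl'
    · exact hA _ _ _ (le_max_left _ _) (hl q h1 h3)

theorem MAIN : MAIN_stmt := by
  classical
  intro hFC hLLB hLRB hFEK hEXT hGEN hNES hCLI g α δ hα0 hα hδ hHyp
  have hmain : ∀ δ : ℝ, 0 < δ → δ ≤ 1 → Cnc g (2 * α - δ) := by
    clear hδ δ
    intro δ hδ hδ1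
    by_contra hC
    obtain ⟨Bad, hBadd⟩ : ∃ Bad : ℕ → Prop, Bad = fun m => ¬ ∃ l₀ : ℕ, ∀ l : ℕ, l₀ ≤ l → ∀ u : ℕ, (2 * α - δ) * l ≤ (#{t ∈ Ioc u (u + l) | g (m * t)} : ℝ) := ⟨_, rfl⟩
    have hBad : ∀ m₀ : ℕ, 1 ≤ m₀ → ∃ m : ℕ, 1 ≤ m ∧ m₀ ∣ m ∧ Bad m := by
      intro m₀ hm₀
      by_contra h
      apply hC
      refine ⟨m₀, hm₀, fun m hm hmm => ?_⟩
      by_contra h2
      apply h
      refine ⟨m, hm, hmm, ?_⟩
      rw [hBadd]
      exact h2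
    obtain ⟨e, hee⟩ : ∃ e : ℝ, e = δ / 8 := ⟨_, rfl⟩
    have he : 0 < e := by rw [hee]; positivity
    have he1 : e ≤ 1 := by rw [hee]; linarith
    obtain ⟨ε₁, ε₁', Q, hε₁, hε₁', hQ, hLRB⟩ := hLRB e he he1
    obtain ⟨ε₂, ε₂', hε₂, hε₂', hLLB⟩ := hLLB e he he1
    obtain ⟨k₂, hk₂⟩ := exists_nat_ge (8 / δ)
    have hk0 : (0 : ℝ) < k₂ := lt_of_lt_of_le (by positivity) hk₂
    have hk1 : 1 ≤ k₂ := by
      have h1 : 0 < k₂ := by exact_mod_cast hk0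
      omega
    have hk3 : 1 / (k₂ : ℝ) ≤ e := by
      rw [hee, div_le_iff₀ hk0]
      rw [div_le_iff₀ hδ] at hk₂
      linarith
    obtain ⟨εF, hεF⟩ : ∃ εF : ℝ, εF = min (min ε₁' ε₂') (δ / 16) := ⟨_, rfl⟩
    have hF0 : 0 < εF := by rw [hεF]; exact lt_min (lt_min hε₁' hε₂') (by positivity)
    have hF1 : εF ≤ ε₁' := by rw [hεF]; exact (min_le_left _ _).trans (min_le_left _ _)
    have hF2 : εF ≤ ε₂' := by rw [hεF]; exact (min_le_left _ _).trans (min_le_right _ _)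
    have hF3 : εF ≤ δ / 16 := by rw [hεF]; exact min_le_right _ _
    obtain ⟨n, η, hn, hη, hFC⟩ := hFC (k₂ + k₂) εF (by omega) hF0 (by linarith)
    obtain ⟨D, L, hD, hCLI⟩ := hCLI g α hHyp n (k₂ + k₂) η hn (by omega) hη
    obtain ⟨N, hN⟩ : ∃ N : ℕ, N = k₂ * k₂ := ⟨_, rfl⟩
    have hN0 : (0 : ℝ) ≤ N := Nat.cast_nonneg _
    obtain ⟨εX, hεX⟩ : ∃ εX : ℝ, εX = min (min ε₁ ε₂) e / (4 * (N + 1)) := ⟨_, rfl⟩
    have hX0 : 0 < εX := by rw [hεX]; exact div_pos (lt_min (lt_min hε₁ hε₂) he) (by positivity)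
    have hXm : 4 * (N + 1) * εX = min (min ε₁ ε₂) e := by
      rw [hεX]
      field_simp
    have hX1 : 4 * (N + 1) * εX ≤ ε₁ := by rw [hXm]; exact (min_le_left _ _).trans (min_le_left _ _)
    have hX2 : 4 * (N + 1) * εX ≤ ε₂ := by rw [hXm]; exact (min_le_left _ _).trans (min_le_right _ _)
    have hX3 : εX ≤ e := by
      have h1 : 4 * (N + 1) * εX ≤ e := by rw [hXm]; exact min_le_right _ _
      nlinarith
    obtain ⟨s, γ, hs, hDs, hBs, hγ0, hγ1, hE1, hE2⟩ := hEXT hFEK g D hD Bad hBad εX hX0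
    obtain ⟨l₀, hl₀⟩ := MAIN_max_l Q (fun q l₀ => ∀ l : ℕ, l₀ ≤ l → ∀ Y, D ∣ Y → (γ - εX) * l ≤ cw g Y (s * q) l)
      (fun q l l' hll h m hm => h m (hll.trans hm)) hE2
    obtain ⟨γ₂, hγ₂0, hγ₂1, hF1', hF2'⟩ := hFEK g (fun Y => s ∣ Y) s ⟨0, dvd_zero _⟩ (fun Y hY => (Nat.dvd_add_right hY).2 (dvd_refl s))
    obtain ⟨l₁, hl₁⟩ := hF2' εX hX0
    have hγ₂ : γ₂ ≤ 2 * α - δ := MAIN_bad g s (2 * α - δ) γ₂ (by rw [hBadd] at hBs; exact hBs) hF2'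
    have hγγ : γ - εX ≤ γ₂ := by
      obtain ⟨l₂, hl₂⟩ := hE2 1 le_rfl
      obtain ⟨Y, hY, hY2⟩ := hF1' (l₂ + 1)
      have h1 := hl₂ (l₂ + 1) (by omega) Y (hDs.trans hY)
      rw [mul_one] at h1
      have h2 : (0 : ℝ) < ((l₂ + 1 : ℕ) : ℝ) := by positivity
      exact le_of_mul_le_mul_right (h1.trans hY2) h2
    obtain ⟨R₁, hLRB⟩ := hLRB l₀
    obtain ⟨R₂, hLLB⟩ := hLLB l₁
    obtain ⟨R, hRR⟩ : ∃ R : ℕ, R = R₁ + R₂ + L + l₀ + l₁ + 1 := ⟨_, rfl⟩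
    obtain ⟨Z, hZs, hZ⟩ := hNES hGEN g s N l₁ γ₂ εX hs hX0 hγ₂0 hγ₂1 (fun l => by
      obtain ⟨Y, hY, hY2⟩ := hF1' l
      exact ⟨Y, hY, hY2.trans (mul_le_mul_of_nonneg_right (by linarith) (Nat.cast_nonneg _))⟩) hl₁ R (by omega) (by omega)
    obtain ⟨O, hO⟩ : ∃ O : Finset ℤ, O = (range k₂ ×ˢ range k₂).image (fun z => ((Z z.2 : ℤ) - Z z.1) / s) := ⟨_, rfl⟩
    have hOc : #O ≤ N := by
      rw [hO, hN]
      refine card_image_le.trans ?_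
      rw [card_product, card_range]
    have hQ0 : ∀ l : ℕ, l₀ ≤ l → ∀ Y, D ∣ Y → (γ - εX) * l ≤ cw g Y s l := by
      intro l hl Y hY
      have h1 := hl₀ 1 le_rfl hQ l hl Y hY
      rw [mul_one] at h1
      exact h1
    obtain ⟨Y, hDY, hBY, hYO⟩ := hGEN g (fun Y => D ∣ Y) s N l₀ γ εX hs (fun Y hY => (Nat.dvd_add_right hY).2 hDs) hX0 hγ0 hγ1 hE1 hQ0 R
      (by omega) (by omega) O hOc (∑ i ∈ range k₂, Z i + s * R)
    obtain ⟨P, hP⟩ : ∃ P : Fin (k₂ + k₂) → ℕ → ℕ, P = Fin.addCases (fun i u => Z i + s * u) (fun i u => Y + Z i + s * u) := ⟨_, rfl⟩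
    have hP1 : ∀ i u, P (Fin.castAdd k₂ i) u = Z i + s * u := fun i u => by
      rw [hP]
      simp only [Fin.addCases_left]
    have hP2 : ∀ i u, P (Fin.natAdd k₂ i) u = Y + Z i + s * u := fun i u => by
      rw [hP]
      simp only [Fin.addCases_right]
    have hcl := hCLI R P (by omega) (by
      intro β u v huv
      have h1 : s * u < s * v := Nat.mul_lt_mul_of_pos_left huv hs
      refine Fin.addCases (fun i => ?_) (fun i => ?_) β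
      · rw [hP1, hP1]
        omega
      · rw [hP2, hP2]
        omega) (by
      intro β u
      have h1 : D ∣ s * u := Dvd.dvd.mul_right hDs u
      refine Fin.addCases (fun i => ?_) (fun i => ?_) β
      · rw [hP1]
        exact (Nat.dvd_add_right (hDs.trans (hZs _))).2 h1
      · rw [hP2]
        exact (Nat.dvd_add_right ((Nat.dvd_add_right hDY).2 (hDs.trans (hZs _)))).2 h1)
    obtain ⟨E, hE⟩ : ∃ E : Fin (k₂ + k₂) → Fin (k₂ + k₂) → ℕ → ℕ → Prop, E = fun β β' u v => (P β u < P β' v → g (P β' v - P β u)) := ⟨_, rfl⟩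
    obtain ⟨a, ha, hsum, hpair⟩ := hFC R α E (by omega) hα0 (by
      refine le_trans (le_of_eq ?_) hcl
      refine congrArg (fun z : Finset (Om n (k₂ + k₂) R) => ((#z : ℕ) : ℝ)) ?_
      ext ω
      rw [mem_filter, mem_filter, hE])
    refine MAIN_core g s R k₂ α εF e ε₁ ε₂ ε₁' ε₂' εX γ γ₂ Q l₀ l₁ N Y D Z a P hk1 hs (by omega) hDs hDY hZs hP1 hP2
      (by linarith) hγ0 hγ₂0 hγ₂1 he hF1 hF2 hX1 hX2 hX0 (hLLB R (by omega)) (hLRB R (by omega)) hl₀ hl₁ ?_ ?_ ?_ ha hsum E (fun β β' u v => by rw [hE]) hpair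
      (by linarith) (by linarith)
    · intro i j hij hj
      refine hZ i j hij (lt_of_lt_of_le hj ?_)
      rw [hN]
      nlinarith
    · intro i hi
      refine le_trans (Nat.add_le_add_right ?_ _) hBY
      exact single_le_sum (f := Z) (fun _ _ => Nat.zero_le _) (mem_range.2 hi)
    · intro i hi j hj
      obtain ⟨Y', hY', hYe, hYc⟩ := hYO (((Z j : ℤ) - Z i) / s) (by
        rw [hO, mem_image]
        exact ⟨(i, j), mem_product.2 ⟨mem_range.2 hi, mem_range.2 hj⟩, rfl⟩)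
      refine ⟨Y', hY', ?_, hYc⟩
      have h1 : (s : ℤ) ∣ (Z j : ℤ) - Z i := dvd_sub (by exact_mod_cast hZs j) (by exact_mod_cast hZs i)
      rw [Int.mul_ediv_cancel' h1] at hYe
      have h2 : ((Y' + s * R + Z i : ℕ) : ℤ) = ((Y + Z j : ℕ) : ℤ) := by
        push_cast
        linarith
      exact_mod_cast h2
  rcases le_total δ 1 with h | h
  · exact hmain δ hδ h
  · exact MAIN_cnc_mono g (2 * α - 1) (2 * α - δ) (by linarith) (hmain 1 one_pos le_rfl)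

end Pool.Agent.HF
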