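import Pool.Agent.helper19.HF.SpecC
import Pool.Agent.helper19.HF.MAIN

/-!
# Row hz:MAINZ (MP_bf63dc_nt), spec Pool/Agent/helper19/HF/SpecC.lean
-/

set_option autoImplicit false

namespace Pool.Agent.HF

open Finset Pool.Agent.AT Pool.Agent.IT

/-- the predicate in the coordinate of a progression -/
def MAINZ_P (g : ℤ → Prop) (loc : ℤ) (s : ℕ) (d : ℤ) : Prop := g (loc + s * d)

theorem MAINZ_H1 (g V : ℤ → Prop) (s Q l₀ : ℕ) (γ ε ε' : ℝ) (hε : ε ≤ ε')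
    (h : ∀ q : ℕ, 1 ≤ q → q ≤ Q → ∀ l : ℕ, l₀ ≤ l → ∀ Y, V Y → (γ - ε) * l ≤ cz g Y (s * q) l)
    (R : ℕ) (loc : ℤ) (hloc : ∀ w : ℤ, V (loc + s * w)) : H1 (MAINZ_P g loc s) γ ε' Q l₀ R := by
  classical
  intro q hq hqQ l hl w _ _
  have h1 := h q hq hqQ l hl _ (hloc w)
  have h2 : (γ - ε') * l ≤ (γ - ε) * l := mul_le_mul_of_nonneg_right (by linarith) (Nat.cast_nonneg _)
  refine h2.trans (h1.trans (le_of_eq ?_))
  unfold cz
  congr 2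
  ext y
  simp only [mem_filter]
  unfold MAINZ_P
  have e : loc + s * w + ((s * q : ℕ) : ℤ) * (y : ℕ) = loc + s * (w + q * (y : ℕ)) := by
    push_cast
    ring
  rw [e]

theorem MAINZ_H2 (g : ℤ → Prop) (s a b R : ℕ) (γ ε ε' : ℝ) (hε : ε ≤ ε') (loc : ℤ)
    (h : (cz g (loc - s * (b * R)) s ((a + b) * R) : ℝ) ≤ (γ + ε) * ((a + b) * R)) : H2Z (MAINZ_P g loc s) γ ε' a b R := by
  classical
  unfold H2Z
  have h2 : (γ + ε) * ((a + b) * R) ≤ (γ + ε') * (((a : ℝ) + b) * R) := mul_le_mul_of_nonneg_right (by linarith) (by positivity)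
  refine le_trans ?_ (h.trans h2)
  unfold cz
  refine Nat.cast_le.2 (card_le_card_of_injOn (fun d => (d + b * R).toNat) ?_ ?_)
  · intro d hd
    rw [mem_coe, mem_filter, mem_Ico] at hd
    rw [mem_coe, mem_filter, mem_range]
    dsimp only
    obtain ⟨x, hx⟩ : ∃ x : ℕ, d = (x : ℤ) - b * R := ⟨(d + b * R).toNat, by
      have h3 := hd.1.1
      have h4 : (0 : ℤ) ≤ d + b * R := by linarith
      rw [Int.toNat_of_nonneg h4]
      ring⟩
    have e1 : (d + b * R).toNat = x := by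
      rw [hx]
      have e2 : (x : ℤ) - b * R + b * R = x := by ring
      rw [e2, Int.toNat_natCast]
    rw [e1]
    constructor
    · have h3 := hd.1.2
      rw [hx] at h3
      have h4 : (x : ℤ) < ((a + b) * R : ℕ) := by
        push_cast
        linarith
      exact_mod_cast h4
    · have h3 := hd.2
      unfold MAINZ_P at h3
      have e2 : loc + s * d = loc - s * (b * R) + s * (x : ℕ) := by
        rw [hx]
        ring
      rw [e2] at h3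
      exact h3
  · intro d hd d' hd' hdd
    rw [mem_coe, mem_filter, mem_Ico] at hd hd'
    dsimp only at hdd
    have h3 : (0 : ℤ) ≤ d + b * R := by linarith [hd.1.1]
    have h4 : (0 : ℤ) ≤ d' + b * R := by linarith [hd'.1.1]
    have h5 : d + b * R = d' + b * R := by
      rw [← Int.toNat_of_nonneg h3, ← Int.toNat_of_nonneg h4, hdd]
    linarith

open Classical in
theorem MAINZ_H3 (g : ℤ → Prop) (s a b R : ℕ) (loc : ℤ) (f f' : ℕ → ℝ) (ε ε' : ℝ) (hε : ε ≤ ε') (E : ℕ → ℕ → Prop)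
    (hE : ∀ u v : ℕ, E u v ↔ g (loc + s * ((a : ℤ) * u - b * v)))
    (h : ∑ u ∈ range R, ∑ v ∈ range R, (if E u v then 0 else f u * f' v) ≤ ε * (R : ℝ) ^ 2) :
    H3Z (MAINZ_P g loc s) ε' a b R f f' := by
  unfold H3Z
  have h2 : ε * (R : ℝ) ^ 2 ≤ ε' * (R : ℝ) ^ 2 := mul_le_mul_of_nonneg_right hε (by positivity)
  refine le_trans (le_of_eq ?_) (h.trans h2)
  refine sum_congr rfl fun u _ => sum_congr rfl fun v _ => ?_
  have e1 : MAINZ_P g loc s ((a : ℤ) * (u : ℕ) - b * (v : ℕ)) ↔ E u v := (hE u v).symm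
  by_cases h5 : MAINZ_P g loc s ((a : ℤ) * (u : ℕ) - b * (v : ℕ))
  · rw [if_pos h5, if_pos (e1.1 h5)]
  · rw [if_neg h5, if_neg (fun h6 => h5 (e1.2 h6))]

theorem MAINZ_num (M : Fin 4 → ℝ) (R e δ γ γ₁ εF : ℝ) (hR : 0 < R) (he8 : e ≤ δ / 8) (he6 : e ≤ 1 / 10 ^ 6) (he : 0 < e)
    (hF : εF ≤ e / 4) (hγ : γ ≤ 2 * (1 / 4 + 1 / 500000) - δ) (hγ₁ : γ₁ ≤ 1 - δ) (hM1 : ∀ β, M β ≤ R)
    (hsum : (1 / 4 + 1 / 500000 - εF) * (4 * R) ≤ M 0 + M 1 + M 2 + M 3)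
    (h01 : e * R ≤ M 0 → e * R ≤ M 1 → M 0 + M 1 ≤ (γ₁ + e) * R) (h23 : e * R ≤ M 2 → e * R ≤ M 3 → M 2 + M 3 ≤ (γ₁ + e) * R)
    (h02 : e * R ≤ M 0 → e * R ≤ M 2 → M 0 + M 2 ≤ (γ + e) * R) (h03 : e * R ≤ M 0 → e * R ≤ M 3 → M 0 + M 3 ≤ (γ + e) * R)
    (h12 : e * R ≤ M 1 → e * R ≤ M 2 → M 1 + M 2 ≤ (γ + e) * R) (h13 : e * R ≤ M 1 → e * R ≤ M 3 → M 1 + M 3 ≤ (γ + e) * R) : False := by
  have a1 : e * R ≤ δ / 8 * R := mul_le_mul_of_nonneg_right he8 hR.le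
  have a2 : e * R ≤ 1 / 10 ^ 6 * R := mul_le_mul_of_nonneg_right he6 hR.le
  have a3 : εF * R ≤ e / 4 * R := mul_le_mul_of_nonneg_right hF hR.le
  have a4 : γ * R ≤ (2 * (1 / 4 + 1 / 500000) - δ) * R := mul_le_mul_of_nonneg_right hγ hR.le
  have a5 : γ₁ * R ≤ (1 - δ) * R := mul_le_mul_of_nonneg_right hγ₁ hR.le
  have a6 : 0 < e * R := mul_pos he hR
  have b0 := hM1 0
  have b1 := hM1 1
  have b2 := hM1 2
  have b3 := hM1 3
  rcases le_or_gt (e * R) (M 0) with c0 | c0 <;> rcases le_or_gt (e * R) (M 1) with c1 | c1 <;>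
    rcases le_or_gt (e * R) (M 2) with c2 | c2 <;> rcases le_or_gt (e * R) (M 3) with c3 | c3
  · have := h02 c0 c2
    have := h13 c1 c3
    linarith
  · have := h02 c0 c2
    have := h12 c1 c2
    linarith
  · have := h03 c0 c3
    have := h13 c1 c3
    linarith
  · have := h01 c0 c1
    linarith
  · have := h02 c0 c2
    have := h03 c0 c3
    linarith
  · have := h02 c0 c2
    linarith
  · have := h03 c0 c3
    linarith
  · linarith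
  · have := h12 c1 c2
    have := h13 c1 c3
    linarith
  · have := h12 c1 c2
    linarith
  · have := h13 c1 c3
    linarith
  · linarith
  · have := h23 c2 c3
    linarith
  · linarith
  · linarith
  · linarith

theorem MAINZ : MAINZ_stmt := by
  classical
  intro hFC hLRZ hFEZ hEXZ hGEZ hUNZ hCLZ hQ a b ha hb hab δ hδ hδ4
  obtain ⟨e, hee⟩ : ∃ e : ℝ, e = min (δ / 8) (1 / 10 ^ 6) := ⟨_, rfl⟩
  have he : 0 < e := by rw [hee]; exact lt_min (by positivity) (by positivity)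
  have he8 : e ≤ δ / 8 := by rw [hee]; exact min_le_left _ _
  have he6 : e ≤ 1 / 10 ^ 6 := by rw [hee]; exact min_le_right _ _
  have he1 : e ≤ 1 := by linarith
  obtain ⟨ε₁, ε₁', Q₁, hε₁, hε₁', hQ₁, hL11⟩ := hLRZ 1 1 le_rfl le_rfl e he he1
  obtain ⟨ε₂, ε₂', Q₂, hε₂, hε₂', hQ₂, hLab⟩ := hLRZ a b ha hb e he he1
  obtain ⟨εF, hεF⟩ : ∃ εF : ℝ, εF = min (min ε₁' ε₂') (e / 4) := ⟨_, rfl⟩
  have hF0 : 0 < εF := by rw [hεF]; exact lt_min (lt_min hε₁' hε₂') (by positivity)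
  have hF1 : εF ≤ ε₁' := by rw [hεF]; exact (min_le_left _ _).trans (min_le_left _ _)
  have hF2 : εF ≤ ε₂' := by rw [hεF]; exact (min_le_left _ _).trans (min_le_right _ _)
  have hF3 : εF ≤ e / 4 := by rw [hεF]; exact min_le_right _ _
  obtain ⟨n, η, hn, hη, hFC⟩ := hFC 4 εF (by norm_num) hF0 (by linarith)
  obtain ⟨D, L, hD, hCLZ⟩ := hCLZ hQ a b ha hb hab n η hn hη
  refine ⟨D, hD, fun c hc hlow hall => ?_⟩
  obtain ⟨h₀, h₁, hh, hc0, hc1⟩ := hUNZ a b D c hD hc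
  obtain ⟨s, γ, hs, hDs, hγ0, hγ1, hγd, hE1, hE2⟩ := hEXZ hFEZ (TC a b) D c (2 * (1 / 4 + 1 / 500000) - δ) (ε₂ / 20) hD hlow (by positivity)
  obtain ⟨s', γ₁, hs', hss, hγ₁0, hγ₁1, hγ₁d, hG1, hG2⟩ := hEXZ hFEZ (TC 1 1) s 0 (1 - δ) (ε₁ / 8) hs (hall s hs hDs) (by positivity)
  obtain ⟨r, hr⟩ := hss
  have hr1 : 1 ≤ r := by
    rcases Nat.eq_zero_or_pos r with h | h
    · rw [h, mul_zero] at hr
      omega
    · exact h
  obtain ⟨l₁, hl₁⟩ := MAIN_max_l Q₁ (fun q l₀ => ∀ l : ℕ, l₀ ≤ l → ∀ Y : ℤ, (s : ℤ) ∣ Y - 0 → (γ₁ - ε₁ / 8) * l ≤ cz (TC 1 1) Y (s' * q) l)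
    (fun q l l' hll h m hm => h m (hll.trans hm)) hG2
  obtain ⟨l₂, hl₂⟩ := MAIN_max_l Q₂ (fun q l₀ => ∀ l : ℕ, l₀ ≤ l → ∀ Y : ℤ, (D : ℤ) ∣ Y - c → (γ - ε₂ / 20) * l ≤ cz (TC a b) Y (s' * q) l)
    (fun q l l' hll h m hm => h m (hll.trans hm)) (fun q hq => by
      obtain ⟨l₀, h⟩ := hE2 (r * q) (Nat.mul_pos hr1 hq)
      refine ⟨l₀, fun l hl Y hY => ?_⟩
      have h1 := h l hl Y hY
      rw [← mul_assoc, ← hr] at h1
      exact h1)
  obtain ⟨R₁, hL11⟩ := hL11 l₁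
  obtain ⟨R₂, hLab⟩ := hLab l₂
  obtain ⟨R, hRR⟩ : ∃ R : ℕ, R = R₁ + R₂ + L + l₁ + l₂ + 1 := ⟨_, rfl⟩
  have hR1 : 1 ≤ R := by omega
  have hR0 : (0 : ℝ) < R := by exact_mod_cast hR1
  have hDs' : D ∣ s' := by
    rw [hr]
    exact Dvd.dvd.mul_right hDs r
  have hDsz : (D : ℤ) ∣ s := by exact_mod_cast hDs
  have hDsz' : (D : ℤ) ∣ s' := by exact_mod_cast hDs'
  have hssz : (s : ℤ) ∣ s' := ⟨r, by rw [hr]; push_cast; ring⟩
  -- the location of the differences of slope one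
  obtain ⟨Y₁, hVY, hBY, hY₁⟩ := hGEZ (TC 1 1) (fun Y => (s : ℤ) ∣ Y - 0) s' s' 1 l₁ γ₁ (ε₁ / 8) hs' hs' (dvd_refl _)
    (fun Y hY => by
      have h1 : Y + s' - 0 = (Y - 0) + s' := by ring
      rw [h1]
      exact dvd_add hY hssz) (by positivity) hγ₁0 hγ₁1 hG1 (fun l hl Y hY => by
      have h1 := hl₁ 1 le_rfl hQ₁ l hl Y hY
      rw [mul_one] at h1
      exact h1) (2 * R) (by omega) (by omega) {-(R : ℤ)} (by rw [card_singleton]) (s' * R + 1)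
  obtain ⟨-, hY₁c⟩ := hY₁ _ (mem_singleton_self _)
  rw [sub_zero] at hVY
  obtain ⟨k, hk⟩ : ∃ k : ℤ, -Y₁ = s * k := by
    obtain ⟨z, hz⟩ := hVY
    exact ⟨-z, by rw [hz]; ring⟩
  obtain ⟨Y, hYY⟩ : ∃ Y : ℤ, Y = -Y₁ := ⟨_, rfl⟩
  have hsk : Y = s * k := by rw [hYY, hk]
  have hYabs : ((s' * R + 1 : ℕ) : ℤ) ≤ |Y| := by
    rw [hYY, abs_neg]
    exact hBY
  -- the location of the cross differences
  obtain ⟨O, hO⟩ : ∃ O : Finset ℤ, O = (range 2 ×ˢ range 2).image (fun z : ℕ × ℕ => ((z.1 : ℤ) * a - z.2 * b) * k - b * R * r) := ⟨_, rfl⟩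
  have hOc : #O ≤ 4 := by
    rw [hO]
    exact card_image_le.trans (by rw [card_product, card_range])
  obtain ⟨y, hVy, hBy, hy⟩ := hGEZ (TC a b) (fun Y => (D : ℤ) ∣ Y - c) s s' 4 l₂ γ (ε₂ / 20) hs hs' ⟨r, hr⟩
    (fun Y hY => by
      have h1 : Y + s - c = (Y - c) + s := by ring
      rw [h1]
      exact dvd_add hY hDsz) (by positivity) hγ0 hγ1 hE1 (fun l hl Y hY => by
      have h1 := hl₂ 1 le_rfl hQ₂ l hl Y hY
      rw [mul_one] at h1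
      exact h1) ((a + b) * R) (Nat.mul_pos (by omega) hR1) (by nlinarith) O hOc ((a + b) * Y.natAbs + s' * ((a + b) * R) + 1)
  -- the places of the blocks
  obtain ⟨x₁, x₂, hx⟩ : IsCoprime (a : ℤ) (b : ℤ) := Nat.isCoprime_iff_coprime.2 hab
  obtain ⟨w, hw⟩ := hVy
  obtain ⟨Λ, hΛ⟩ : ∃ Λ : ℤ, Λ = h₀ + D * (w * x₁) := ⟨_, rfl⟩
  obtain ⟨H, hH⟩ : ∃ H : ℤ, H = h₁ - D * (w * x₂) := ⟨_, rfl⟩
  have hyΛ : (a : ℤ) * Λ - b * H = y := by
    rw [hΛ, hH]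
    linear_combination hh - hw + D * w * hx
  obtain ⟨P, hP⟩ : ∃ P : Fin 4 → ℕ → ℤ, P = fun β u => (![Λ, Λ + Y, H, H + Y] : Fin 4 → ℤ) β + s' * (u : ℕ) := ⟨_, rfl⟩
  have hP0 : ∀ u : ℕ, P 0 u = Λ + s' * (u : ℕ) := fun u => by rw [hP]; rfl
  have hP1 : ∀ u : ℕ, P 1 u = Λ + Y + s' * (u : ℕ) := fun u => by rw [hP]; rfl
  have hP2 : ∀ u : ℕ, P 2 u = H + s' * (u : ℕ) := fun u => by rw [hP]; rfl
  have hP3 : ∀ u : ℕ, P 3 u = H + Y + s' * (u : ℕ) := fun u => by rw [hP]; rfl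
  have hs'z : (0 : ℤ) < s' := by exact_mod_cast hs'
  have hDY : (D : ℤ) ∣ Y := by
    rw [hsk]
    exact Dvd.dvd.mul_right hDsz k
  have hne1 : ∀ u < R, ∀ v < R, Y ≠ s' * ((u : ℤ) - (v : ℕ)) := by
    intro u hu v hv h
    have h1 : |Y| = s' * |(u : ℤ) - (v : ℕ)| := by rw [h, abs_mul, abs_of_pos hs'z]
    have h2 : |(u : ℤ) - (v : ℕ)| ≤ R := by
      rw [abs_le]
      constructor <;> omega
    have h3 : (s' : ℤ) * |(u : ℤ) - (v : ℕ)| ≤ s' * R := mul_le_mul_of_nonneg_left h2 hs'z.le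
    rw [h1] at hYabs
    push_cast at hYabs
    linarith
  have hne2 : ∀ u < R, ∀ v < R, ∀ i j : ℤ, 0 ≤ i → i ≤ 1 → 0 ≤ j → j ≤ 1 → y + (i * a - j * b) * Y + s' * ((a : ℤ) * (u : ℕ) - b * (v : ℕ)) ≠ 0 := by
    intro u hu v hv i j hi0 hi1 hj0 hj1 h
    have h1 : y = -((i * a - j * b) * Y + s' * ((a : ℤ) * (u : ℕ) - b * (v : ℕ))) := by linarith
    have h2 : |y| ≤ |(i * a - j * b) * Y| + |s' * ((a : ℤ) * (u : ℕ) - b * (v : ℕ))| := by
      rw [h1, abs_neg]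
      exact abs_add_le _ _
    have ha0 : (0 : ℤ) ≤ a := Int.natCast_nonneg _
    have hb0 : (0 : ℤ) ≤ b := Int.natCast_nonneg _
    have i1 : i * a ≤ a := mul_le_of_le_one_left ha0 hi1
    have i2 : 0 ≤ i * a := mul_nonneg hi0 ha0
    have i3 : j * b ≤ b := mul_le_of_le_one_left hb0 hj1
    have i4 : 0 ≤ j * b := mul_nonneg hj0 hb0
    have h3 : |i * a - j * b| ≤ a + b := by
      rw [abs_le]
      constructor <;> linarith
    have h4 : |(a : ℤ) * (u : ℕ) - b * (v : ℕ)| ≤ (a + b) * R := by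
      have hu' : ((u : ℕ) : ℤ) ≤ R := by exact_mod_cast hu.le
      have hv' : ((v : ℕ) : ℤ) ≤ R := by exact_mod_cast hv.le
      have hu0 : (0 : ℤ) ≤ u := Int.natCast_nonneg _
      have hv0 : (0 : ℤ) ≤ v := Int.natCast_nonneg _
      have hRz : (0 : ℤ) ≤ R := Int.natCast_nonneg _
      have j1 : (a : ℤ) * (u : ℕ) ≤ a * R := mul_le_mul_of_nonneg_left hu' ha0
      have j2 : (b : ℤ) * (v : ℕ) ≤ b * R := mul_le_mul_of_nonneg_left hv' hb0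
      have j3 : (0 : ℤ) ≤ a * (u : ℕ) := mul_nonneg ha0 hu0
      have j4 : (0 : ℤ) ≤ b * (v : ℕ) := mul_nonneg hb0 hv0
      rw [abs_le]
      constructor <;> linarith
    have h5 : |(i * a - j * b) * Y| ≤ (a + b) * |Y| := by
      rw [abs_mul]
      exact mul_le_mul_of_nonneg_right h3 (abs_nonneg _)
    have h6 : |s' * ((a : ℤ) * (u : ℕ) - b * (v : ℕ))| ≤ s' * ((a + b) * R) := by
      rw [abs_mul, abs_of_pos hs'z]
      exact mul_le_mul_of_nonneg_left h4 hs'z.le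
    push_cast at hBy
    linarith
  have hcl := hCLZ h₀ h₁ hc0 hc1 R P (by omega) (by
      intro β u v huv
      rw [hP]
      dsimp only
      have h1 : ((u : ℕ) : ℤ) < v := by exact_mod_cast huv
      have h2 : (s' : ℤ) * u < s' * v := mul_lt_mul_of_pos_left h1 hs'z
      linarith) (by
      intro u
      have h1 : (D : ℤ) ∣ s' * (u : ℕ) := Dvd.dvd.mul_right hDsz' _
      rw [hP0, hP1, hP2, hP3, hΛ, hH]
      refine ⟨?_, ?_, ?_, ?_⟩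
      · have e1 : h₀ + D * (w * x₁) + s' * (u : ℕ) - h₀ = D * (w * x₁) + s' * (u : ℕ) := by ring
        rw [e1]
        exact dvd_add (Dvd.intro _ rfl) h1
      · have e1 : h₀ + D * (w * x₁) + Y + s' * (u : ℕ) - h₀ = D * (w * x₁) + Y + s' * (u : ℕ) := by ring
        rw [e1]
        exact dvd_add (dvd_add (Dvd.intro _ rfl) hDY) h1
      · have e1 : h₁ - D * (w * x₂) + s' * (u : ℕ) - h₁ = s' * (u : ℕ) - D * (w * x₂) := by ring
        rw [e1]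
        exact dvd_sub h1 (Dvd.intro _ rfl)
      · have e1 : h₁ - D * (w * x₂) + Y + s' * (u : ℕ) - h₁ = Y + s' * (u : ℕ) - D * (w * x₂) := by ring
        rw [e1]
        exact dvd_sub (dvd_add hDY h1) (Dvd.intro _ rfl)) (by
      intro u hu v hv
      refine ⟨?_, ?_, ?_⟩
      · rw [hP0, hP1]
        intro h
        exact hne1 u hu v hv (by linear_combination -h)
      · rw [hP2, hP3]
        intro h
        exact hne1 u hu v hv (by linear_combination -h)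
      · intro β β' hβ hβ'
        have hβ1 : β = 0 ∨ β = 1 := by
          rcases β with ⟨β, hβ4⟩
          dsimp only at hβ
          interval_cases β
          · exact Or.inl rfl
          · exact Or.inr rfl
        have hβ2 : β' = 2 ∨ β' = 3 := by
          rcases β' with ⟨β', hβ4⟩
          dsimp only at hβ'
          interval_cases β'
          · exact Or.inl rfl
          · exact Or.inr rfl
        rcases hβ1 with rfl | rfl <;> rcases hβ2 with rfl | rfl <;> intro h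
        · rw [hP0, hP2] at h
          exact hne2 u hu v hv 0 0 le_rfl zero_le_one le_rfl zero_le_one (by linear_combination h - hyΛ)
        · rw [hP0, hP3] at h
          exact hne2 u hu v hv 0 1 le_rfl zero_le_one zero_le_one le_rfl (by linear_combination h - hyΛ)
        · rw [hP1, hP2] at h
          exact hne2 u hu v hv 1 0 zero_le_one le_rfl le_rfl zero_le_one (by linear_combination h - hyΛ)
        · rw [hP1, hP3] at h
          exact hne2 u hu v hv 1 1 zero_le_one le_rfl zero_le_one le_rfl (by linear_combination h - hyΛ))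
  obtain ⟨E, hE⟩ : ∃ E : Fin 4 → Fin 4 → ℕ → ℕ → Prop, E = fun β β' u v => (β = 0 → β' = 1 → TC 1 1 (P 0 u - P 1 v)) ∧
    (β = 2 → β' = 3 → TC 1 1 (P 2 u - P 3 v)) ∧ (β.val < 2 → 2 ≤ β'.val → TC a b (a * P β u - b * P β' v)) := ⟨_, rfl⟩
  obtain ⟨f, hf, hsum, hpair⟩ := hFC R (1 / 4 + 1 / 500000) E hR1 (by norm_num) (by
    refine le_trans (Nat.cast_le.2 (card_le_card ?_)) hcl
    intro ω hω
    rw [mem_filter] at hω ⊢
    refine ⟨hω.1, fun hJ => hω.2 ?_⟩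
    obtain ⟨J, hJ1, hJ2⟩ := hJ
    refine ⟨J, hJ1, fun x hx' y hy' _ => ?_⟩
    obtain ⟨h1, h2, h3⟩ := hJ2 x hx' y hy'
    rw [hE]
    refine ⟨fun e1 e2 => ?_, fun e1 e2 => ?_, h3⟩
    · have h4 := h1 e1 e2
      rw [e1, e2]
      exact h4
    · have h4 := h2 e1 e2
      rw [e1, e2]
      exact h4)
  have hM1 : ∀ β, ∑ u ∈ range R, f β u ≤ R := by
    intro β
    refine (sum_le_sum fun u _ => (hf β u).2).trans ?_
    rw [sum_const, card_range, nsmul_eq_mul, mul_one]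
  -- the two pairs of slope one
  have hloc1 : H1 (MAINZ_P (TC 1 1) Y₁ s') γ₁ ε₁ Q₁ l₁ ((1 + 1) * R) :=
    MAINZ_H1 (TC 1 1) (fun Y => (s : ℤ) ∣ Y - 0) s' Q₁ l₁ γ₁ (ε₁ / 8) ε₁ (by linarith) hl₁ _ Y₁ (fun w => by
      rw [sub_zero]
      exact dvd_add hVY (Dvd.dvd.mul_right hssz w))
  have hloc2 : H2Z (MAINZ_P (TC 1 1) Y₁ s') γ₁ ε₁ 1 1 R := by
    refine MAINZ_H2 (TC 1 1) s' 1 1 R γ₁ ε₁ ε₁ le_rfl Y₁ ?_
    have e1 : Y₁ - s' * (((1 : ℕ) : ℤ) * R) = Y₁ + s' * (-(R : ℤ)) := by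
      push_cast
      ring
    have e2 : (1 + 1) * R = 2 * R := by ring
    rw [e1, e2]
    refine hY₁c.trans (le_of_eq ?_)
    push_cast
    ring
  have hone : ∀ f₁ f₂ : ℕ → ℝ, (∀ u, 0 ≤ f₁ u ∧ f₁ u ≤ 1) → (∀ u, 0 ≤ f₂ u ∧ f₂ u ≤ 1) → H3Z (MAINZ_P (TC 1 1) Y₁ s') ε₁' 1 1 R f₁ f₂ →
      e * R ≤ ∑ u ∈ range R, f₁ u → e * R ≤ ∑ u ∈ range R, f₂ u → ∑ u ∈ range R, f₁ u + ∑ u ∈ range R, f₂ u ≤ (γ₁ + e) * R :=
    fun f₁ f₂ b1 b2 b3 => hL11 R (by omega) _ γ₁ hγ₁0 (by linarith) hloc1 hloc2 f₁ f₂ b1 b2 b3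
  -- the cross pairs
  have hcross : ∀ i j : ℕ, i < 2 → j < 2 → ∀ f₁ f₂ : ℕ → ℝ, (∀ u, 0 ≤ f₁ u ∧ f₁ u ≤ 1) → (∀ u, 0 ≤ f₂ u ∧ f₂ u ≤ 1) →
      H3Z (MAINZ_P (TC a b) (y + ((i : ℤ) * a - j * b) * Y) s') ε₂' a b R f₁ f₂ →
      e * R ≤ ∑ u ∈ range R, f₁ u → e * R ≤ ∑ u ∈ range R, f₂ u → ∑ u ∈ range R, f₁ u + ∑ u ∈ range R, f₂ u ≤ (γ + e) * R := by
    intro i j hi hj f₁ f₂ b1 b2 b3
    obtain ⟨hV, hyc⟩ := hy (((i : ℤ) * a - j * b) * k - b * R * r) (by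
      rw [hO, mem_image]
      exact ⟨(i, j), mem_product.2 ⟨mem_range.2 hi, mem_range.2 hj⟩, rfl⟩)
    have e1 : y + s * (((i : ℤ) * a - j * b) * k - b * R * r) = y + ((i : ℤ) * a - j * b) * Y - s' * (b * R) := by
      rw [hsk, hr]
      push_cast
      ring
    rw [e1] at hV hyc
    refine hLab R (by omega) _ γ hγ0 (by linarith) ?_ ?_ f₁ f₂ b1 b2 b3
    · refine MAINZ_H1 (TC a b) (fun Y => (D : ℤ) ∣ Y - c) s' Q₂ l₂ γ (ε₂ / 20) ε₂ (by linarith) hl₂ _ _ (fun w => ?_)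
      have e2 : y + ((i : ℤ) * a - j * b) * Y + s' * w - c = (y + ((i : ℤ) * a - j * b) * Y - s' * (b * R) - c) + s' * (b * R + w) := by ring
      rw [e2]
      exact dvd_add hV (Dvd.dvd.mul_right hDsz' _)
    · refine MAINZ_H2 (TC a b) s' a b R γ ε₂ ε₂ le_rfl _ ?_
      refine hyc.trans (le_of_eq ?_)
      push_cast
      ring
  refine MAINZ_num (fun β => ∑ u ∈ range R, f β u) R e δ γ γ₁ εF hR0 he8 he6 he hF3 hγd hγ₁d hM1 ?_ ?_ ?_ ?_ ?_ ?_ ?_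
  · have h1 := hsum
    rw [Fin.sum_univ_four] at h1
    push_cast at h1
    exact h1
  · refine hone (f 0) (f 1) (hf 0) (hf 1) (MAINZ_H3 (TC 1 1) s' 1 1 R Y₁ (f 0) (f 1) εF ε₁' hF1 (E 0 1) (fun u v => ?_) (hpair 0 1 (by decide)))
    have e1 : Y₁ + s' * (((1 : ℕ) : ℤ) * u - ((1 : ℕ) : ℤ) * v) = P 0 u - P 1 v := by
      rw [hP0, hP1, hYY]
      push_cast
      ring
    rw [e1, hE]
    exact ⟨fun h => h.1 rfl rfl, fun h => ⟨fun _ _ => h, fun h1 => absurd h1 (by decide), fun _ h2 => absurd h2 (by decide)⟩⟩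
  · refine hone (f 2) (f 3) (hf 2) (hf 3) (MAINZ_H3 (TC 1 1) s' 1 1 R Y₁ (f 2) (f 3) εF ε₁' hF1 (E 2 3) (fun u v => ?_) (hpair 2 3 (by decide)))
    have e1 : Y₁ + s' * (((1 : ℕ) : ℤ) * u - ((1 : ℕ) : ℤ) * v) = P 2 u - P 3 v := by
      rw [hP2, hP3, hYY]
      push_cast
      ring
    rw [e1, hE]
    exact ⟨fun h => h.2.1 rfl rfl, fun h => ⟨fun h1 => absurd h1 (by decide), fun _ _ => h, fun h1 => absurd h1 (by decide)⟩⟩
  · refine hcross 0 0 (by norm_num) (by norm_num) (f 0) (f 2) (hf 0) (hf 2) (MAINZ_H3 (TC a b) s' a b R _ (f 0) (f 2) εF ε₂' hF2 (E 0 2) (fun u v => ?_) (hpair 0 2 (by decide)))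
    have e1 : y + (((0 : ℕ) : ℤ) * a - ((0 : ℕ) : ℤ) * b) * Y + s' * ((a : ℤ) * u - b * v) = a * P 0 u - b * P 2 v := by
      rw [hP0, hP2, ← hyΛ]
      push_cast
      ring
    rw [e1, hE]
    exact ⟨fun h => h.2.2 (by decide) (by decide), fun h => ⟨fun _ h1 => absurd h1 (by decide), fun h1 => absurd h1 (by decide), fun _ _ => h⟩⟩
  · refine hcross 0 1 (by norm_num) (by norm_num) (f 0) (f 3) (hf 0) (hf 3) (MAINZ_H3 (TC a b) s' a b R _ (f 0) (f 3) εF ε₂' hF2 (E 0 3) (fun u v => ?_) (hpair 0 3 (by decide)))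
    have e1 : y + (((0 : ℕ) : ℤ) * a - ((1 : ℕ) : ℤ) * b) * Y + s' * ((a : ℤ) * u - b * v) = a * P 0 u - b * P 3 v := by
      rw [hP0, hP3, ← hyΛ]
      push_cast
      ring
    rw [e1, hE]
    exact ⟨fun h => h.2.2 (by decide) (by decide), fun h => ⟨fun _ h1 => absurd h1 (by decide), fun h1 => absurd h1 (by decide), fun _ _ => h⟩⟩
  · refine hcross 1 0 (by norm_num) (by norm_num) (f 1) (f 2) (hf 1) (hf 2) (MAINZ_H3 (TC a b) s' a b R _ (f 1) (f 2) εF ε₂' hF2 (E 1 2) (fun u v => ?_) (hpair 1 2 (by decide)))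
    have e1 : y + (((1 : ℕ) : ℤ) * a - ((0 : ℕ) : ℤ) * b) * Y + s' * ((a : ℤ) * u - b * v) = a * P 1 u - b * P 2 v := by
      rw [hP1, hP2, ← hyΛ]
      push_cast
      ring
    rw [e1, hE]
    exact ⟨fun h => h.2.2 (by decide) (by decide), fun h => ⟨fun h1 => absurd h1 (by decide), fun h1 => absurd h1 (by decide), fun _ _ => h⟩⟩
  · refine hcross 1 1 (by norm_num) (by norm_num) (f 1) (f 3) (hf 1) (hf 3) (MAINZ_H3 (TC a b) s' a b R _ (f 1) (f 3) εF ε₂' hF2 (E 1 3) (fun u v => ?_) (hpair 1 3 (by decide)))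
    have e1 : y + (((1 : ℕ) : ℤ) * a - ((1 : ℕ) : ℤ) * b) * Y + s' * ((a : ℤ) * u - b * v) = a * P 1 u - b * P 3 v := by
      rw [hP1, hP3, ← hyΛ]
      push_cast
      ring
    rw [e1, hE]
    exact ⟨fun h => h.2.2 (by decide) (by decide), fun h => ⟨fun h1 => absurd h1 (by decide), fun h1 => absurd h1 (by decide), fun _ _ => h⟩⟩

end Pool.Agent.HF
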