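import Pool.Agent.helper19.HF.SpecC

/-!
# Project HF (MP_bf63dc_nt, rows `hw:*`): FOUR INTEGERS

GOAL (THEOREM FH). Of any four different positive integers there are two, `s_i` and `s_j`, in lowest terms `a : b`, such that the true `c` for `(a, b)` have upper Banach density more than `1/2` in some progression: for some `q ≥ 1`, `r` and arbitrarily large `T` some `T` consecutive terms of `r + q ℤ` contain at least `(1/2 + 3/10^6) T`
true `c`. So for EVERY coprime `(a, b) ≠ (1, 1)` one of the pairs `(a, b), (a², b²), (a³, b³)` has this property (`a³, a² b, a b², b³`).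

PROOF. Suppose not: for every pair and every step `q` all long windows have density at most `γ = 1/2 + 3/10^6`. Four blocks of forms `s_β x + 1 + D u`, `u < R`. FC: functions with `∑ M_β ≥ 4 α - ε = 1 + 8/10^6 - ε`, almost complete. LRU (upper bounds only): `M_β + M_β' ≤ γ + e` if both are `≥ e`. If four of the `M` are `≥ e` then the sum is at most
`2 (γ + e) < 1 + 7/10^6`; if three: at most `(3/2) (γ + e) + e`; two: `γ + e + 2 e`; one: `1 + 3 e`: contradiction.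

RULES as in SpecA. Row `XX`: file `Pool/Agent/<seat>/HF/XX.lean`, `import Pool.Agent.helper19.HF.SpecE`, `namespace Pool.Agent.HF`.
-/

set_option autoImplicit false

namespace Pool.Agent.HF

open Finset Pool.Agent.AT Pool.Agent.IT

open Classical in
/-- all progressions of step `q ≤ Q` and length `≥ l₀` have density at most `γ` -/
def H1U (P : ℤ → Prop) (γ : ℝ) (Q l₀ : ℕ) : Prop := ∀ q : ℕ, 1 ≤ q → q ≤ Q → ∀ l : ℕ, l₀ ≤ l → ∀ w : ℤ, (#{x ∈ range l | P (w + q * (x : ℕ))} : ℝ) ≤ γ * l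

/-- **LRU** (short-medium; from APZ, LAZ; simplification of Pool/Agent/helper92/HF/LRZ.lean). `m = 2 (a + b) + 1`, `A = a + b`. `τ, κ, p₁` from LAZ for `e/4`; `t₀ = e/16`; `κ₂` with `4 m^3 A^2 κ₂/κ^2 ≤ τ e/32`, `ε₁` with `2 m ε₁/(κ t₀^2) ≤ τ e/32`; `Q` from APZ for `σ = e/4`, `κ₂`. Given `l₀`: `p`, `R₀` as in LRZ. Suppose
`∑ f + ∑ f' > (γ + e) R`; `S, S', l = γ + e/2, q, Ω, D_w` as in LRZ: for `w ∈ Ω` the set `D_w` has at least `(γ + e/4) p` elements, and the number of the pairs `(w, d)`, `w ∈ Ω`, `d ∈ D_w`, with `P (w + q d)` false is at most `p R (τ e/32 + τ e/32)` (the same proof). By H1U (`l = p ≥ l₀`) `#{d < p : P (w + q d)} ≤ γ p` for all `w ∈ Ω`, so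
`#Ω (γ + e/4) p - p R τ e/16 ≤ #Ω γ p`, `#Ω e/4 ≤ R τ e/16`: contradiction to `#Ω ≥ τ R`. -/
def LRU_stmt : Prop := ∀ a b : ℕ, 1 ≤ a → 1 ≤ b → ∀ e : ℝ, 0 < e → e ≤ 1 → ∃ (ε₁ : ℝ) (Q : ℕ), 0 < ε₁ ∧ 1 ≤ Q ∧ ∀ l₀ : ℕ, ∃ R₀ : ℕ, ∀ R : ℕ, R₀ ≤ R → ∀ (P : ℤ → Prop) (γ : ℝ), 0 ≤ γ → γ ≤ 1 - e →
  H1U P γ Q l₀ → ∀ f f' : ℕ → ℝ, (∀ u, 0 ≤ f u ∧ f u ≤ 1) → (∀ u, 0 ≤ f' u ∧ f' u ≤ 1) → H3Z P ε₁ a b R f f' →
  e * R ≤ ∑ u ∈ range R, f u → e * R ≤ ∑ u ∈ range R, f' u → ∑ u ∈ range R, f u + ∑ u ∈ range R, f' u ≤ (γ + e) * R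

open Classical in
/-- **CLF** (short-medium; simplification of Pool/Agent/helper63/HF/CLZ.lean). `k = 4 n`, `D = k! ∏ s β`, `L ≥ 1` with `C L^(-δ) ≤ η` (`C, δ` from `Qk k`). Forms `(s β, 1 + D u)`; all tuples are admissible: for `l ∣ D` take `x = 0` (all values are `1` modulo `l`), a prime `l ∤ D` is larger than `k` and does not divide the slopes. `Many` gives the set `J`,
PRT gives `Pair` for two forms of different blocks (they are different since `s` is injective). -/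
def CLF_stmt : Prop := (∀ k : ℕ, 1 ≤ k → Qk k) → ∀ s : Fin 4 → ℕ, (∀ β, 0 < s β) → Function.Injective s → ∀ (n : ℕ) (η : ℝ), 1 ≤ n → 0 < η → ∃ D L : ℕ, 1 ≤ D ∧ ∀ R : ℕ, L ≤ R →
  (#{ω : Om n 4 R | ¬ ∃ J : Finset (Fin n × Fin 4), (1 / 4 + 1 / 500000) * ((n : ℝ) * (4 : ℕ)) ≤ #J ∧
    ∀ x ∈ J, ∀ y ∈ J, x.2 ≠ y.2 → Pair (s x.2, 1 + (D : ℤ) * ((ω x.1 x.2 : Fin R) : ℕ)) (s y.2, 1 + (D : ℤ) * ((ω y.1 y.2 : Fin R) : ℕ))} : ℝ) ≤ η * (R : ℝ) ^ (n * 4)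

open Classical in
/-- upper Banach density at least `κ` in some progression -/
def UB (g : ℤ → Prop) (κ : ℝ) : Prop := ∃ (q : ℕ) (r : ℤ), 1 ≤ q ∧ ∀ T₀ : ℕ, ∃ T : ℕ, T₀ ≤ T ∧ ∃ u : ℤ, κ * T ≤ (#{t ∈ range T | g (r + q * (u + (t : ℕ)))} : ℝ)

/-- **MAINF** (short-medium; helper19). See the header. -/
def MAINF_stmt : Prop := FC_stmt → LRU_stmt → CLF_stmt → (∀ k : ℕ, 1 ≤ k → Qk k) → ∀ s : Fin 4 → ℕ, (∀ β, 0 < s β) → Function.Injective s →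
  ∃ i j : Fin 4, i ≠ j ∧ UB (TC (s j / Nat.gcd (s i) (s j)) (s i / Nat.gcd (s i) (s j))) (1 / 2 + 3 / 10 ^ 6)

end Pool.Agent.HF
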