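import Pool.Agent.helper19.HF.SpecA

/-!
# Project HF (MP_bf63dc_nt), uniform form: cliques in samples of blocks (adapted from Pool/Agent/helper95/HF/CLI.lean)
-/

set_option autoImplicit false

namespace Pool.Agent.HF

open Finset

open Classical in
/-- the hypothesis `Hyp` for given `k, η, D, L` -/
def HypA (g : ℕ → Prop) (α : ℝ) (k : ℕ) (η : ℝ) (D L : ℕ) : Prop := ∀ F : Fin k → Finset ℕ, (∀ i, ∀ x ∈ F i, D ∣ x) → (∀ i, L ≤ #(F i)) →
  (#{x ∈ Fintype.piFinset F | ¬ Clq g α x} : ℝ) ≤ η * ∏ i, (#(F i) : ℝ)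

open Classical in
theorem CLIU (g : ℕ → Prop) (α : ℝ) (n b : ℕ) (η : ℝ) (D L : ℕ) (H : HypA g α (n * b) η D L) (R : ℕ) (P : Fin b → ℕ → ℕ) (hLR : L ≤ R)
    (hmono : ∀ β u v, u < v → P β u < P β v) (hdvd : ∀ β u, D ∣ P β u) :
    (#{ω : Om n b R | ¬ ∃ J : Finset (Fin n × Fin b), α * (n * b) ≤ #J ∧
      ∀ x ∈ J, ∀ y ∈ J, x.2 ≠ y.2 → P x.2 (ω x.1 x.2) < P y.2 (ω y.1 y.2) → g (P y.2 (ω y.1 y.2) - P x.2 (ω x.1 x.2))} : ℝ) ≤ η * (R : ℝ) ^ (n * b) := by
  have hinj : ∀ β u v, P β u = P β v → u = v := by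
    intro β u v h
    rcases lt_trichotomy u v with h1 | h1 | h1
    · exact absurd h (hmono β u v h1).ne
    · exact h1
    · exact absurd h.symm (hmono β v u h1).ne
  let σ : Fin (n * b) ≃ Fin n × Fin b := finProdFinEquiv.symm
  let F : Fin (n * b) → Finset ℕ := fun i => (range R).image (P (σ i).2)
  have hF : ∀ i, #(F i) = R := by
    intro i
    rw [Finset.card_image_of_injective _ (fun u v h => hinj _ u v h), card_range]
  have h1 := H F (by
    intro i x hx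
    obtain ⟨u, -, rfl⟩ := Finset.mem_image.1 hx
    exact hdvd _ _) (fun i => by rw [hF]; exact hLR)
  let f : Om n b R → Fin (n * b) → ℕ := fun ω i => P (σ i).2 (ω (σ i).1 (σ i).2 : ℕ)
  have h2 : #{ω : Om n b R | ¬ ∃ J : Finset (Fin n × Fin b), α * (n * b) ≤ #J ∧
      ∀ x ∈ J, ∀ y ∈ J, x.2 ≠ y.2 → P x.2 (ω x.1 x.2) < P y.2 (ω y.1 y.2) → g (P y.2 (ω y.1 y.2) - P x.2 (ω x.1 x.2))} ≤
      #{x ∈ Fintype.piFinset F | ¬ Clq g α x} := by
    refine Finset.card_le_card_of_injOn f ?_ ?_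
    · intro ω hω
      have hω' := (Finset.mem_filter.1 (Finset.mem_coe.1 hω)).2
      refine Finset.mem_coe.2 (Finset.mem_filter.2 ⟨?_, ?_⟩)
      · rw [Fintype.mem_piFinset]
        intro i
        exact Finset.mem_image_of_mem _ (Finset.mem_range.2 (ω (σ i).1 (σ i).2).2)
      · rintro ⟨J, hJ1, hJ2⟩
        refine hω' ⟨J.map σ.toEmbedding, ?_, ?_⟩
        · rw [Finset.card_map]
          have h3 : ((n * b : ℕ) : ℝ) = (n : ℝ) * b := by push_cast; ring
          rw [h3] at hJ1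
          exact hJ1.le
        · intro x hx y hy _ hlt
          obtain ⟨i, hi, rfl⟩ := Finset.mem_map.1 hx
          obtain ⟨j, hj, rfl⟩ := Finset.mem_map.1 hy
          exact hJ2 i hi j hj hlt
    · intro ω _ ω' _ h
      funext a c
      have h3 := congrFun h (finProdFinEquiv (a, c))
      have h4 : σ (finProdFinEquiv (a, c)) = (a, c) := Equiv.symm_apply_apply _ _
      have h5 : P (σ (finProdFinEquiv (a, c))).2 (ω (σ (finProdFinEquiv (a, c))).1 (σ (finProdFinEquiv (a, c))).2 : ℕ) =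
        P (σ (finProdFinEquiv (a, c))).2 (ω' (σ (finProdFinEquiv (a, c))).1 (σ (finProdFinEquiv (a, c))).2 : ℕ) := h3
      rw [h4] at h5
      exact Fin.ext (hinj _ _ _ h5)
  have h3 : ∏ i : Fin (n * b), (#(F i) : ℝ) = (R : ℝ) ^ (n * b) := by
    rw [Finset.prod_congr rfl (fun i _ => by rw [hF i]), Finset.prod_const, Finset.card_univ, Fintype.card_fin]
  rw [h3] at h1
  exact (Nat.cast_le.2 h2).trans h1

end Pool.Agent.HF
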