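import Pool.Agent.helper19.HF.SpecB

/-!
# Project HF (MP_bf63dc_nt): the form of the conclusion
-/

set_option autoImplicit false

namespace Pool.Agent.HF

open Finset Pool.Agent.AT Pool.Agent.IT

/-- for all multiples `n` of some `n₀`: more than half of the multiples of `n` satisfy `P`, all large multiples are sums of two such multiples, and for every `h` a positive proportion of the pairs
`n k`, `n (k + h)` satisfy `P` -/
def Hlf (P : ℕ → Prop) : Prop := ∃ n₀ : ℕ, 1 ≤ n₀ ∧ ∀ n : ℕ, 1 ≤ n → n₀ ∣ n → ∃ M₀ : ℕ,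
  (∀ M : ℕ, M₀ ≤ M → ∀ u : ℕ, (1 / 2 + 3 / 10 ^ 6 : ℝ) * M ≤ ({k : ℕ | (u < k ∧ k ≤ u + M) ∧ P (n * k)}.ncard : ℝ)) ∧
  (∀ K : ℕ, M₀ ≤ K → ∃ k k' : ℕ, 1 ≤ k ∧ 1 ≤ k' ∧ k + k' = K ∧ P (n * k) ∧ P (n * k')) ∧
  ∀ M : ℕ, M₀ ≤ M → ∀ h u : ℕ, (6 / 10 ^ 6 : ℝ) * M ≤ ({k : ℕ | (u < k ∧ k ≤ u + M) ∧ P (n * k) ∧ P (n * (k + h))}.ncard : ℝ)

theorem hlf_of (hCOR : COR_stmt) (P : ℕ → Prop) (h : Cnc P (1 / 2 + 3 / 10 ^ 6)) : Hlf P := by
  classical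
  obtain ⟨n₀, hn₀, h⟩ := h
  refine ⟨n₀, hn₀, fun n hn hnn => ?_⟩
  obtain ⟨M₀, hM⟩ := h n hn hnn
  obtain ⟨⟨N₀, h1⟩, h2⟩ := hCOR (fun t => P (n * t)) (3 / 10 ^ 6) M₀ (by norm_num) (fun M hM' u => by
    refine (hM M hM' u).trans (le_of_eq ?_)
    refine congrArg (fun z : Finset ℕ => ((#z : ℕ) : ℝ)) ?_
    ext t
    simp only [mem_filter])
  refine ⟨max M₀ N₀, ?_, ?_, ?_⟩
  · intro M hM' u
    refine (hM M ((le_max_left _ _).trans hM') u).trans ?_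
    rw [← Set.ncard_coe_finset]
    refine Nat.cast_le.2 (Set.ncard_le_ncard ?_ ?_)
    · intro k hk
      rw [mem_coe, mem_filter, mem_Ioc] at hk
      exact hk
    · refine (finite_toSet (Ioc u (u + M))).subset ?_
      rintro k ⟨hk, -⟩
      rw [mem_coe, mem_Ioc]
      exact hk
  · intro K hK
    obtain ⟨t, t', ht, ht', h3, h4, h5⟩ := h1 K ((le_max_right _ _).trans hK)
    exact ⟨t, t', ht, ht', h3, h4, h5⟩
  · intro M hM' k u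
    have h3 := h2 k M ((le_max_left _ _).trans hM') u
    have e : (2 : ℝ) * (3 / 10 ^ 6) = 6 / 10 ^ 6 := by norm_num
    rw [e] at h3
    refine h3.trans ?_
    rw [← Set.ncard_coe_finset]
    refine Nat.cast_le.2 (Set.ncard_le_ncard ?_ ?_)
    · intro t ht
      rw [mem_coe, mem_filter, mem_Ioc] at ht
      exact ht
    · refine (finite_toSet (Ioc u (u + M))).subset ?_
      rintro t ⟨ht, -⟩
      rw [mem_coe, mem_Ioc]
      exact ht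

/-- monotone in `P` -/
theorem hlf_mono (P P' : ℕ → Prop) (hP : ∀ m, 1 ≤ m → P m → P' m) (h : Hlf P) : Hlf P' := by
  obtain ⟨n₀, hn₀, h⟩ := h
  refine ⟨n₀, hn₀, fun n hn hnn => ?_⟩
  obtain ⟨M₀, h1, h2, h3⟩ := h n hn hnn
  have hfin : ∀ (u M : ℕ) (Q : ℕ → Prop), ({k : ℕ | (u < k ∧ k ≤ u + M) ∧ Q k}).Finite := by
    intro u M Q
    refine (finite_toSet (Ioc u (u + M))).subset ?_
    rintro t ⟨ht, -⟩
    rw [mem_coe, mem_Ioc]
    exact ht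
  refine ⟨M₀, ?_, ?_, ?_⟩
  · intro M hM u
    refine (h1 M hM u).trans (Nat.cast_le.2 (Set.ncard_le_ncard ?_ (hfin _ _ _)))
    rintro k ⟨hk, hk2⟩
    exact ⟨hk, hP _ (Nat.mul_pos hn (by omega)) hk2⟩
  · intro K hK
    obtain ⟨k, k', hk, hk', h4, h5, h6⟩ := h2 K hK
    exact ⟨k, k', hk, hk', h4, hP _ (Nat.mul_pos hn hk) h5, hP _ (Nat.mul_pos hn hk') h6⟩
  · intro M hM t u
    refine (h3 M hM t u).trans (Nat.cast_le.2 (Set.ncard_le_ncard ?_ (hfin _ _ _)))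
    rintro k ⟨hk, hk2, hk3⟩
    exact ⟨hk, hP _ (Nat.mul_pos hn (by omega)) hk2, hP _ (Nat.mul_pos hn (by omega)) hk3⟩

/-- `P` on the even numbers -/
theorem hlf_two (P : ℕ → Prop) (h : Hlf (fun m => P (2 * m))) : Hlf P := by
  obtain ⟨n₀, hn₀, h⟩ := h
  refine ⟨2 * n₀, by omega, fun n hn hnn => ?_⟩
  obtain ⟨m, rfl⟩ := hnn
  have hm : 1 ≤ n₀ * m := by
    rcases Nat.eq_zero_or_pos (n₀ * m) with h0 | h0
    · rw [mul_assoc, h0] at hn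
      omega
    · exact h0
  obtain ⟨M₀, h1, h2, h3⟩ := h (n₀ * m) hm (Dvd.intro _ rfl)
  have e : ∀ k, 2 * (n₀ * m * k) = 2 * n₀ * m * k := fun k => by ring
  simp only [e] at h1 h2 h3
  exact ⟨M₀, h1, h2, h3⟩

end Pool.Agent.HF
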