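import Pool.Agent.helper19.HF.MAIN
import Pool.Agent.helper19.HF.Fin0
import Pool.Agent.helper43.HF.POL
import Pool.Agent.helper20.HF.PPS
import Pool.Agent.helper72.HF.APL
import Pool.Agent.helper72.HF.LRA
import Pool.Agent.helper67.HF.LLB
import Pool.Agent.helper15.HF.LRB
import Pool.Agent.helper18.HF.CND
import Pool.Agent.helper27.HF.BES
import Pool.Agent.helper27.HF.ENP
import Pool.Agent.helper13.HF.FCA
import Pool.Agent.helper33.HF.FCM
import Pool.Agent.helper3.HF.FCB
import Pool.Agent.helper92.HF.FEK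
import Pool.Agent.helper78.HF.EXT
import Pool.Agent.helper73.HF.GEN
import Pool.Agent.helper44.HF.NES
import Pool.Agent.helper95.HF.CLI
import Pool.Agent.helper34.HF.COR
import Pool.Agent.helper14.HF.ADK
import Pool.Agent.helper60.HF.ORBK
import Pool.Agent.helper38.AT.All

/-!
# Project HF (MP_bf63dc_nt): assembly
-/

set_option autoImplicit false

namespace Pool.Agent.HF

open Pool.Agent.AT Pool.Agent.IT

theorem FC_all : FC_stmt := FCB CND (ENP CND) (FCA CND BES) (FCM CND BES)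

theorem LRB_all : LRB_stmt := LRB APL (LRA (PPS POL))

/-- the abstract theorem -/
theorem half_abs (g : ℕ → Prop) (α δ : ℝ) (h0 : 0 ≤ α) (h1 : α ≤ 1 / 2) (hδ : 0 < δ) (h : Hyp g α) : Cnc g (2 * α - δ) :=
  MAIN FC_all LLB LRB_all FEK EXT GEN NES CLI g α δ h0 h1 hδ h

/-- **THEOREM HALF** -/
theorem half_all (a b : ℕ) (c : ℤ) (hAd : Ad a b c) : Hlf (It a b c) := by
  refine hlf_of COR _ ?_
  have h1 := half_abs (It a b c) (1 / 4 + 1 / 500000) (1 / 10 ^ 6) (by norm_num) (by norm_num) (by norm_num) (ORBK ADK Q_all a b c hAd)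
  have e : (2 : ℝ) * (1 / 4 + 1 / 500000) - 1 / 10 ^ 6 = 1 / 2 + 3 / 10 ^ 6 := by norm_num
  rw [e] at h1
  exact h1

end Pool.Agent.HF
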