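import Pool.Agent.helper19.HF.MAINF
import Pool.Agent.helper65.HF.CLF
import Pool.Agent.helper43.HF.POL
import Pool.Agent.helper18.HF.CND
import Pool.Agent.helper27.HF.BES
import Pool.Agent.helper27.HF.ENP
import Pool.Agent.helper13.HF.FCA
import Pool.Agent.helper33.HF.FCM
import Pool.Agent.helper3.HF.FCB
import Pool.Agent.helper90.HF.PPZ
import Pool.Agent.helper20.HF.APZ
import Pool.Agent.helper48.HF.LAZ
import Pool.Agent.helper76.DK.CLU
import Pool.Agent.helper38.AT.All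

/-!
# Project HF (MP_bf63dc_nt): four integers
-/

set_option autoImplicit false

namespace Pool.Agent.HF

open Finset Pool.Agent.AT Pool.Agent.IT

theorem four_integers (hLRU : LRU_stmt) (s : Fin 4 → ℕ) (hs : ∀ β, 0 < s β) (hinj : Function.Injective s) :
    ∃ i j : Fin 4, i ≠ j ∧ UB (TC (s j / Nat.gcd (s i) (s j)) (s i / Nat.gcd (s i) (s j))) (1 / 2 + 3 / 10 ^ 6) :=
  MAINF (FCB CND (ENP CND) (FCA CND BES) (FCM CND BES)) hLRU CLF Pool.Agent.AT.Q_all s hs hinj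

theorem UB_symm (a b : ℕ) (κ : ℝ) (h : UB (TC a b) κ) : UB (TC b a) κ := by
  classical
  obtain ⟨q, r, hq, h⟩ := h
  refine ⟨q, -r, hq, fun T₀ => ?_⟩
  obtain ⟨T, hT, u, hu⟩ := h T₀
  refine ⟨T, hT, -u - T + 1, hu.trans ?_⟩
  refine Nat.cast_le.2 (card_le_card_of_injOn (fun t => T - 1 - t) ?_ ?_)
  · intro t ht
    rw [mem_coe, mem_filter, mem_range] at ht
    rw [mem_coe, mem_filter, mem_range]
    dsimp only
    refine ⟨by omega, ?_⟩
    have h1 := Pool.Agent.DK.CLU_symm ht.2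
    have e : -r + (q : ℤ) * (-u - T + 1 + ((T - 1 - t : ℕ) : ℤ)) = -(r + q * (u + (t : ℕ))) := by
      have e1 : ((T - 1 - t : ℕ) : ℤ) = (T : ℤ) - 1 - t := by omega
      rw [e1]
      ring
    rw [e]
    exact h1
  · intro t ht t' ht' htt
    rw [mem_coe, mem_filter, mem_range] at ht ht'
    dsimp only at htt
    omega

/-- the four numbers `a³, a² b, a b², b³` -/
theorem three_powers (hLRU : LRU_stmt) (a b : ℕ) (ha : 1 ≤ a) (hb : 1 ≤ b) (hab : Nat.Coprime a b) (hne : a ≠ b) :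
    ∃ m : ℕ, 1 ≤ m ∧ m ≤ 3 ∧ UB (TC (a ^ m) (b ^ m)) (1 / 2 + 3 / 10 ^ 6) := by
  obtain ⟨s, hss⟩ : ∃ s : Fin 4 → ℕ, s = fun i => a ^ (3 - i.val) * b ^ i.val := ⟨_, rfl⟩
  have hs : ∀ i, s i = a ^ (3 - i.val) * b ^ i.val := fun i => by rw [hss]
  have hpos : ∀ i, 0 < s i := fun i => by
    rw [hs]
    exact Nat.mul_pos (Nat.pow_pos ha) (Nat.pow_pos hb)
  -- for i < j the gcd
  have hgcd : ∀ i j : Fin 4, i.val < j.val → Nat.gcd (s i) (s j) = a ^ (3 - j.val) * b ^ i.val ∧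
      s i = a ^ (j.val - i.val) * (a ^ (3 - j.val) * b ^ i.val) ∧ s j = b ^ (j.val - i.val) * (a ^ (3 - j.val) * b ^ i.val) := by
    intro i j hij
    have h1 : s i = a ^ (j.val - i.val) * (a ^ (3 - j.val) * b ^ i.val) := by
      rw [hs, ← mul_assoc, ← pow_add]
      congr 2
      omega
    have h2 : s j = b ^ (j.val - i.val) * (a ^ (3 - j.val) * b ^ i.val) := by
      have e1 : b ^ (j.val - i.val) * (a ^ (3 - j.val) * b ^ i.val) = a ^ (3 - j.val) * b ^ ((j.val - i.val) + i.val) := by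
        rw [pow_add]
        ring
      rw [hs, e1]
      congr 2
      omega
    refine ⟨?_, h1, h2⟩
    rw [h1, h2, Nat.gcd_mul_right]
    have h3 : Nat.gcd (a ^ (j.val - i.val)) (b ^ (j.val - i.val)) = 1 := Nat.Coprime.pow _ _ hab
    rw [h3, one_mul]
  have hlow : ∀ i j : Fin 4, i.val < j.val → s i / Nat.gcd (s i) (s j) = a ^ (j.val - i.val) ∧ s j / Nat.gcd (s i) (s j) = b ^ (j.val - i.val) := by
    intro i j hij
    obtain ⟨h1, h2, h3⟩ := hgcd i j hij
    have h4 : 0 < a ^ (3 - j.val) * b ^ i.val := Nat.mul_pos (Nat.pow_pos ha) (Nat.pow_pos hb)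
    constructor
    · rw [h1]
      exact Nat.div_eq_of_eq_mul_left h4 h2
    · rw [h1]
      exact Nat.div_eq_of_eq_mul_left h4 h3
  have hinj0 : ∀ i j : Fin 4, i.val < j.val → s i ≠ s j := by
    intro i j hij h
    obtain ⟨h1, h2, h3⟩ := hgcd i j hij
    have h4 : 0 < a ^ (3 - j.val) * b ^ i.val := Nat.mul_pos (Nat.pow_pos ha) (Nat.pow_pos hb)
    rw [h2, h3] at h
    have h5 := Nat.eq_of_mul_eq_mul_right h4 h
    exact hne (Nat.pow_left_injective (by omega : j.val - i.val ≠ 0) h5)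
  have hinj : Function.Injective s := by
    intro i j h
    by_contra hij
    rcases lt_or_gt_of_ne (fun h => hij (Fin.ext h) : i.val ≠ j.val) with h1 | h1
    · exact hinj0 i j h1 h
    · exact hinj0 j i h1 h.symm
  obtain ⟨i, j, hij, h⟩ := four_integers hLRU s hpos hinj
  rcases lt_or_gt_of_ne (fun h => hij (Fin.ext h) : i.val ≠ j.val) with h1 | h1
  · obtain ⟨e1, e2⟩ := hlow i j h1
    rw [e1, e2] at h
    exact ⟨j.val - i.val, by omega, by omega, UB_symm _ _ _ h⟩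
  · obtain ⟨e1, e2⟩ := hlow j i h1
    rw [Nat.gcd_comm, e1, e2] at h
    exact ⟨i.val - j.val, by omega, by omega, h⟩

end Pool.Agent.HF
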