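import Pool.Agent.helper19.HF.MAINY
import Pool.Agent.helper43.HF.POL
import Pool.Agent.helper18.HF.CND
import Pool.Agent.helper27.HF.BES
import Pool.Agent.helper90.HF.PPZ
import Pool.Agent.helper20.HF.APZ
import Pool.Agent.helper48.HF.LAZ
import Pool.Agent.helper92.HF.LRZ
import Pool.Agent.helper89.HF.FEZ
import Pool.Agent.helper67.HF.EXZ
import Pool.Agent.helper77.HF.GEZ
import Pool.Agent.helper66.HF.UNZ
import Pool.Agent.helper63.HF.SEY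
import Pool.Agent.helper76.HF.CLY
import Pool.Agent.helper76.HF.NoTC
import Pool.Agent.helper76.DK.ENP
import Pool.Agent.helper76.DK.FCA
import Pool.Agent.helper76.DK.FCM
import Pool.Agent.helper76.DK.FCB
import Pool.Agent.helper76.DI.Fin
import Pool.Agent.helper38.AT.All

/-!
# Project HF (MP_bf63dc_nt): half for all pairs, or power saving
-/

set_option autoImplicit false

namespace Pool.Agent.HF

open Finset Pool.Agent.AT Pool.Agent.IT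

open Classical in
theorem half_or_saving (hFINY : FINY_stmt) : (∃ m K : ℕ, 1 ≤ m ∧ 1 ≤ K ∧ Pool.Agent.AL.TCM m K ∧ Pool.Agent.AL.SparseM m K 1) ∨
    (∀ (a b : ℕ), 1 ≤ a → 1 ≤ b → Nat.Coprime a b → ∀ s : ℕ, 1 ≤ s → ∃ M₀ : ℕ, ∀ M : ℕ, M₀ ≤ M → ∀ y : ℤ,
      (1 / 2 + 3 / 10 ^ 6) * (#{t ∈ range M | Ad a b (y + s * (t : ℕ))} : ℝ) ≤ (#{t ∈ range M | TC a b (y + s * (t : ℕ))} : ℝ)) := by
  by_cases h : ∃ m K : ℕ, 1 ≤ m ∧ 1 ≤ K ∧ Pool.Agent.AL.TCM m K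
  · left
    obtain ⟨m, K, hm, hK, hT⟩ := h
    obtain ⟨C, hC, hS⟩ := (Pool.Agent.AL.MSP Pool.Agent.AL.KSB) m K hm hK
    obtain ⟨K', hK', hT', hS'⟩ := Pool.Agent.AL.MUN m K C hm hK hC hT (hS hT)
    exact ⟨m, K', hm, hK', hT', hS'⟩
  · right
    have hNo : NoTC := NoTC_of (fun m K hm hK hT => h ⟨m, K, hm, hK, hT⟩)
    have hFC : Pool.Agent.DK.FCP_stmt := Pool.Agent.DK.FCP CND (Pool.Agent.DK.ENP CND) (Pool.Agent.DK.FCA CND BES) (Pool.Agent.DK.FCM CND BES)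
    exact hFINY (MAINY hFC SEY (LRZ APZ (LAZ (PPZ POL))) FEZ EXZ GEZ UNZ CLY Pool.Agent.AT.Q_all hNo)

end Pool.Agent.HF
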