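import Pool.Agent.helper19.HF.SpecE
import Pool.Agent.helper19.HF.MAINZ

/-!
# Row hw:MAINF (MP_bf63dc_nt), spec Pool/Agent/helper19/HF/SpecE.lean
-/

set_option autoImplicit false

namespace Pool.Agent.HF

open Finset Pool.Agent.AT Pool.Agent.IT

theorem MAINF_num (M0 M1 M2 M3 : ℝ) (R e ε' : ℝ) (hR : 0 < R) (he : e = 1 / 10 ^ 7) (hF : ε' ≤ 1 / 10 ^ 7)
    (hsum : (1 / 4 + 1 / 500000 - ε') * (4 * R) ≤ M0 + M1 + M2 + M3) (g0 : M0 ≤ R) (g1 : M1 ≤ R) (g2 : M2 ≤ R) (g3 : M3 ≤ R)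
    (h01 : e * R ≤ M0 → e * R ≤ M1 → M0 + M1 ≤ (1 / 2 + 3 / 10 ^ 6 + e) * R) (h02 : e * R ≤ M0 → e * R ≤ M2 → M0 + M2 ≤ (1 / 2 + 3 / 10 ^ 6 + e) * R)
    (h03 : e * R ≤ M0 → e * R ≤ M3 → M0 + M3 ≤ (1 / 2 + 3 / 10 ^ 6 + e) * R) (h12 : e * R ≤ M1 → e * R ≤ M2 → M1 + M2 ≤ (1 / 2 + 3 / 10 ^ 6 + e) * R)
    (h13 : e * R ≤ M1 → e * R ≤ M3 → M1 + M3 ≤ (1 / 2 + 3 / 10 ^ 6 + e) * R) (h23 : e * R ≤ M2 → e * R ≤ M3 → M2 + M3 ≤ (1 / 2 + 3 / 10 ^ 6 + e) * R) : False := by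
  subst he
  have a3 : ε' * R ≤ 1 / 10 ^ 7 * R := mul_le_mul_of_nonneg_right hF hR.le
  rcases le_or_gt (1 / 10 ^ 7 * R) M0 with c0 | c0 <;> rcases le_or_gt (1 / 10 ^ 7 * R) M1 with c1 | c1 <;>
    rcases le_or_gt (1 / 10 ^ 7 * R) M2 with c2 | c2 <;> rcases le_or_gt (1 / 10 ^ 7 * R) M3 with c3 | c3
  · have h01' := h01 c0 c1
    have h02' := h02 c0 c2
    have h03' := h03 c0 c3
    have h12' := h12 c1 c2
    have h13' := h13 c1 c3
    have h23' := h23 c2 c3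
    linarith
  · have h01' := h01 c0 c1
    have h02' := h02 c0 c2
    have h12' := h12 c1 c2
    linarith
  · have h01' := h01 c0 c1
    have h03' := h03 c0 c3
    have h13' := h13 c1 c3
    linarith
  · have h01' := h01 c0 c1
    linarith
  · have h02' := h02 c0 c2
    have h03' := h03 c0 c3
    have h23' := h23 c2 c3
    linarith
  · have h02' := h02 c0 c2
    linarith
  · have h03' := h03 c0 c3
    linarith
  · linarith
  · have h12' := h12 c1 c2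
    have h13' := h13 c1 c3
    have h23' := h23 c2 c3
    linarith
  · have h12' := h12 c1 c2
    linarith
  · have h13' := h13 c1 c3
    linarith
  · linarith
  · have h23' := h23 c2 c3
    linarith
  · linarith
  · linarith
  · linarith

theorem MAINF_UB (g : ℤ → Prop) (κ : ℝ) (h : ¬ UB g κ) (q : ℕ) (hq : 1 ≤ q) : ∃ T₀ : ℕ, ∀ T : ℕ, T₀ ≤ T → ∀ y : ℤ,
    (cz g y q T : ℝ) ≤ κ * T := by
  classical
  have h1 : ∀ r : ℕ, ∃ T₀ : ℕ, ∀ T : ℕ, T₀ ≤ T → ∀ u : ℤ, (#{t ∈ range T | g ((r : ℤ) + q * (u + (t : ℕ)))} : ℝ) ≤ κ * T := by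
    intro r
    by_contra hcon
    push Not at hcon
    apply h
    refine ⟨q, r, hq, fun T₀ => ?_⟩
    obtain ⟨T, hT, u, hu⟩ := hcon T₀
    refine ⟨T, hT, u, hu.le.trans (le_of_eq ?_)⟩
    refine congrArg (fun z : Finset ℕ => ((#z : ℕ) : ℝ)) ?_
    ext t
    simp only [mem_filter]
  choose T₀ hT₀ using h1
  refine ⟨∑ r ∈ range q, T₀ r, fun T hT y => ?_⟩
  have hqz : (0 : ℤ) < q := by exact_mod_cast hq
  obtain ⟨r, hr⟩ := Int.eq_ofNat_of_zero_le (Int.emod_nonneg y hqz.ne')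
  have hrq : r < q := by
    have h2 := Int.emod_lt_of_pos y hqz
    rw [hr] at h2
    exact_mod_cast h2
  have h3 := hT₀ r T (le_trans (single_le_sum (f := T₀) (fun _ _ => Nat.zero_le _) (mem_range.2 hrq)) hT) (y / q)
  refine le_trans (le_of_eq ?_) h3
  unfold cz
  refine congrArg (fun z : Finset ℕ => ((#z : ℕ) : ℝ)) ?_
  ext t
  rw [mem_filter, mem_filter]
  have e : (r : ℤ) + q * (y / q + (t : ℕ)) = y + q * (t : ℕ) := by
    have h4 := Int.emod_add_mul_ediv y q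
    rw [hr] at h4
    have h5 : ((r : ℕ) : ℤ) = Int.ofNat r := rfl
    rw [h5]
    linear_combination h4
  rw [e]

theorem MAINF : MAINF_stmt := by
  classical
  intro hFC hLRU hCLF hQ s hs hinj
  by_contra hcon
  push Not at hcon
  obtain ⟨a, haa⟩ : ∃ a : Fin 4 → Fin 4 → ℕ, a = fun i j => s j / Nat.gcd (s i) (s j) := ⟨_, rfl⟩
  obtain ⟨b, hbb⟩ : ∃ b : Fin 4 → Fin 4 → ℕ, b = fun i j => s i / Nat.gcd (s i) (s j) := ⟨_, rfl⟩
  have hg : ∀ i j, 0 < Nat.gcd (s i) (s j) := fun i j => Nat.gcd_pos_of_pos_left _ (hs i)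
  have haj : ∀ i j, a i j * Nat.gcd (s i) (s j) = s j := fun i j => by rw [haa]; exact Nat.div_mul_cancel (Nat.gcd_dvd_right _ _)
  have hbi : ∀ i j, b i j * Nat.gcd (s i) (s j) = s i := fun i j => by rw [hbb]; exact Nat.div_mul_cancel (Nat.gcd_dvd_left _ _)
  have ha : ∀ i j, 1 ≤ a i j := fun i j => by
    rw [haa]
    exact Nat.div_pos (Nat.le_of_dvd (hs j) (Nat.gcd_dvd_right _ _)) (hg i j)
  have hb : ∀ i j, 1 ≤ b i j := fun i j => by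
    rw [hbb]
    exact Nat.div_pos (Nat.le_of_dvd (hs i) (Nat.gcd_dvd_left _ _)) (hg i j)
  have hno : ∀ i j : Fin 4, i ≠ j → ¬ UB (TC (a i j) (b i j)) (1 / 2 + 3 / 10 ^ 6) := by
    intro i j hij
    rw [haa, hbb]
    exact hcon i j hij
  obtain ⟨e, hee⟩ : ∃ e : ℝ, e = 1 / 10 ^ 7 := ⟨_, rfl⟩
  have he : 0 < e := by rw [hee]; positivity
  have he1 : e ≤ 1 := by rw [hee]; norm_num
  choose ε₁ Q hε₁ hQ1 hL using fun (i j : Fin 4) => hLRU (a i j) (b i j) (ha i j) (hb i j) e he he1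
  obtain ⟨p, -, hp⟩ := exists_min_image (univ : Finset (Fin 4 × Fin 4)) (fun p => ε₁ p.1 p.2) univ_nonempty
  obtain ⟨εF, hεF⟩ : ∃ εF : ℝ, εF = min (ε₁ p.1 p.2) (1 / 10 ^ 7) := ⟨_, rfl⟩
  have hF0 : 0 < εF := by rw [hεF]; exact lt_min (hε₁ _ _) (by positivity)
  have hF1 : ∀ i j, εF ≤ ε₁ i j := fun i j => by rw [hεF]; exact (min_le_left _ _).trans (hp (i, j) (mem_univ _))
  have hF2 : εF ≤ 1 / 10 ^ 7 := by rw [hεF]; exact min_le_right _ _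
  obtain ⟨n, η, hn, hη, hFC⟩ := hFC 4 εF (by norm_num) hF0 (by linarith [show (1 / 10 ^ 7 : ℝ) ≤ 1 by norm_num])
  obtain ⟨D, L, hD, hCLF⟩ := hCLF hQ s hs hinj n η hn hη
  have hl : ∀ i j : Fin 4, ∃ l₀ : ℕ, i ≠ j → ∀ q : ℕ, 1 ≤ q → q ≤ Q i j → ∀ T : ℕ, l₀ ≤ T → ∀ y : ℤ, (cz (TC (a i j) (b i j)) y (D * q) T : ℝ) ≤ (1 / 2 + 3 / 10 ^ 6) * T := by
    intro i j
    by_cases hij : i = j
    · exact ⟨0, fun h => absurd hij h⟩
    · obtain ⟨l₀, hl₀⟩ := MAIN_max_l (Q i j) (fun q l₀ => ∀ T : ℕ, l₀ ≤ T → ∀ y : ℤ, (cz (TC (a i j) (b i j)) y (D * q) T : ℝ) ≤ (1 / 2 + 3 / 10 ^ 6) * T)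
        (fun q l l' hll h m hm => h m (hll.trans hm)) (fun q hq => MAINF_UB _ _ (hno i j hij) (D * q) (Nat.mul_pos hD hq))
      exact ⟨l₀, fun _ => hl₀⟩
  choose l₀ hl₀ using hl
  choose R₀ hR₀ using fun (i j : Fin 4) => hL i j (l₀ i j)
  obtain ⟨R, hRR⟩ : ∃ R : ℕ, R = L + ∑ i, ∑ j, R₀ i j + 1 := ⟨_, rfl⟩
  have hR1 : 1 ≤ R := by omega
  have hRL : L ≤ R := by omega
  have hRij : ∀ i j, R₀ i j ≤ R := by
    intro i j
    have h1 : R₀ i j ≤ ∑ j, R₀ i j := single_le_sum (f := fun j => R₀ i j) (fun _ _ => Nat.zero_le _) (mem_univ j)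
    have h2 : ∑ j, R₀ i j ≤ ∑ i, ∑ j, R₀ i j := single_le_sum (f := fun i => ∑ j, R₀ i j) (fun _ _ => Nat.zero_le _) (mem_univ i)
    omega
  have hR0 : (0 : ℝ) < R := by exact_mod_cast hR1
  obtain ⟨E, hE⟩ : ∃ E : Fin 4 → Fin 4 → ℕ → ℕ → Prop, E = fun i j u v => Pair (s i, 1 + (D : ℤ) * (u : ℕ)) (s j, 1 + (D : ℤ) * (v : ℕ)) := ⟨_, rfl⟩
  obtain ⟨f, hf, hsum, hpair⟩ := hFC R (1 / 4 + 1 / 500000) E hR1 (by norm_num) (by
    refine le_trans (le_of_eq ?_) (hCLF R hRL)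
    refine congrArg (fun z : Finset (Om n 4 R) => ((#z : ℕ) : ℝ)) ?_
    ext ω
    rw [mem_filter, mem_filter, hE])
  have hEE : ∀ i j u v, E i j u v ↔ TC (a i j) (b i j) (((a i j : ℤ) - b i j) + D * ((a i j : ℤ) * u - b i j * v)) := by
    intro i j u v
    rw [hE]
    unfold TC Pair
    dsimp only
    have e1 : (((s j : ℕ) : ℤ) * (1 + D * (u : ℕ)) - (s i : ℕ) * (1 + D * (v : ℕ))) / (Nat.gcd (s i) (s j) : ℕ) = ((a i j : ℤ) - b i j) + D * ((a i j : ℤ) * u - b i j * v) := by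
      have h1 : ((s j : ℕ) : ℤ) = (a i j : ℤ) * (Nat.gcd (s i) (s j) : ℕ) := by exact_mod_cast (haj i j).symm
      have h2 : ((s i : ℕ) : ℤ) = (b i j : ℤ) * (Nat.gcd (s i) (s j) : ℕ) := by exact_mod_cast (hbi i j).symm
      have h3 : ((s j : ℕ) : ℤ) * (1 + D * (u : ℕ)) - (s i : ℕ) * (1 + D * (v : ℕ)) =
          (Nat.gcd (s i) (s j) : ℕ) * (((a i j : ℤ) - b i j) + D * ((a i j : ℤ) * u - b i j * v)) := by
        calc ((s j : ℕ) : ℤ) * (1 + D * (u : ℕ)) - (s i : ℕ) * (1 + D * (v : ℕ))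
            = ((a i j : ℤ) * (Nat.gcd (s i) (s j) : ℕ)) * (1 + D * (u : ℕ)) - ((b i j : ℤ) * (Nat.gcd (s i) (s j) : ℕ)) * (1 + D * (v : ℕ)) := by
              rw [← h1, ← h2]
          _ = _ := by ring
      rw [h3]
      exact Int.mul_ediv_cancel_left _ (by exact_mod_cast (hg i j).ne')
    have e2 : s j / Nat.gcd (s i) (s j) = a i j := by rw [haa]
    have e3 : s i / Nat.gcd (s i) (s j) = b i j := by rw [hbb]
    rw [e1, e2, e3]
  have key : ∀ i j : Fin 4, i ≠ j → e * R ≤ ∑ u ∈ range R, f i u → e * R ≤ ∑ u ∈ range R, f j u →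
      ∑ u ∈ range R, f i u + ∑ u ∈ range R, f j u ≤ (1 / 2 + 3 / 10 ^ 6 + e) * R := by
    intro i j hij h1 h2
    refine hR₀ i j R (hRij i j) (MAINZ_P (TC (a i j) (b i j)) ((a i j : ℤ) - b i j) D) (1 / 2 + 3 / 10 ^ 6) (by norm_num) (by rw [hee]; norm_num) ?_ (f i) (f j) (hf i) (hf j) ?_ h1 h2
    · intro q hq hqQ l hl w
      refine le_trans (le_of_eq ?_) (hl₀ i j hij q hq hqQ l hl (((a i j : ℤ) - b i j) + D * w))
      unfold cz
      refine congrArg (fun z : Finset ℕ => ((#z : ℕ) : ℝ)) ?_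
      ext t
      rw [mem_filter, mem_filter]
      unfold MAINZ_P
      have e1 : ((a i j : ℤ) - b i j) + D * (w + q * (t : ℕ)) = ((a i j : ℤ) - b i j) + D * w + ((D * q : ℕ) : ℤ) * (t : ℕ) := by
        push_cast
        ring
      rw [e1]
    · exact MAINZ_H3 (TC (a i j) (b i j)) D (a i j) (b i j) R _ (f i) (f j) εF (ε₁ i j) (hF1 i j) (E i j) (hEE i j) (hpair i j hij)
  have hM1 : ∀ β, ∑ u ∈ range R, f β u ≤ R := by
    intro β
    refine (sum_le_sum fun u _ => (hf β u).2).trans ?_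
    rw [sum_const, card_range, nsmul_eq_mul, mul_one]
  refine MAINF_num (∑ u ∈ range R, f 0 u) (∑ u ∈ range R, f 1 u) (∑ u ∈ range R, f 2 u) (∑ u ∈ range R, f 3 u) R e εF hR0 hee hF2 ?_ (hM1 0) (hM1 1) (hM1 2) (hM1 3)
    (key 0 1 (by decide)) (key 0 2 (by decide)) (key 0 3 (by decide)) (key 1 2 (by decide)) (key 1 3 (by decide)) (key 2 3 (by decide))
  have h1 := hsum
  rw [Fin.sum_univ_four] at h1
  push_cast at h1
  exact h1

end Pool.Agent.HF
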