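import Pool.Agent.helper19.HF.MAIN
import Pool.Agent.helper19.HF.CLIU

/-!
# Project HF (MP_bf63dc_nt), uniform form (idea of helper99): one good member in every long chain of moduli, with constants depending only on `α` and `δ`
-/

set_option autoImplicit false

namespace Pool.Agent.HF

open Finset

/-- the conclusion of EXT for one member of a long chain (with FEK; proved in Pool/Agent/helper99/HF/EXTU.lean) -/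
def EXTU_stmt : Prop := ∀ (g : ℕ → Prop) (D Q K : ℕ) (ε : ℝ), 1 ≤ D → 0 < ε → 1 < K * ε → ∀ s : ℕ → ℕ, (∀ i, 1 ≤ s i) → (∀ i, D ∣ s i) →
  (∀ i q, i < K → 1 ≤ q → q ≤ Q → s i * q ∣ s (i + 1)) → ∃ i, i < K ∧ ∃ γ : ℝ, 0 ≤ γ ∧ γ ≤ 1 ∧
    (∀ l : ℕ, ∃ Y, D ∣ Y ∧ (cw g Y (s i) l : ℝ) ≤ (γ + ε) * l) ∧
    ∀ q : ℕ, 1 ≤ q → q ≤ Q → ∃ l₀ : ℕ, ∀ l : ℕ, l₀ ≤ l → ∀ Y, D ∣ Y → (γ - ε) * l ≤ cw g Y (s i * q) l

theorem MAINU_max_l (Q : ℕ) (A : ℕ → ℕ → Prop) (hA : ∀ q l l', l ≤ l' → A q l → A q l') (h : ∀ q : ℕ, 1 ≤ q → q ≤ Q → ∃ l, A q l) :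
    ∃ l₀, ∀ q : ℕ, 1 ≤ q → q ≤ Q → A q l₀ := by
  obtain ⟨l₀, hl₀⟩ := MAIN_max_l Q (fun q l => q ≤ Q → A q l) (fun q l l' hll h hq => hA q l l' hll (h hq)) (fun q hq => by
    by_cases h1 : q ≤ Q
    · obtain ⟨l, hl⟩ := h q hq h1
      exact ⟨l, fun _ => hl⟩
    · exact ⟨0, fun h2 => absurd h2 h1⟩)
  exact ⟨l₀, fun q h1 h2 => hl₀ q h1 h2 h2⟩

open Classical in
theorem MAINU (hFC : FC_stmt) (hLLB : LLB_stmt) (hLRB : LRB_stmt) (hFEK : FEK_stmt) (hEXT : EXTU_stmt) (hGEN : GEN_stmt) (hNES : NES_stmt)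
    (α δ : ℝ) (hα0 : 0 ≤ α) (hα : α ≤ 1 / 2) (hδ : 0 < δ) (hδ1 : δ ≤ 1) :
    ∃ (k : ℕ) (η : ℝ) (Q K : ℕ), 1 ≤ k ∧ 0 < η ∧ 1 ≤ Q ∧ ∀ (g : ℕ → Prop) (D L : ℕ), 1 ≤ D → HypA g α k η D L →
      ∀ s : ℕ → ℕ, (∀ i, 1 ≤ s i) → (∀ i, D ∣ s i) → (∀ i q, i < K → 1 ≤ q → q ≤ Q → s i * q ∣ s (i + 1)) →
      ∃ i, i < K ∧ ∃ l₀ : ℕ, ∀ l : ℕ, l₀ ≤ l → ∀ u : ℕ, (2 * α - δ) * l ≤ (#{t ∈ Ioc u (u + l) | g (s i * t)} : ℝ) := by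
  obtain ⟨e, hee⟩ : ∃ e : ℝ, e = δ / 8 := ⟨_, rfl⟩
  have he : 0 < e := by rw [hee]; positivity
  have he1 : e ≤ 1 := by rw [hee]; linarith
  obtain ⟨ε₁, ε₁', Q, hε₁, hε₁', hQ, hLRB⟩ := hLRB e he he1
  obtain ⟨ε₂, ε₂', hε₂, hε₂', hLLB⟩ := hLLB e he he1
  obtain ⟨k₂, hk₂⟩ := exists_nat_ge (8 / δ)
  have hk0 : (0 : ℝ) < k₂ := lt_of_lt_of_le (by positivity) hk₂
  have hk1 : 1 ≤ k₂ := by
    have h1 : 0 < k₂ := by exact_mod_cast hk0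
    omega
  have hk3 : 1 / (k₂ : ℝ) ≤ e := by
    rw [hee, div_le_iff₀ hk0]
    rw [div_le_iff₀ hδ] at hk₂
    linarith
  obtain ⟨εF, hεF⟩ : ∃ εF : ℝ, εF = min (min ε₁' ε₂') (δ / 16) := ⟨_, rfl⟩
  have hF0 : 0 < εF := by rw [hεF]; exact lt_min (lt_min hε₁' hε₂') (by positivity)
  have hF1 : εF ≤ ε₁' := by rw [hεF]; exact (min_le_left _ _).trans (min_le_left _ _)
  have hF2 : εF ≤ ε₂' := by rw [hεF]; exact (min_le_left _ _).trans (min_le_right _ _)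
  have hF3 : εF ≤ δ / 16 := by rw [hεF]; exact min_le_right _ _
  obtain ⟨n, η, hn, hη, hFC⟩ := hFC (k₂ + k₂) εF (by omega) hF0 (by linarith)
  obtain ⟨N, hN⟩ : ∃ N : ℕ, N = k₂ * k₂ := ⟨_, rfl⟩
  have hN0 : (0 : ℝ) ≤ N := Nat.cast_nonneg _
  obtain ⟨εX, hεX⟩ : ∃ εX : ℝ, εX = min (min ε₁ ε₂) e / (4 * (N + 1)) := ⟨_, rfl⟩
  have hX0 : 0 < εX := by rw [hεX]; exact div_pos (lt_min (lt_min hε₁ hε₂) he) (by positivity)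
  have hXm : 4 * (N + 1) * εX = min (min ε₁ ε₂) e := by
    rw [hεX]
    field_simp
  have hX1 : 4 * (N + 1) * εX ≤ ε₁ := by rw [hXm]; exact (min_le_left _ _).trans (min_le_left _ _)
  have hX2 : 4 * (N + 1) * εX ≤ ε₂ := by rw [hXm]; exact (min_le_left _ _).trans (min_le_right _ _)
  have hX3 : εX ≤ e := by
    have h1 : 4 * (N + 1) * εX ≤ e := by rw [hXm]; exact min_le_right _ _
    nlinarith
  obtain ⟨K, hK⟩ := exists_nat_gt (1 / εX)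
  have hK1 : 1 < K * εX := by
    rw [div_lt_iff₀ hX0] at hK
    exact hK
  refine ⟨n * (k₂ + k₂), η, Q, K, Nat.mul_pos hn (by omega), hη, hQ, ?_⟩
  intro g D L hD hHyp sq hsq1 hsqD hsqQ
  by_contra hbad
  obtain ⟨i₀, hi₀, γ, hγ0, hγ1, hE1, hE2⟩ := hEXT g D Q K εX hD hX0 hK1 sq hsq1 hsqD hsqQ
  obtain ⟨s, hss⟩ : ∃ s : ℕ, s = sq i₀ := ⟨_, rfl⟩
  rw [← hss] at hE1 hE2
  have hs : 1 ≤ s := by rw [hss]; exact hsq1 _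
  have hDs : D ∣ s := by rw [hss]; exact hsqD _
  have hBs : ¬ ∃ l₀ : ℕ, ∀ l : ℕ, l₀ ≤ l → ∀ u : ℕ, (2 * α - δ) * l ≤ (#{t ∈ Ioc u (u + l) | g (s * t)} : ℝ) := by
    intro h
    apply hbad
    refine ⟨i₀, hi₀, ?_⟩
    rw [← hss]
    exact h
  obtain ⟨l₀, hl₀⟩ := MAINU_max_l Q (fun q l₀ => ∀ l : ℕ, l₀ ≤ l → ∀ Y, D ∣ Y → (γ - εX) * l ≤ cw g Y (s * q) l)
    (fun q l l' hll h m hm => h m (hll.trans hm)) hE2
  obtain ⟨γ₂, hγ₂0, hγ₂1, hF1', hF2'⟩ := hFEK g (fun Y => s ∣ Y) s ⟨0, dvd_zero _⟩ (fun Y hY => (Nat.dvd_add_right hY).2 (dvd_refl s))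
  obtain ⟨l₁, hl₁⟩ := hF2' εX hX0
  have hγ₂ : γ₂ ≤ 2 * α - δ := MAIN_bad g s (2 * α - δ) γ₂ hBs hF2'
  have hγγ : γ - εX ≤ γ₂ := by
    obtain ⟨l₂, hl₂⟩ := hE2 1 le_rfl hQ
    obtain ⟨Y, hY, hY2⟩ := hF1' (l₂ + 1)
    have h1 := hl₂ (l₂ + 1) (by omega) Y (hDs.trans hY)
    rw [mul_one] at h1
    have h2 : (0 : ℝ) < ((l₂ + 1 : ℕ) : ℝ) := by positivity
    exact le_of_mul_le_mul_right (h1.trans hY2) h2
  obtain ⟨R₁, hLRB⟩ := hLRB l₀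
  obtain ⟨R₂, hLLB⟩ := hLLB l₁
  obtain ⟨R, hRR⟩ : ∃ R : ℕ, R = R₁ + R₂ + L + l₀ + l₁ + 1 := ⟨_, rfl⟩
  obtain ⟨Z, hZs, hZ⟩ := hNES hGEN g s N l₁ γ₂ εX hs hX0 hγ₂0 hγ₂1 (fun l => by
    obtain ⟨Y, hY, hY2⟩ := hF1' l
    exact ⟨Y, hY, hY2.trans (mul_le_mul_of_nonneg_right (by linarith) (Nat.cast_nonneg _))⟩) hl₁ R (by omega) (by omega)
  obtain ⟨O, hO⟩ : ∃ O : Finset ℤ, O = (range k₂ ×ˢ range k₂).image (fun z => ((Z z.2 : ℤ) - Z z.1) / s) := ⟨_, rfl⟩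
  have hOc : #O ≤ N := by
    rw [hO, hN]
    refine card_image_le.trans ?_
    rw [card_product, card_range]
  have hQ0 : ∀ l : ℕ, l₀ ≤ l → ∀ Y, D ∣ Y → (γ - εX) * l ≤ cw g Y s l := by
    intro l hl Y hY
    have h1 := hl₀ 1 le_rfl hQ l hl Y hY
    rw [mul_one] at h1
    exact h1
  obtain ⟨Y, hDY, hBY, hYO⟩ := hGEN g (fun Y => D ∣ Y) s N l₀ γ εX hs (fun Y hY => (Nat.dvd_add_right hY).2 hDs) hX0 hγ0 hγ1 hE1 hQ0 R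
    (by omega) (by omega) O hOc (∑ i ∈ range k₂, Z i + s * R)
  obtain ⟨P, hP⟩ : ∃ P : Fin (k₂ + k₂) → ℕ → ℕ, P = Fin.addCases (fun i u => Z i + s * u) (fun i u => Y + Z i + s * u) := ⟨_, rfl⟩
  have hP1 : ∀ i u, P (Fin.castAdd k₂ i) u = Z i + s * u := fun i u => by
    rw [hP]
    simp only [Fin.addCases_left]
  have hP2 : ∀ i u, P (Fin.natAdd k₂ i) u = Y + Z i + s * u := fun i u => by
    rw [hP]
    simp only [Fin.addCases_right]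
  have hcl := CLIU g α n (k₂ + k₂) η D L hHyp R P (by omega) (by
    intro β u v huv
    have h1 : s * u < s * v := Nat.mul_lt_mul_of_pos_left huv hs
    refine Fin.addCases (fun i => ?_) (fun i => ?_) β
    · rw [hP1, hP1]
      omega
    · rw [hP2, hP2]
      omega) (by
    intro β u
    have h1 : D ∣ s * u := Dvd.dvd.mul_right hDs u
    refine Fin.addCases (fun i => ?_) (fun i => ?_) β
    · rw [hP1]
      exact (Nat.dvd_add_right (hDs.trans (hZs _))).2 h1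
    · rw [hP2]
      exact (Nat.dvd_add_right ((Nat.dvd_add_right hDY).2 (hDs.trans (hZs _)))).2 h1)
  obtain ⟨E, hE⟩ : ∃ E : Fin (k₂ + k₂) → Fin (k₂ + k₂) → ℕ → ℕ → Prop, E = fun β β' u v => (P β u < P β' v → g (P β' v - P β u)) := ⟨_, rfl⟩
  obtain ⟨a, ha, hsum, hpair⟩ := hFC R α E (by omega) hα0 (by
    refine le_trans (le_of_eq ?_) hcl
    refine congrArg (fun z : Finset (Om n (k₂ + k₂) R) => ((#z : ℕ) : ℝ)) ?_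
    ext ω
    rw [mem_filter, mem_filter, hE])
  refine MAIN_core g s R k₂ α εF e ε₁ ε₂ ε₁' ε₂' εX γ γ₂ Q l₀ l₁ N Y D Z a P hk1 hs (by omega) hDs hDY hZs hP1 hP2
    (by linarith) hγ0 hγ₂0 hγ₂1 he hF1 hF2 hX1 hX2 hX0 (hLLB R (by omega)) (hLRB R (by omega)) hl₀ hl₁ ?_ ?_ ?_ ha hsum E (fun β β' u v => by rw [hE]) hpair
    (by linarith) (by linarith)
  · intro i j hij hj
    refine hZ i j hij (lt_of_lt_of_le hj ?_)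
    rw [hN]
    nlinarith
  · intro i hi
    refine le_trans (Nat.add_le_add_right ?_ _) hBY
    exact single_le_sum (f := Z) (fun _ _ => Nat.zero_le _) (mem_range.2 hi)
  · intro i hi j hj
    obtain ⟨Y', hY', hYe, hYc⟩ := hYO (((Z j : ℤ) - Z i) / s) (by
      rw [hO, mem_image]
      exact ⟨(i, j), mem_product.2 ⟨mem_range.2 hi, mem_range.2 hj⟩, rfl⟩)
    refine ⟨Y', hY', ?_, hYc⟩
    have h1 : (s : ℤ) ∣ (Z j : ℤ) - Z i := dvd_sub (by exact_mod_cast hZs j) (by exact_mod_cast hZs i)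
    rw [Int.mul_ediv_cancel' h1] at hYe
    have h2 : ((Y' + s * R + Z i : ℕ) : ℤ) = ((Y + Z j : ℕ) : ℤ) := by
      push_cast
      linarith
    exact_mod_cast h2

end Pool.Agent.HF
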