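import Pool.Agent.helper19.HF.SpecD
import Pool.Agent.helper19.HF.MAINZ

/-!
# Row hy:MAINY (MP_bf63dc_nt), spec Pool/Agent/helper19/HF/SpecD.lean
-/

set_option autoImplicit false

namespace Pool.Agent.HF

open Finset Pool.Agent.AT Pool.Agent.IT

theorem MAINY_num (M0 M1 M2 M3 : ℝ) (R e δ γ ε' : ℝ) (hR : 0 < R) (he8 : e ≤ δ / 8) (he6 : e ≤ 1 / 10 ^ 6) (he : 0 < e)
    (hF : ε' ≤ e / 4) (hγ : γ ≤ 2 * (1 / 4 + 1 / 500000) - δ)
    (hsum : (1 / 4 + 1 / 500000 - ε') * (4 * R) ≤ M0 + M1 + M2 + M3)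
    (h01 : M0 + M1 ≤ R) (h23 : M2 + M3 ≤ R)
    (h02 : e * R ≤ M0 → e * R ≤ M2 → M0 + M2 ≤ (γ + e) * R) (h03 : e * R ≤ M0 → e * R ≤ M3 → M0 + M3 ≤ (γ + e) * R)
    (h12 : e * R ≤ M1 → e * R ≤ M2 → M1 + M2 ≤ (γ + e) * R) (h13 : e * R ≤ M1 → e * R ≤ M3 → M1 + M3 ≤ (γ + e) * R) : False := by
  have a1 : e * R ≤ δ / 8 * R := mul_le_mul_of_nonneg_right he8 hR.le
  have a2 : e * R ≤ 1 / 10 ^ 6 * R := mul_le_mul_of_nonneg_right he6 hR.le
  have a3 : ε' * R ≤ e / 4 * R := mul_le_mul_of_nonneg_right hF hR.le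
  have a4 : γ * R ≤ (2 * (1 / 4 + 1 / 500000) - δ) * R := mul_le_mul_of_nonneg_right hγ hR.le
  have a6 : 0 < e * R := mul_pos he hR
  rcases le_or_gt (e * R) M0 with c0 | c0 <;> rcases le_or_gt (e * R) M1 with c1 | c1 <;>
    rcases le_or_gt (e * R) M2 with c2 | c2 <;> rcases le_or_gt (e * R) M3 with c3 | c3
  · have := h02 c0 c2
    have := h13 c1 c3
    linarith
  · have := h02 c0 c2
    have := h12 c1 c2
    linarith
  · have := h03 c0 c3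
    have := h13 c1 c3
    linarith
  · linarith
  · have := h02 c0 c2
    have := h03 c0 c3
    linarith
  · have := h02 c0 c2
    linarith
  · have := h03 c0 c3
    linarith
  · linarith
  · have := h12 c1 c2
    have := h13 c1 c3
    linarith
  · have := h12 c1 c2
    linarith
  · have := h13 c1 c3
    linarith
  · linarith
  · linarith
  · linarith
  · linarith
  · linarith

theorem MAINY_pt (K u i j : ℕ) (hi : i < K) (hj : j < K) :
    (u * (K * K) + i * K + j) / (K * K) = u ∧ (u * (K * K) + i * K + j) / K % K = i ∧ (u * (K * K) + i * K + j) % K = j := by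
  have hK : 0 < K := by omega
  have e1 : i * K + j < K * K := by
    have h1 : (i + 1) * K ≤ K * K := Nat.mul_le_mul_right K hi
    have h2 : (i + 1) * K = i * K + K := by ring
    omega
  refine ⟨?_, ?_, ?_⟩
  · have e2 : u * (K * K) + i * K + j = (i * K + j) + K * K * u := by ring
    rw [e2, Nat.add_mul_div_left _ _ (Nat.mul_pos hK hK), Nat.div_eq_of_lt e1, zero_add]
  · have e2 : u * (K * K) + i * K + j = j + K * (u * K + i) := by ring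
    rw [e2, Nat.add_mul_div_left _ _ hK, Nat.div_eq_of_lt hj, zero_add, add_comm, Nat.add_mul_mod_self_right, Nat.mod_eq_of_lt hi]
  · have e2 : u * (K * K) + i * K + j = j + (u * K + i) * K := by ring
    rw [e2, Nat.add_mul_mod_self_right, Nat.mod_eq_of_lt hj]

theorem MAINY_f0 (P : Fin 2 → ℕ → ℤ) (x y : ℕ → ℤ) (K p : ℕ) : fmY P x y K 0 p = P 0 (p / (K * K)) + x (p / K % K) := by
  unfold fmY
  rw [if_pos (by decide)]
  rfl

theorem MAINY_f1 (P : Fin 2 → ℕ → ℤ) (x y : ℕ → ℤ) (K p : ℕ) : fmY P x y K 1 p = P 0 (p / (K * K)) + y (p % K) := by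
  unfold fmY
  rw [if_neg (by decide)]
  rfl

theorem MAINY_f2 (P : Fin 2 → ℕ → ℤ) (x y : ℕ → ℤ) (K p : ℕ) : fmY P x y K 2 p = P 1 (p / (K * K)) + x (p / K % K) := by
  unfold fmY
  rw [if_pos (by decide)]
  rfl

theorem MAINY_f3 (P : Fin 2 → ℕ → ℤ) (x y : ℕ → ℤ) (K p : ℕ) : fmY P x y K 3 p = P 1 (p / (K * K)) + y (p % K) := by
  unfold fmY
  rw [if_neg (by decide)]
  rfl

theorem MAINY : MAINY_stmt := by
  classical
  intro hFC hSEY hLRZ hFEZ hEXZ hGEZ hUNZ hCLY hQ hNo a b ha hb hab δ hδ hδ4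
  obtain ⟨e, hee⟩ : ∃ e : ℝ, e = min (δ / 8) (1 / 10 ^ 6) := ⟨_, rfl⟩
  have he : 0 < e := by rw [hee]; exact lt_min (by positivity) (by positivity)
  have he8 : e ≤ δ / 8 := by rw [hee]; exact min_le_left _ _
  have he6 : e ≤ 1 / 10 ^ 6 := by rw [hee]; exact min_le_right _ _
  have he1 : e ≤ 1 := by linarith
  obtain ⟨ε₂, ε₂', Q₂, hε₂, hε₂', hQ₂, hLab⟩ := hLRZ a b ha hb e he he1
  obtain ⟨ε', hε'⟩ : ∃ ε' : ℝ, ε' = min ε₂' (e / 4) := ⟨_, rfl⟩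
  have h'0 : 0 < ε' := by rw [hε']; exact lt_min hε₂' (by positivity)
  have h'1 : ε' ≤ ε₂' := by rw [hε']; exact min_le_left _ _
  have h'2 : ε' ≤ e / 4 := by rw [hε']; exact min_le_right _ _
  have h'3 : ε' ≤ 1 := by linarith
  obtain ⟨εF, hεF⟩ : ∃ εF : ℝ, εF = ε' ^ 2 / 8 := ⟨_, rfl⟩
  have hF0 : 0 < εF := by rw [hεF]; positivity
  have hF1 : εF ≤ 1 := by rw [hεF]; nlinarith
  obtain ⟨n, η, hn, hη, hFC⟩ := hFC 4 2 sg εF (by norm_num) hF0 hF1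
  obtain ⟨D, K, hD, hK, hCLY⟩ := hCLY hQ a b ha hb hab n η hn hη
  refine ⟨D, hD, fun c hc hlow => ?_⟩
  obtain ⟨h₀, h₁, hh, hc0, hc1⟩ := hUNZ a b D c hD hc
  obtain ⟨N, hN⟩ : ∃ N : ℕ, N = (2 * K) * (2 * K) := ⟨_, rfl⟩
  obtain ⟨εX, hεX⟩ : ∃ εX : ℝ, εX = ε₂ / (4 * (N + 1)) := ⟨_, rfl⟩
  have hX0 : 0 < εX := by rw [hεX]; positivity
  have hXm : 4 * (N + 1) * εX = ε₂ := by
    rw [hεX]
    field_simp
  have hX1 : εX ≤ ε₂ := by
    have h1 : (0 : ℝ) ≤ N := Nat.cast_nonneg _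
    rw [← hXm]
    nlinarith
  obtain ⟨s, γ, hs, hDs, hγ0, hγ1, hγd, hE1, hE2⟩ := hEXZ hFEZ (TC a b) D c (2 * (1 / 4 + 1 / 500000) - δ) εX hD hlow hX0
  obtain ⟨x, y, hxy1, hxy2, hxy3⟩ := hNo s K hs hK
  obtain ⟨l₂, hl₂⟩ := MAIN_max_l Q₂ (fun q l₀ => ∀ l : ℕ, l₀ ≤ l → ∀ Y : ℤ, (D : ℤ) ∣ Y - c → (γ - εX) * l ≤ cz (TC a b) Y (s * q) l)
    (fun q l l' hll h m hm => h m (hll.trans hm)) hE2
  obtain ⟨R₂, hLab⟩ := hLab l₂
  obtain ⟨R, hRR⟩ : ∃ R : ℕ, R = R₂ + l₂ + 1 := ⟨_, rfl⟩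
  have hR1 : 1 ≤ R := by omega
  have hR0 : (0 : ℝ) < R := by exact_mod_cast hR1
  have hDsz : (D : ℤ) ∣ s := by exact_mod_cast hDs
  have hsz : (0 : ℤ) < s := by exact_mod_cast hs
  -- the shifts
  obtain ⟨zz, hzz⟩ : ∃ zz : ℕ → ℤ, zz = fun t => if t < K then x t else y (t - K) := ⟨_, rfl⟩
  have hzx : ∀ i < K, zz i = x i := fun i hi => by rw [hzz]; exact if_pos hi
  have hzy : ∀ i < K, zz (K + i) = y i := fun i hi => by
    rw [hzz]
    dsimp only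
    rw [if_neg (by omega)]
    congr 1
    omega
  have hzs : ∀ t < 2 * K, (s : ℤ) ∣ zz t := by
    intro t ht
    rcases Nat.lt_or_ge t K with h | h
    · rw [hzx t h]
      exact (hxy1 t h).1
    · obtain ⟨i, rfl⟩ := Nat.exists_eq_add_of_le h
      rw [hzy i (by omega)]
      exact (hxy1 i (by omega)).2
  obtain ⟨O, hO⟩ : ∃ O : Finset ℤ, O = (range (2 * K) ×ˢ range (2 * K)).image (fun z : ℕ × ℕ => (a : ℤ) * (zz z.1 / s) - b * (zz z.2 / s) - b * R) := ⟨_, rfl⟩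
  have hOc : #O ≤ N := by
    rw [hO, hN]
    exact card_image_le.trans (by rw [card_product, card_range])
  obtain ⟨Z, hZ⟩ : ∃ Z : ℕ, Z = ∑ t ∈ range (2 * K), (zz t).natAbs := ⟨_, rfl⟩
  have hZt : ∀ t < 2 * K, |zz t| ≤ Z := by
    intro t ht
    rw [hZ, Int.abs_eq_natAbs]
    exact_mod_cast single_le_sum (f := fun t => (zz t).natAbs) (fun _ _ => Nat.zero_le _) (mem_range.2 ht)
  obtain ⟨y₀, hVy, hBy, hy₀⟩ := hGEZ (TC a b) (fun Y => (D : ℤ) ∣ Y - c) s s N l₂ γ εX hs hs (dvd_refl _)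
    (fun Y hY => by
      have h1 : Y + s - c = (Y - c) + s := by ring
      rw [h1]
      exact dvd_add hY hDsz) hX0 hγ0 hγ1 hE1 (fun l hl Y hY => by
      have h1 := hl₂ 1 le_rfl hQ₂ l hl Y hY
      rw [mul_one] at h1
      exact h1) ((a + b) * R) (Nat.mul_pos (by omega) hR1) (by nlinarith) O hOc ((a + b) * Z + s * ((a + b) * R) + 1)
  obtain ⟨x₁, x₂, hx⟩ : IsCoprime (a : ℤ) (b : ℤ) := Nat.isCoprime_iff_coprime.2 hab
  obtain ⟨w, hw⟩ := hVy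
  obtain ⟨Λ, hΛ⟩ : ∃ Λ : ℤ, Λ = h₀ + D * (w * x₁) := ⟨_, rfl⟩
  obtain ⟨H, hH⟩ : ∃ H : ℤ, H = h₁ - D * (w * x₂) := ⟨_, rfl⟩
  have hyΛ : (a : ℤ) * Λ - b * H = y₀ := by
    rw [hΛ, hH]
    linear_combination hh - hw + D * w * hx
  obtain ⟨P, hP⟩ : ∃ P : Fin 2 → ℕ → ℤ, P = fun t u => (![Λ, H] : Fin 2 → ℤ) t + s * (u : ℕ) := ⟨_, rfl⟩
  have hP0 : ∀ u : ℕ, P 0 u = Λ + s * (u : ℕ) := fun u => by rw [hP]; rfl
  have hP1 : ∀ u : ℕ, P 1 u = H + s * (u : ℕ) := fun u => by rw [hP]; rfl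
  -- the constant term of the form of a point
  have hfm0 : ∀ β : Fin 4, β.val < 2 → ∀ p : ℕ, ∃ t < 2 * K, fmY P x y K β p = Λ + s * ((p / (K * K) : ℕ) : ℤ) + zz t := by
    intro β hβ p
    have hKp : 0 < K := hK
    have hβ1 : β = 0 ∨ β = 1 := by
      rcases β with ⟨β, hβ4⟩
      dsimp only at hβ
      interval_cases β
      · exact Or.inl rfl
      · exact Or.inr rfl
    rcases hβ1 with rfl | rfl
    · refine ⟨p / K % K, by have := Nat.mod_lt (p / K) hKp; omega, ?_⟩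
      rw [hzx _ (Nat.mod_lt _ hKp), ← hP0, MAINY_f0]
    · refine ⟨K + p % K, by have := Nat.mod_lt p hKp; omega, ?_⟩
      rw [hzy _ (Nat.mod_lt _ hKp), ← hP0, MAINY_f1]
  have hfm1 : ∀ β : Fin 4, 2 ≤ β.val → ∀ p : ℕ, ∃ t < 2 * K, fmY P x y K β p = H + s * ((p / (K * K) : ℕ) : ℤ) + zz t := by
    intro β hβ p
    have hKp : 0 < K := hK
    have hβ1 : β = 2 ∨ β = 3 := by
      rcases β with ⟨β, hβ4⟩
      dsimp only at hβ
      interval_cases β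
      · exact Or.inl rfl
      · exact Or.inr rfl
    rcases hβ1 with rfl | rfl
    · refine ⟨p / K % K, by have := Nat.mod_lt (p / K) hKp; omega, ?_⟩
      rw [hzx _ (Nat.mod_lt _ hKp), ← hP1, MAINY_f2]
    · refine ⟨K + p % K, by have := Nat.mod_lt p hKp; omega, ?_⟩
      rw [hzy _ (Nat.mod_lt _ hKp), ← hP1, MAINY_f3]
  have ha0 : (0 : ℤ) ≤ a := Int.natCast_nonneg _
  have hb0 : (0 : ℤ) ≤ b := Int.natCast_nonneg _
  have hne : ∀ β β' : Fin 4, β.val < 2 → 2 ≤ β'.val → ∀ p < R * (K * K), ∀ q < R * (K * K), (a : ℤ) * fmY P x y K β p ≠ b * fmY P x y K β' q := by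
    intro β β' hβ hβ' p hp q hq h
    obtain ⟨t, ht, e1⟩ := hfm0 β hβ p
    obtain ⟨t', ht', e2⟩ := hfm1 β' hβ' q
    rw [e1, e2] at h
    have hu : p / (K * K) ≤ R := (Nat.div_lt_of_lt_mul (by rw [mul_comm]; exact hp)).le
    have hv : q / (K * K) ≤ R := (Nat.div_lt_of_lt_mul (by rw [mul_comm]; exact hq)).le
    have hu' : ((p / (K * K) : ℕ) : ℤ) ≤ R := by exact_mod_cast hu
    have hv' : ((q / (K * K) : ℕ) : ℤ) ≤ R := by exact_mod_cast hv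
    have hu0 : (0 : ℤ) ≤ ((p / (K * K) : ℕ) : ℤ) := Int.natCast_nonneg _
    have hv0 : (0 : ℤ) ≤ ((q / (K * K) : ℕ) : ℤ) := Int.natCast_nonneg _
    have h1 : y₀ = -((a * zz t - b * zz t') + s * ((a : ℤ) * ((p / (K * K) : ℕ) : ℤ) - b * ((q / (K * K) : ℕ) : ℤ))) := by
      linear_combination h - hyΛ
    have h2 : |y₀| ≤ |a * zz t - b * zz t'| + |s * ((a : ℤ) * ((p / (K * K) : ℕ) : ℤ) - b * ((q / (K * K) : ℕ) : ℤ))| := by
      rw [h1, abs_neg]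
      exact abs_add_le _ _
    have h3 : |a * zz t - b * zz t'| ≤ (a + b) * Z := by
      have i1 := abs_le.1 (hZt t ht)
      have i2 := abs_le.1 (hZt t' ht')
      have j1 : (a : ℤ) * zz t ≤ a * Z := mul_le_mul_of_nonneg_left i1.2 ha0
      have j2 : (b : ℤ) * zz t' ≤ b * Z := mul_le_mul_of_nonneg_left i2.2 hb0
      have j3 : (a : ℤ) * (-(Z : ℤ)) ≤ a * zz t := mul_le_mul_of_nonneg_left i1.1 ha0
      have j4 : (b : ℤ) * (-(Z : ℤ)) ≤ b * zz t' := mul_le_mul_of_nonneg_left i2.1 hb0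
      rw [abs_le]
      constructor <;> linarith
    have h4 : |(a : ℤ) * ((p / (K * K) : ℕ) : ℤ) - b * ((q / (K * K) : ℕ) : ℤ)| ≤ (a + b) * R := by
      have j1 : (a : ℤ) * ((p / (K * K) : ℕ) : ℤ) ≤ a * R := mul_le_mul_of_nonneg_left hu' ha0
      have j2 : (b : ℤ) * ((q / (K * K) : ℕ) : ℤ) ≤ b * R := mul_le_mul_of_nonneg_left hv' hb0
      have j3 : (0 : ℤ) ≤ a * ((p / (K * K) : ℕ) : ℤ) := mul_nonneg ha0 hu0
      have j4 : (0 : ℤ) ≤ b * ((q / (K * K) : ℕ) : ℤ) := mul_nonneg hb0 hv0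
      have j5 : (0 : ℤ) ≤ a * R := le_trans j3 j1
      have j6 : (0 : ℤ) ≤ b * R := le_trans j4 j2
      rw [abs_le]
      constructor <;> linarith
    have h6 : |s * ((a : ℤ) * ((p / (K * K) : ℕ) : ℤ) - b * ((q / (K * K) : ℕ) : ℤ))| ≤ s * ((a + b) * R) := by
      rw [abs_mul, abs_of_pos hsz]
      exact mul_le_mul_of_nonneg_left h4 hsz.le
    push_cast at hBy
    linarith
  have hcl := hCLY h₀ h₁ hc0 hc1 R P x y hR1 (by
      intro u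
      have h1 : (D : ℤ) ∣ s * (u : ℕ) := Dvd.dvd.mul_right hDsz _
      rw [hP0, hP1, hΛ, hH]
      refine ⟨?_, ?_⟩
      · have e1 : h₀ + D * (w * x₁) + s * (u : ℕ) - h₀ = D * (w * x₁) + s * (u : ℕ) := by ring
        rw [e1]
        exact dvd_add (Dvd.intro _ rfl) h1
      · have e1 : h₁ - D * (w * x₂) + s * (u : ℕ) - h₁ = s * (u : ℕ) - D * (w * x₂) := by ring
        rw [e1]
        exact dvd_sub h1 (Dvd.intro _ rfl)) (fun i hi => ⟨hDsz.trans (hxy1 i hi).1, hDsz.trans (hxy1 i hi).2⟩) hxy2 hxy3 hne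
  obtain ⟨E, hE⟩ : ∃ E : Fin 4 → Fin 4 → ℕ → ℕ → Prop, E = fun β β' p q => (β.val < 2 → 2 ≤ β'.val → TC a b (a * fmY P x y K β p - b * fmY P x y K β' q)) := ⟨_, rfl⟩
  have hRK : 1 ≤ R * (K * K) := Nat.mul_pos hR1 (Nat.mul_pos hK hK)
  obtain ⟨f, hf, hsum, hpair, hone⟩ := hFC (R * (K * K)) (1 / 4 + 1 / 500000) E hRK (by norm_num) (by
    refine le_trans (Nat.cast_le.2 (card_le_card ?_)) hcl
    intro ω hω
    rw [mem_filter] at hω ⊢
    refine ⟨hω.1, fun hJ => hω.2 ?_⟩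
    obtain ⟨J, hJ1, hJ2, hJ3⟩ := hJ
    refine ⟨J, hJ1, fun z hz w hw _ => ?_, hJ2⟩
    rw [hE]
    exact hJ3 z hz w hw)
  obtain ⟨i, j, i', j', hi, hj, hi', hj', hS1, hS2⟩ := hSEY R K (1 / 4 + 1 / 500000) εF ε' f E hR1 hK h'0 (by linarith) h'3 (le_of_eq hεF) hf
    (by
      refine le_trans (le_of_eq ?_) hsum
      push_cast
      ring) (fun β β' hβ hβ' => hpair β β' (by
      revert β β'
      decide))
  -- the cross pairs
  have hcross : ∀ t t' : ℕ, t < 2 * K → t' < 2 * K → ∀ f₁ f₂ : ℕ → ℝ, (∀ u, 0 ≤ f₁ u ∧ f₁ u ≤ 1) → (∀ u, 0 ≤ f₂ u ∧ f₂ u ≤ 1) →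
      H3Z (MAINZ_P (TC a b) (y₀ + (a * zz t - b * zz t')) s) ε₂' a b R f₁ f₂ →
      e * R ≤ ∑ u ∈ range R, f₁ u → e * R ≤ ∑ u ∈ range R, f₂ u → ∑ u ∈ range R, f₁ u + ∑ u ∈ range R, f₂ u ≤ (γ + e) * R := by
    intro t t' ht ht' f₁ f₂ b1 b2 b3
    obtain ⟨hV, hyc⟩ := hy₀ ((a : ℤ) * (zz t / s) - b * (zz t' / s) - b * R) (by
      rw [hO, mem_image]
      exact ⟨(t, t'), mem_product.2 ⟨mem_range.2 ht, mem_range.2 ht'⟩, rfl⟩)
    have e1 : y₀ + s * ((a : ℤ) * (zz t / s) - b * (zz t' / s) - b * R) = y₀ + (a * zz t - b * zz t') - s * (b * R) := by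
      have q1 : (s : ℤ) * (zz t / s) = zz t := Int.mul_ediv_cancel' (hzs t ht)
      have q2 : (s : ℤ) * (zz t' / s) = zz t' := Int.mul_ediv_cancel' (hzs t' ht')
      linear_combination (a : ℤ) * q1 - b * q2
    rw [e1] at hV hyc
    refine hLab R (by omega) _ γ hγ0 (by linarith) ?_ ?_ f₁ f₂ b1 b2 b3
    · refine MAINZ_H1 (TC a b) (fun Y => (D : ℤ) ∣ Y - c) s Q₂ l₂ γ εX ε₂ hX1 hl₂ _ _ (fun w => ?_)
      have e2 : y₀ + (a * zz t - b * zz t') + s * w - c = (y₀ + (a * zz t - b * zz t') - s * (b * R) - c) + s * (b * R + w) := by ring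
      rw [e2]
      exact dvd_add hV (Dvd.dvd.mul_right hDsz _)
    · refine MAINZ_H2 (TC a b) s a b R γ ε₂ ε₂ le_rfl _ ?_
      rw [hXm] at hyc
      refine hyc.trans (le_of_eq ?_)
      push_cast
      ring
  have hpt : ∀ u i j : ℕ, i < K → j < K → (u * (K * K) + i * K + j) / (K * K) = u ∧ (u * (K * K) + i * K + j) / K % K = i ∧ (u * (K * K) + i * K + j) % K = j :=
    fun u i j hi hj => MAINY_pt K u i j hi hj
  have hv0 : ∀ u : ℕ, fmY P x y K 0 (u * (K * K) + i * K + j) = Λ + s * (u : ℕ) + zz i := by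
    intro u
    obtain ⟨p1, p2, p3⟩ := hpt u i j hi hj
    rw [MAINY_f0, p1, p2, hP0, hzx i hi]
  have hv1 : ∀ u : ℕ, fmY P x y K 1 (u * (K * K) + i * K + j) = Λ + s * (u : ℕ) + zz (K + j) := by
    intro u
    obtain ⟨p1, p2, p3⟩ := hpt u i j hi hj
    rw [MAINY_f1, p1, p3, hP0, hzy j hj]
  have hv2 : ∀ u : ℕ, fmY P x y K 2 (u * (K * K) + i' * K + j') = H + s * (u : ℕ) + zz i' := by
    intro u
    obtain ⟨p1, p2, p3⟩ := hpt u i' j' hi' hj'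
    rw [MAINY_f2, p1, p2, hP1, hzx i' hi']
  have hv3 : ∀ u : ℕ, fmY P x y K 3 (u * (K * K) + i' * K + j') = H + s * (u : ℕ) + zz (K + j') := by
    intro u
    obtain ⟨p1, p2, p3⟩ := hpt u i' j' hi' hj'
    rw [MAINY_f3, p1, p3, hP1, hzy j' hj']
  have hH3 : ∀ (β β' : Fin 4) (t t' : ℕ), β.val < 2 → 2 ≤ β'.val → (∀ u : ℕ, fmY P x y K β (u * (K * K) + i * K + j) = Λ + s * (u : ℕ) + zz t) →
      (∀ u : ℕ, fmY P x y K β' (u * (K * K) + i' * K + j') = H + s * (u : ℕ) + zz t') →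
      H3Z (MAINZ_P (TC a b) (y₀ + (a * zz t - b * zz t')) s) ε₂' a b R (fun u => f β (u * (K * K) + i * K + j)) (fun u => f β' (u * (K * K) + i' * K + j')) := by
    intro β β' t t' hβ hβ' e1 e2
    refine MAINZ_H3 (TC a b) s a b R _ _ _ ε' ε₂' h'1 (fun u v => E β β' (u * (K * K) + i * K + j) (v * (K * K) + i' * K + j')) (fun u v => ?_) (hS2 β β' hβ hβ')
    have e3 : y₀ + (a * zz t - b * zz t') + s * ((a : ℤ) * u - b * v) = a * fmY P x y K β (u * (K * K) + i * K + j) - b * fmY P x y K β' (v * (K * K) + i' * K + j') := by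
      rw [e1, e2, ← hyΛ]
      ring
    rw [e3, hE]
    exact ⟨fun h => h hβ hβ', fun h _ _ => h⟩
  have hle : ∀ g₁ g₂ : ℕ → ℝ, (∀ u, g₁ u + g₂ u ≤ 1) → ∑ u ∈ range R, g₁ u + ∑ u ∈ range R, g₂ u ≤ R := by
    intro g₁ g₂ hg
    rw [← sum_add_distrib]
    refine (sum_le_sum fun u _ => hg u).trans ?_
    rw [sum_const, card_range, nsmul_eq_mul, mul_one]
  refine MAINY_num (∑ u ∈ range R, f 0 (u * (K * K) + i * K + j)) (∑ u ∈ range R, f 1 (u * (K * K) + i * K + j))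
    (∑ u ∈ range R, f 2 (u * (K * K) + i' * K + j')) (∑ u ∈ range R, f 3 (u * (K * K) + i' * K + j')) R e δ γ ε' hR0 he8 he6 he h'2 hγd ?_ ?_ ?_ ?_ ?_ ?_ ?_
  · refine hS1.trans (le_of_eq ?_)
    rw [sum_add_distrib, sum_add_distrib, sum_add_distrib]
  · exact hle _ _ fun u => hone 0 1 _ (by decide) (by decide)
  · exact hle _ _ fun u => hone 2 3 _ (by decide) (by decide)
  · exact hcross i i' (by omega) (by omega) _ _ (fun u => hf 0 _) (fun u => hf 2 _) (hH3 0 2 i i' (by decide) (by decide) hv0 hv2)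
  · exact hcross i (K + j') (by omega) (by omega) _ _ (fun u => hf 0 _) (fun u => hf 3 _) (hH3 0 3 i (K + j') (by decide) (by decide) hv0 hv3)
  · exact hcross (K + j) i' (by omega) (by omega) _ _ (fun u => hf 1 _) (fun u => hf 2 _) (hH3 1 2 (K + j) i' (by decide) (by decide) hv1 hv2)
  · exact hcross (K + j) (K + j') (by omega) (by omega) _ _ (fun u => hf 1 _) (fun u => hf 3 _) (hH3 1 3 (K + j) (K + j') (by decide) (by decide) hv1 hv3)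

end Pool.Agent.HF
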