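import Pool.Agent.helper60.HF.ORBK
import Pool.Agent.helper19.HF.CLIU

/-!
# Project HF (MP_bf63dc_nt), uniform form: the hypothesis for all cases at once (adapted from Pool/Agent/helper60/HF/ORBK.lean)
-/

set_option autoImplicit false

namespace Pool.Agent.HF

open Finset Pool.Agent.AT Pool.Agent.IT

theorem ORBKU (h : ADK_stmt) (hQ : ∀ k : ℕ, 1 ≤ k → Qk k) (k : ℕ) (η : ℝ) (hk : 1 ≤ k) (hη : 0 < η) : ∃ D L : ℕ, 1 ≤ D ∧ ∀ (a b : ℕ) (c : ℤ), Ad a b c →
    HypA (It a b c) (1 / 4 + 1 / 500000) k η D L := by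
  classical
  obtain ⟨C, δ, hC, hδ, -, hQ⟩ := hQ k hk
  obtain ⟨L, hL1, hL⟩ : ∃ L : ℕ, 1 ≤ L ∧ C * (L : ℝ) ^ (-δ) ≤ η := by
    have h1 : Filter.Tendsto (fun L : ℕ => C * (L : ℝ) ^ (-δ)) Filter.atTop (nhds (C * 0)) :=
      ((tendsto_rpow_neg_atTop hδ).comp tendsto_natCast_atTop_atTop).const_mul C
    rw [mul_zero] at h1
    obtain ⟨L, h2, h3⟩ := ((h1.eventually (gt_mem_nhds hη)).and
      (Filter.eventually_ge_atTop 1)).exists
    exact ⟨L, h3, h2.le⟩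
  refine ⟨(Nat.factorial k) ^ 2, L, Nat.one_le_iff_ne_zero.2 (pow_ne_zero _ (Nat.factorial_ne_zero k)), ?_⟩
  intro a b c hAd F hF hFL
  have hAd' := hAd
  obtain ⟨ha, hb, hc, hab, hac, hbc, hpar⟩ := hAd'
  obtain ⟨E, hE⟩ : ∃ E : ℕ, ∀ i, ∀ x ∈ F i, x ≤ E := by
    refine ⟨∑ i, ∑ x ∈ F i, x, fun i x hx => ?_⟩
    have h1 : x ≤ ∑ x ∈ F i, x := single_le_sum (f := fun x : ℕ => x) (fun _ _ => Nat.zero_le _) hx
    have h2 : ∑ x ∈ F i, x ≤ ∑ i, ∑ x ∈ F i, x := single_le_sum (f := fun i => ∑ x ∈ F i, x) (fun _ _ => Nat.zero_le _) (mem_univ i)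
    exact h1.trans h2
  obtain ⟨w, hw⟩ := ORB a b E c ha hb hab
  obtain ⟨g, hg⟩ : ∃ g : ℕ → ℕ × ℤ, g = fun e => (a ^ (E - e) * b ^ e, w e) := ⟨_, rfl⟩
  have hpos : ∀ e, 0 < (g e).1 := by
    intro e
    rw [hg]
    positivity
  have hne : ∀ e e', e < e' → e' ≤ E → g e ≠ g e' := by
    intro e e' he he'
    have h1 := ORBK_np a b E c w ha hb hc hw e e' he he'
    intro h0
    rw [hg] at h0
    have e1 := congrArg Prod.fst h0
    have e2 := congrArg Prod.snd h0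
    simp only at e1 e2
    apply h1
    rw [e1, e2]
    ring
  have hinj : ∀ e ≤ E, ∀ e' ≤ E, g e = g e' → e = e' := by
    intro e he e' he' h0
    by_contra h1
    rcases lt_or_gt_of_ne h1 with h2 | h2
    · exact hne e e' h2 he' h0
    · exact hne e' e h2 he h0.symm
  have hcard : ∀ i, #((F i).image g) = #(F i) := fun i =>
    card_image_of_injOn fun e he e' he' => hinj e (hE i e he) e' (hE i e' he')
  have hmain := hQ (fun i => (F i).image g) L hL1 (fun i => by rw [hcard]; exact hFL i) (by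
    intro i f hf
    obtain ⟨e, -, rfl⟩ := mem_image.1 hf
    exact hpos e)
  simp only [hcard] at hmain
  have hle : #{x ∈ Fintype.piFinset F | ¬ Clq (It a b c) (1 / 4 + 1 / 500000) x} ≤
      #{f ∈ Fintype.piFinset (fun i => (F i).image g) | Adm f ∧ ¬ Many f} := by
    refine card_le_card_of_injOn (fun x => g ∘ x) ?_ ?_
    · intro x hx
      rw [mem_coe, mem_filter, Fintype.mem_piFinset] at hx
      rw [mem_coe, mem_filter, Fintype.mem_piFinset]
      have hA : Adm (g ∘ x) := by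
        have h1 := h k a b E c x w hAd hw (fun i => hE i _ (hx.1 i)) (fun i => hF i _ (hx.1 i))
        rw [hg]
        exact h1
      refine ⟨fun i => mem_image_of_mem g (hx.1 i), hA, fun hM => hx.2 ?_⟩
      exact ORBK_key a b c hAd E w hw k x (fun i => hE i _ (hx.1 i)) g hg hA hM
    · intro x hx y hy hxy
      rw [mem_coe, mem_filter, Fintype.mem_piFinset] at hx hy
      funext i
      exact hinj _ (hE i _ (hx.1 i)) _ (hE i _ (hy.1 i)) (congrFun hxy i)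
  have hP : (0 : ℝ) ≤ ∏ i, (#(F i) : ℝ) := prod_nonneg fun i _ => Nat.cast_nonneg _
  calc (#{x ∈ Fintype.piFinset F | ¬ Clq (It a b c) (1 / 4 + 1 / 500000) x} : ℝ) ≤
      (#{f ∈ Fintype.piFinset (fun i => (F i).image g) | Adm f ∧ ¬ Many f} : ℝ) := Nat.cast_le.2 hle
    _ ≤ C * (∏ i, (#(F i) : ℝ)) * (L : ℝ) ^ (-δ) := hmain
    _ = C * (L : ℝ) ^ (-δ) * ∏ i, (#(F i) : ℝ) := by ring
    _ ≤ η * ∏ i, (#(F i) : ℝ) := mul_le_mul_of_nonneg_right hL hP

end Pool.Agent.HF
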