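import Mathlib

/-!
# Project HF (MP_bf63dc_nt, rows `hf:*`), pure part: MORE THAN HALF OF THE MULTIPLES

GOAL (THEOREM HALF). For every case `(a, b, c)` of Q1 (`T x = (b x + c) / a`) there is `n₀` such that for every multiple `n` of `n₀` more than half of any
`M ≥ M₀` consecutive multiples `m` of `n` (at least `(1/2 + 3/10^6) M` of them) have: `T^m` maps infinitely many primes to primes.
For `a = b = 1`: more than half of all multiples of `n` are infinitely often differences `p - q`, every large multiple of `n` is a sum of two such differences, and for every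
multiple `h` of `n` a positive proportion of the multiples `m` of `n` have both `m` and `m + h` infinitely often a difference.

INPUT (`Hyp g α`, true for the true exponents `g` of every case with `α = 1/4 + 1/500000` by the theorem on almost all `k`-tuples of linear forms, `Pool/Agent/helper38/AT`):
for all `k, η` there are `D, L` such that for all finite sets `F_1, ..., F_k` of at least `L` multiples of `D` all but `η ∏ |F_i|` tuples `x` in the product have a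
`g`-clique with more than `α k` elements. The abstract theorem (MAIN): `Hyp g α`, `α ≤ 1/2`, `δ > 0` give `m₀` such that for all multiples `m` of `m₀` the set
`{t : g (m t)}` has lower Banach density at least `2 α - δ`. (The constant is best possible in general: `g m` iff `m θ` is at distance at most `1/4` of an integer, `α = 1/4`.)

PROOF IN FIVE STEPS. (I) [FC: fractional cliques; pinning] If blocks `P_1, ..., P_b` of `R` points each are such that most samples of `n` points of each block contain a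
clique with `α n b` elements then there are functions `a_β : P_β → [0, 1]` with `∑ mean(a_β) ≥ (α - ε) b` which are almost complete: `E a_β(u) a_β'(v) [u, v not adjacent] ≤ ε`.
(II) [FEK, EXT, GEN, NES: extremal choice] Suppose that the bad `m` are cofinal for divisibility. Let `γ` be the infimum over `r` of the lower Banach densities of `g` along the
progressions of step `D r` starting at multiples of `D`. There is a bad `s`, `D ∣ s`, such that there are long progressions of step `s` starting at a multiple of `D` of density `≤ γ + ε`,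
while for every `q` all long progressions of step `s q` starting at a multiple of `D` have density `≥ γ - ε`. (III) Left blocks `Z_i + s [0, R)` (`i < k₂`), right blocks `Y + Z_j + s [0, R)`, `s ∣ Z_i`, `D ∣ Y`, such that
`g` has density at most `γ₂ + ε`, `γ₂ ≤ 2 α - δ`, around `Z_j - Z_i` (`i < j`; `s` is bad) and at most `γ + ε` around `Y + Z_j - Z_i` (all `i, j`). (IV) [LLB] two left blocks with
nonzero functions: each has mean `≤ γ₂ + e`. So the mean over the left blocks is `M_L ≤ γ₂ + e + 1/k₂ < 2 α - δ/2`, and `M_R` as well; `M_L + M_R ≥ 2 α - 2 ε`, so both are `≥ δ/2`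
and there are a left block `i` and a right block `j` with `M_i + M_j ≥ 2 α - 2 ε`, `M_i, M_j ≥ δ/2`. (V) [LRB: POL, PPS, APL, LRA] for such a pair `M_i + M_j ≤ γ + e`: the popular differences of the sets
`S = {a_i ≥ t}`, `S' = {a_j ≥ t}` belong to `g`; they have an almost period `p q` with a LARGE PRIME `p` and bounded `q` (theorem of Croot and Sisask), so on most
progressions of step `s q` and length `p` they are almost the popular differences modulo `p` of the two sets on two such progressions, and by Pollard's theorem (no subgroups modulo `p`!) their density is at least the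
sum of the two densities; this is at most `γ + e` as all these progressions have `g`-density about `γ`. Contradiction to `M_i + M_j ≥ 2 α - 2 ε > γ + e`.

RULES. Row `XX`: file `Pool/Agent/<seat>/HF/XX.lean`, `import Pool.Agent.helper19.HF.SpecA`, `namespace Pool.Agent.HF`, `theorem XX (hYY : YY_stmt) ... : XX_stmt` (exact lines in the lock notes; drop
hypotheses you do not need), auxiliary lemmas prefixed `XX_`. No `convert`, no `congr!`, no `native_decide`, no straight double quotes. `#` is `Finset.card`. All `open Classical in` are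
in the definitions; start proofs with `classical` and use `Finset.filter_congr_decidable`, `simp only`, or `by convert`-free `show` if instances differ.
-/

set_option autoImplicit false

namespace Pool.Agent.HF

open Finset

/-! ## Part 1: Pollard's theorem and popular differences -/

/-- the number of representations `x = a + b`, `a ∈ A`, `b ∈ B` -/
def rp {G : Type} [AddCommGroup G] [DecidableEq G] (A B : Finset G) (x : G) : ℕ := #{a ∈ A | x - a ∈ B}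

/-- **POL** (medium; POLLARD'S THEOREM; pure). Not in Mathlib (Cauchy-Davenport is: `ZMod.cauchy_davenport`). Proof: strong induction on `#B`, for all `A`, `t`. We may assume `#A + #B - t ≤ p`: otherwise
replace `A`, `B` by subsets `A'`, `B'` with `#A' + #B' - t = p` and `t ≤ #A', #B'` (possible since `t ≤ #A, #B ≤ p`: first shrink `A`, then `B`; the sum only decreases; if only `A` has to be shrunk or if `B` gets
smaller use the same statement in the case `#A + #B - t ≤ p`: prove that case first by induction on `#B` with the hypothesis `#A + #B - t ≤ p` included). Case `t = #B`: `rp A B x ≤ #B = t`, so the sum is `∑ rp = #A #B = t (#A + #B - t)`.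
Case `t < #B` (so `#B ≥ 2`) and `t < #A` (if `t = #A` then symmetrically the sum is `#A #B = t (#A + #B - t)`). `A ≠ univ`, since `#A + #B - t ≤ p` and `#B > t`. Choose `b ≠ b'` in `B`; as `A` is not empty and not
everything and `b' - b` generates `ZMod p`, some `x ∈ A` has `x + (b' - b) ∉ A`. Replace `A` by `A - x` and `B` by `B - b` (translation: `rp` is translated; the sum over all `x` does not change): now `0 ∈ A ∩ B`, and `B ⊄ A`
(`b' - b ∈ B - b` is not in `A - x`). Let `U = A ∩ B`, `I = A ∪ B`, `A' = A \ U`, `B' = B \ U`; `1 ≤ #U < #B`, `#I + #U = #A + #B`. If `t ≤ #U`: `rp I U x ≤ rp A B x` (`I × U = A × U ∪ B' × U`, and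
`(y, u) ∈ B' × U` corresponds to `(u, y) ∈ U × B' ⊆ A × B'`), and the induction hypothesis for `I, U` gives the claim. If `#U < t`: let `t' = t - #U ≥ 1`; `#B' = #B - #U ≥ t'`, `#A' = #A - #U ≥ t'`; `rp A B x = rp A' B' x + rp I U x`
(`A × B = A' × B' ∪ A' × U ∪ U × B' ∪ U × U`) and `rp I U x ≤ #U = t - t'`, so `min (rp A B x) t ≥ min (rp A' B' x) t' + rp I U x`; the induction hypothesis for `A', B', t'` (`#A' + #B' - t' = #A + #B - #U - t ≤ p`) gives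
`∑ ≥ t' (#A + #B - #U - t) + #I #U = (t - U)(s - U - t) + (s - U) U = t (s - t)` with `s = #A + #B`, `U = #U`. -/
def POL_stmt : Prop := ∀ (p : ℕ) [Fact p.Prime] (A B : Finset (ZMod p)) (t : ℕ), 1 ≤ t → t ≤ #A → t ≤ #B →
  t * min p (#A + #B - t) ≤ ∑ x : ZMod p, min (rp A B x) t

/-- the number of pairs `(x, y) ∈ A × B` with `y - x = d` or `y - x = d - p` -/
def rd (p : ℕ) (A B : Finset ℕ) (d : ℕ) : ℕ := #{z ∈ A ×ˢ B | z.2 = z.1 + d ∨ z.2 + p = z.1 + d}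

/-- **PPS** (short-medium; from POL). For `A, B ⊆ {0, ..., p - 1}` and `d < p`, `rd p A B d` is the number of pairs with `y - x = d` modulo `p`, that is `rp` of the sets `-A`, `B` in `ZMod p` at `d`. So POL gives
`∑_(d < p) min (rd p A B d) t ≥ t min(p, #A + #B - t) ≥ t (l p - t)` if `l ≤ 1`. Sum over `s ∈ S`: with `N d = ∑_s rd p (A s) (B s) d`, `∑_s min (rd ..) t ≤ min (N d) (#S t)`, so `∑_(d < p) min (N d) (#S t) ≥ #S t (l p - t)`.
The `d` with `N d < v #S t` contribute at most `p v #S t`, the others at most `#S t` each. Divide by `#S t`. -/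
def PPS_stmt : Prop := ∀ (p : ℕ), p.Prime → ∀ (ι : Type) (S : Finset ι) (A B : ι → Finset ℕ) (t : ℕ) (l v : ℝ), S.Nonempty → 1 ≤ t → l ≤ 1 → 0 ≤ v →
  (∀ s ∈ S, A s ⊆ range p ∧ B s ⊆ range p ∧ t ≤ #(A s) ∧ t ≤ #(B s) ∧ l * p ≤ (#(A s) : ℝ) + #(B s)) →
  (l - v) * p - t ≤ (#{d ∈ range p | v * (#S * t) ≤ ∑ s ∈ S, (rd p (A s) (B s) d : ℝ)} : ℝ)

/-- the number of `u ∈ S` with `u + d ∈ S'` -/
def ct (S S' : Finset ℕ) (d : ℤ) : ℕ := #{u ∈ S | ∃ v ∈ S', (v : ℤ) = ((u : ℕ) : ℤ) + d}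

/-- **APL** (medium; ALMOST PERIODS, Croot and Sisask; pure). `F d = ct S S' d = ∑_(u ∈ S) [u + d ∈ S']` vanishes unless `|d| < R`. Let `m ≥ 16/κ`, `Q + 1 > 2 (2/σ)^m`. For a tuple `u ∈ S^m` (`Fintype.piFinset (fun _ : Fin m => S)`) let
`F_u d = (#S/m) ∑_l [u_l + d ∈ S']` (also `0` unless `|d| < R`). For fixed `d` the average over `u ∈ S^m` of `(F_u d - F d)^2` is at most `#S^2/m` (variance of a mean of `m` independent variables with values in `[0, 1]`), so the average of `∑_d (F_u d - F d)^2` is at most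
`2 R R^2/m`, and at least half of the `u` are good: `∑_d (F_u d - F d)^2 ≤ 4 R^3/m`. The `Q + 1` translates `good + l p (1, ..., 1)`, `0 ≤ l ≤ Q`, are subsets of `[0, 2R)^m` (`p Q ≤ R`) with at least `#S^m/2 ≥ (σ R)^m/2` elements each; since
`(Q + 1) (σ R)^m/2 > (2 R)^m` two of them meet: `u + l p = u' + l' p`, `l < l'`, `q = l' - l`, `u = u' + q p`. Then `F_u d = F_u' (d + q p)`, so `∑_d (F d - F (d + q p))^2 ≤ 2 ∑ (F d - F_u d)^2 + 2 ∑ (F_u' (d + q p) - F (d + q p))^2 ≤ 16 R^3/m ≤ κ R^3`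
(sums over all integers; finitely many terms are not `0`). In the statement `d` is replaced by `d - q p`. -/
def APL_stmt : Prop := ∀ σ κ : ℝ, 0 < σ → 0 < κ → ∃ Q : ℕ, 1 ≤ Q ∧ ∀ (p R : ℕ) (S S' : Finset ℕ), 1 ≤ R → p * Q ≤ R → S ⊆ range R → S' ⊆ range R →
  σ * R ≤ #S → ∃ q : ℕ, 1 ≤ q ∧ q ≤ Q ∧ ∑ d ∈ Icc (-(2 * R : ℤ)) (2 * R), ((ct S S' d : ℝ) - ct S S' (d - p * q)) ^ 2 ≤ κ * (R : ℝ) ^ 3

/-- **LRA** (medium; from PPS). `τ = e^2/128`, `κ = e^4/16384`, `p₀ ≥ 8/e`. For `s < R` let `A_s = {x < p : s + q x ∈ S}`, `A'_s = {x < p : s + q x ∈ S'}`. `∑_(s < R) #A_s = ∑_(x < p) #{u ∈ S : u ≥ q x} ≥ p (#S - p q)`, so the set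
`X = {s < R : #A_s ≥ (#S/R - e/4) p}` satisfies `p (#S - p q) ≤ #X p + R (#S/R - e/4) p`, that is `#X ≥ e R/4 - p q ≥ e R/8`; the same for `X' = {s < R : #A'_s ≥ (#S'/R - e/4) p}`. For `w` in `[-R, R)` let `Σ_w = {s ∈ X : s + w ∈ X'}`; `∑_w #Σ_w = #X #X' ≥ e^2 R^2/64` and
`#Σ_w ≤ R`, so `Ω = {w : #Σ_w ≥ e^2 R/256}` has `#Ω R + 2 R (e^2 R/256) ≥ e^2 R^2/64`, `#Ω ≥ e^2 R/128`. Let `w ∈ Ω`, `t = ⌈e p/8⌉ ≤ e p/4`. PPS for `Σ_w`, `A_s`, `B_s = A'_(s+w)`, `l - e/2` for `l`, `v = e/8` (`#A_s, #B_s ≥ 3 e p/4 ≥ t`,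
`#A_s + #B_s ≥ ((#S + #S')/R - e/2) p ≥ (l - e/2) p`): at least `(l - e/2 - e/8) p - t ≥ (l - e) p` of the `d < p` have `∑_(s ∈ Σ_w) rd p A_s B_s d ≥ (e/8) #Σ_w t ≥ (e/8)(e^2 R/256)(e p/8) = κ R p`. And `∑_s rd p A_s B_s d ≤ p (ct S S' (w + q d) + ct S S' (w + q d - q p))`:
if `y = x + d` then `u = s + q x ∈ S` and `u + w + q d = s + w + q y ∈ S'`, and `(s, x, y)` is determined by `(u, x)`; if `y = x + d - p` then `u + w + q d - q p = s + w + q y ∈ S'`. -/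
def LRA_stmt : Prop := ∀ e : ℝ, 0 < e → e ≤ 1 → ∃ τ κ : ℝ, 0 < τ ∧ 0 < κ ∧ ∃ p₀ : ℕ, ∀ p : ℕ, p.Prime → p₀ ≤ p → ∀ (q R : ℕ) (S S' : Finset ℕ) (l : ℝ),
  1 ≤ q → 1 ≤ R → 16 * ((p : ℝ) * q) ≤ e * R → S ⊆ range R → S' ⊆ range R → e * R ≤ #S → e * R ≤ #S' → l * R ≤ (#S : ℝ) + #S' → l ≤ 1 →
  ∃ Ω : Finset ℤ, Ω ⊆ Ico (-(R : ℤ)) R ∧ τ * R ≤ #Ω ∧
    ∀ w ∈ Ω, (l - e) * p ≤ (#{d ∈ range p | κ * R ≤ (ct S S' (w + q * (d : ℕ)) : ℝ) + ct S S' (w + q * (d : ℕ) - q * p)} : ℝ)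

open Classical in
/-- all progressions of step `q ≤ Q` and length `≥ l₀` in `[-R, 2R]` have density at least `γ - ε` -/
def H1 (b : ℤ → Prop) (γ ε : ℝ) (Q l₀ R : ℕ) : Prop := ∀ q : ℕ, 1 ≤ q → q ≤ Q → ∀ l : ℕ, l₀ ≤ l → ∀ w : ℤ, -(R : ℤ) ≤ w → w + q * l ≤ 2 * R →
  (γ - ε) * l ≤ (#{x ∈ range l | b (w + q * (x : ℕ))} : ℝ)

open Classical in
/-- the density on `[-R, R)` is at most `γ + ε` -/
def H2 (b : ℤ → Prop) (γ ε : ℝ) (R : ℕ) : Prop := (#{d ∈ Ico (-(R : ℤ)) R | b d} : ℝ) ≤ (γ + ε) * (2 * R)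

open Classical in
/-- almost all pairs of `a × a'` have their difference in `b` -/
def H3 (b : ℤ → Prop) (ε₁ : ℝ) (R : ℕ) (a a' : ℕ → ℝ) : Prop :=
  ∑ u ∈ range R, ∑ v ∈ range R, (if b ((v : ℤ) - u) then 0 else a u * a' v) ≤ ε₁ * (R : ℝ) ^ 2

/-- **LLB** (short-medium; pure). `ε = e/12`, `ε₁ = e^2/4`, `R₀ ≥ 8 l₀/e`, `R₀ ≥ 1`. If `∑ a ≥ e R` then by H3 some `u < R` has `∑_v [not b (v - u)] a' v ≤ ε₁ R^2/(e R) = e R/4` (otherwise the double sum is bigger than `∑_u a u (e R/4) ≥ ε₁ R^2`). So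
`∑ a' ≤ #{v < R : b (v - u)} + e R/4`, and `#{d ∈ [-u, R - u) : b d} = #{[-R, R)} - #{[-R, -u)} - #{[R - u, R)} ≤ (γ + ε) 2 R - (γ - ε)(R - u) - (γ - ε) u + 2 l₀` (H1 with `q = 1` for the two pieces; a piece shorter than `l₀` is estimated by `0 ≥ (γ - ε) length - l₀`)
`= (γ + 3 ε) R + 2 l₀ ≤ γ R + e R/4 + e R/4`. The second statement in the same way with the `d ∈ [v - R + 1, v + 1)`. -/
def LLB_stmt : Prop := ∀ e : ℝ, 0 < e → e ≤ 1 → ∃ ε ε₁ : ℝ, 0 < ε ∧ 0 < ε₁ ∧ ∀ l₀ : ℕ, ∃ R₀ : ℕ, ∀ R : ℕ, R₀ ≤ R → ∀ (b : ℤ → Prop) (γ : ℝ), 0 ≤ γ → γ ≤ 1 →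
  H1 b γ ε 1 l₀ R → H2 b γ ε R → ∀ a a' : ℕ → ℝ, (∀ u, 0 ≤ a u ∧ a u ≤ 1) → (∀ u, 0 ≤ a' u ∧ a' u ≤ 1) → H3 b ε₁ R a a' →
  (e * R ≤ ∑ u ∈ range R, a u → ∑ u ∈ range R, a' u ≤ (γ + e) * R) ∧ (e * R ≤ ∑ u ∈ range R, a' u → ∑ u ∈ range R, a u ≤ (γ + e) * R)

/-- **LRB** (medium; from APL, LRA). `τ, κ, p₁` from LRA for `e/4`; `t₀ = e/16`; `κ₂` with `4 κ₂/κ^2 ≤ τ e/32`, `ε₁` with `4 ε₁/(κ t₀^2) ≤ τ e/32`, `ε = τ e/128` (at most `e/8`); `Q` from APL for `σ = e/4`, `κ₂`. Given `l₀` let `p` be a prime `≥ max p₁ l₀` (`Nat.exists_infinite_primes`) and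
`R₀ ≥ p Q`, `16 p Q ≤ (e/4) R₀`, `p Q/R₀ ≤ τ e/32`, `R₀ ≥ 1`. Suppose `∑ a + ∑ a' > (γ + e) R`. `S = {u < R : a u ≥ t₀}`, `S' = {v < R : a' v ≥ t₀}`; `#S ≥ ∑ a - t₀ R ≥ (e/4) R`, the same for `S'`, `#S + #S' ≥ (γ + e/2) R`; `l = γ + e/2 ≤ 1`. `q` from APL, `Ω` from LRA:
for `w ∈ Ω` the set `D_w` of the `d < p` with `ct (w + q d) + ct (w + q d - q p) ≥ κ R` has at least `(γ + e/4) p` elements. The pairs `(w, d)`, `w ∈ Ω`, `d ∈ D_w`, with `b (w + q d)` false: write `δ = w + q d ∈ [-R, R + p q) ⊆ [-2R, 2R]`; every `δ` belongs to at most `p` pairs `(w, d)`. Either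
`ct δ ≥ κ R/4`: the number of such `δ` (with `b δ` false) is at most `(4/(κ R)) ∑_(δ, b δ false) ct δ = (4/(κ R)) #{(u, v) ∈ S × S' : not b (v - u)} ≤ (4/(κ R)) ε₁ R^2/t₀^2` (H3). Or `ct δ < κ R/4`: then `ct (δ - q p) ≥ 3 κ R/4`, so `|ct δ - ct (δ - q p)| ≥ κ R/2`: at most
`κ₂ R^3 · 4/(κ R)^2` such `δ`. So `∑_(w ∈ Ω) #{d < p : b (w + q d)} ≥ #Ω (γ + e/4) p - p R (τ e/32 + τ e/32)`. Above: `∑_(w ∈ [-R, R)) #{d < p : b (w + q d)} ≤ p (#{δ ∈ [-R, R) : b δ} + q p) ≤ p ((γ + ε) 2 R + q p)` (for each `d` the `w + q d` run through `[-R + q d, R + q d)`), and by H1 (`l = p ≥ l₀`,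
`w + q p ≤ 2 R`) the `w ∉ Ω` contribute at least `(2 R - #Ω)(γ - ε) p`. Together `#Ω (e/4) ≤ 4 ε R + q p + τ e R/16` (use `#Ω ε ≥ 0`), so `τ e/4 ≤ τ e/32 + τ e/32 + τ e/16`: contradiction. -/
def LRB_stmt : Prop := ∀ e : ℝ, 0 < e → e ≤ 1 → ∃ (ε ε₁ : ℝ) (Q : ℕ), 0 < ε ∧ 0 < ε₁ ∧ 1 ≤ Q ∧ ∀ l₀ : ℕ, ∃ R₀ : ℕ, ∀ R : ℕ, R₀ ≤ R → ∀ (b : ℤ → Prop) (γ : ℝ), 0 ≤ γ → γ ≤ 1 - e →
  H1 b γ ε Q l₀ R → H2 b γ ε R → ∀ a a' : ℕ → ℝ, (∀ u, 0 ≤ a u ∧ a u ≤ 1) → (∀ u, 0 ≤ a' u ∧ a' u ≤ 1) → H3 b ε₁ R a a' →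
  e * R ≤ ∑ u ∈ range R, a u → e * R ≤ ∑ u ∈ range R, a' u → ∑ u ∈ range R, a u + ∑ u ∈ range R, a' u ≤ (γ + e) * R

/-! ## Part 2: fractional cliques (pinning) -/

/-- the average over a finite type -/
noncomputable def Av {Ω : Type} [Fintype Ω] (f : Ω → ℝ) : ℝ := (∑ ω, f ω) / Fintype.card Ω

open Classical in
/-- the average of `f` on the fibre of `φ` over `k` (conditional expectation; `0` if the fibre is empty) -/
noncomputable def vl {Ω K : Type} [Fintype Ω] (φ : Ω → K) (f : Ω → ℝ) (k : K) : ℝ := (∑ ω with φ ω = k, f ω) / #{ω | φ ω = k}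

/-- **CND** (short; pure). Finite conditional expectations. (1) clear. (2) Sum over the fibres of `φ` (`Finset.sum_fiberwise` over the image, or `Finset.sum_comm'`): on the fibre over `k` both sums are `g k ∑_(fibre) f`. (3) Expand the square: by (2) for `φ'` (with `g = vl φ f ∘ ρ`) and (2) for `φ` (with
`g = vl φ f`), `E[vl φ' f · vl φ f] = E[f · vl φ f] = E[(vl φ f)^2]`. -/
def CND_stmt : Prop := (∀ (Ω K : Type) [Fintype Ω] (φ : Ω → K) (f : Ω → ℝ), (∀ ω, 0 ≤ f ω ∧ f ω ≤ 1) → ∀ k, 0 ≤ vl φ f k ∧ vl φ f k ≤ 1) ∧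
  (∀ (Ω K : Type) [Fintype Ω] (φ : Ω → K) (f : Ω → ℝ) (g : K → ℝ), Av (fun ω => f ω * g (φ ω)) = Av (fun ω => vl φ f (φ ω) * g (φ ω))) ∧
  (∀ (Ω K K' : Type) [Fintype Ω] (φ' : Ω → K') (ρ : K' → K) (f : Ω → ℝ),
    Av (fun ω => (vl φ' f (φ' ω) - vl (fun ω => ρ (φ' ω)) f (ρ (φ' ω))) ^ 2) =
      Av (fun ω => vl φ' f (φ' ω) ^ 2) - Av (fun ω => vl (fun ω => ρ (φ' ω)) f (ρ (φ' ω)) ^ 2))

/-- **BES** (short-medium; Bessel; pure). `D_h^k(ω) = Φ h ω k (ω h) - Av_w Φ h ω k w`. For `h ∉ S`: `∑_w D_h^k (Function.update ω h w) = 0` (`Φ h` depends only on the coordinates in `S` of `ω`), and for `h' ≠ h` `D_(h')^k (Function.update ω h w) = D_(h')^k ω`. As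
`∑_ω f ω = (1/#W) ∑_ω ∑_w f (Function.update ω h w)`, the functions `D_h^k`, `h ∉ S`, are orthogonal for fixed `k`, and `Av (D_h^k)^2 ≤ 1` (variance of a function with values in `[-1, 1]`). Fix `k`, let `c_h` be the sign of `Av ([T = k] D_h^k)`: by Cauchy-Schwarz
`∑_(h ∉ S) |Av ([T = k] D_h^k)| = Av ([T = k] ∑ c_h D_h^k) ≤ (P(T = k))^(1/2) n^(1/2)`. Sum over `k` (Cauchy-Schwarz, `∑_k P(T = k) = 1`): at most `(n #K)^(1/2)`. The terms with `h ∈ S` are at most `2`. -/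
def BES_stmt : Prop := ∀ (n : ℕ) (W K : Type) [Fintype W] [Nonempty W] [Fintype K] (T : (Fin n → W) → K) (S : Finset (Fin n)) (Φ : Fin n → (Fin n → W) → K → W → ℝ),
  (∀ h ω k w, |Φ h ω k w| ≤ 1) → (∀ h k w ω ω', (∀ i ∈ S, ω i = ω' i) → Φ h ω k w = Φ h ω' k w) →
  ∑ h, |Av (fun ω => Φ h ω (T ω) (ω h)) - Av (fun ω => Av (fun w => Φ h ω (T ω) w))| ≤ Real.sqrt (n * Fintype.card K) + 2 * #S

/-- one sample point: one point of each of the `b` blocks -/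
abbrev Wb (b R : ℕ) : Type := Fin b → Fin R

/-- the samples of `n` points of each block -/
abbrev Om (n b R : ℕ) : Type := Fin n → Wb b R

/-- the information at `r` indices: the points and their labels -/
abbrev Cl (r b R : ℕ) : Type := Fin r → Wb b R × (Fin b → Bool)

/-- the label (`1` if the point `h` of block `β` belongs to the clique of the sample) -/
noncomputable def lb {n b R : ℕ} (X : Om n b R → Fin n → Fin b → Bool) (h : Fin n) (β : Fin b) (ω : Om n b R) : ℝ := if X ω h β = true then 1 else 0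

/-- the information of a sample at the indices `g` -/
def inf {n b R r : ℕ} (X : Om n b R → Fin n → Fin b → Bool) (g : Fin r → Fin n) (ω : Om n b R) : Cl r b R := fun l => (ω (g l), X ω (g l))

/-- the probability that the point `(h, β)` is in the clique, given the information and the position of the point -/
noncomputable def y1 {n b R r : ℕ} (X : Om n b R → Fin n → Fin b → Bool) (g : Fin r → Fin n) (h : Fin n) (β : Fin b) : Cl r b R × Fin R → ℝ :=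
  vl (fun ω => (inf X g ω, ω h β)) (lb X h β)

/-- the same, given also the information at one more index `h'` -/
noncomputable def y2 {n b R r : ℕ} (X : Om n b R → Fin n → Fin b → Bool) (g : Fin r → Fin n) (h' h : Fin n) (β : Fin b) :
    Cl r b R × (Wb b R × (Fin b → Bool)) × Fin R → ℝ :=
  vl (fun ω => (inf X g ω, (ω h', X ω h'), ω h β)) (lb X h β)

/-- the gain of energy by one more index -/
noncomputable def Dl {n b R r : ℕ} (X : Om n b R → Fin n → Fin b → Bool) (g : Fin r → Fin n) : ℝ :=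
  (∑ h', ∑ h, ∑ β, Av fun ω => (y2 X g h' h β (inf X g ω, (ω h', X ω h'), ω h β) - y1 X g h β (inf X g ω, ω h β)) ^ 2) / (n : ℝ) ^ 2

/-- the function on the block `β`, given the information `c` -/
noncomputable def ab {n b R r : ℕ} (X : Om n b R → Fin n → Fin b → Bool) (g : Fin r → Fin n) (c : Cl r b R) (β : Fin b) (u : Fin R) : ℝ :=
  (∑ h, y1 X g h β (c, u)) / n

/-- **ENP** (short-medium; from CND). Energy `e_r = n^(-r) n^(-1) ∑_(g : Fin r → Fin n) ∑_h ∑_β Av (y1 X g h β (inf X g ω, ω h β))^2`, between `0` and `b` (CND (1)). By CND (3) (`ρ` forgets the additional information) `Av (y2 - y1)^2 = Av y2^2 - Av y1^2`, so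
`n^(-r) ∑_g Dl X g = n^(-r) n^(-2) ∑_g ∑_(h') ∑_h ∑_β Av y2^2 - e_r`, and the first term is `e_(r+1)`: for `g' = Fin.cons h' g` the maps `ω ↦ (inf X g' ω, ω h β)` and `ω ↦ (inf X g ω, (ω h', X ω h'), ω h β)` have the same fibres (`Fin.consEquiv` for the sum over `g'`), so `y1 X g' h β (..)` and `y2 X g h' h β (..)` agree at every `ω`.
Hence `∑_(r < m) n^(-r) ∑_g Dl X g = e_m - e_0 ≤ b`, and some `r < m` has `n^(-r) ∑_g Dl X g ≤ b/m`. -/
def ENP_stmt : Prop := ∀ (n b R m : ℕ) (X : Om n b R → Fin n → Fin b → Bool), 1 ≤ n → 1 ≤ R → 1 ≤ m → ∃ r : ℕ, r < m ∧ ∑ g : Fin r → Fin n, Dl X g ≤ b / m * (n : ℝ) ^ r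

open Classical in
/-- **FCA** (medium-long; from CND, BES; the main step). Notation: `I = inf X g ω`, `x_(h,β) = lb X h β ω`, `N(u, v) = 0` if `E β β' u v`, `1` otherwise, `y_(h,β) = y1 X g h β (I, ω h β)`, `y'_(h',h,β) = y2 X g h' h β (I, (ω h', X ω h'), ω h β)`, `E` = average over `ω`, `U = Av` over `Fin R`. Let
`Q = E U_u U_v [ab I β u · ab I β' v · N(u, v)]` be the left side and `G(c, v) = U_u [ab c β u · N(u, v)] ∈ [0, 1]`, so that `Q = (1/n) ∑_(h') E U_v [y1 X g h' β' (I, v) G(I, v)]`. (4) BES with `K = Fin r → Fin b → Bool`, `T ω = fun l => X ω (g l)`, `S` = the image of `g` (`#S ≤ r`), `Φ h' ω k w = y1 X g h' β' (J ω k, w β') G(J ω k, w β')` with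
`J ω k = fun l => (ω (g l), k l)` (so `J ω (T ω) = I`; the average over `w : Wb b R` of a function of `w β'` is the average over `Fin R`): `Q ≤ (1/n) ∑_(h') E [y_(h',β') G(I, ω h' β')] + (2^(b r)/n)^(1/2) + 2 r/n`. (3) CND (2) for `φ ω = (I, ω h' β')`: `E [y_(h',β') G(I, ω h' β')] = E [x_(h',β') G(I, ω h' β')]`
`= (1/n) ∑_h E [x_(h',β') U_u [y1 X g h β (I, u) N(u, ω h' β')]]`. (2) for fixed `h'` BES with `K = (Fin r → Fin b → Bool) × (Fin b → Bool)`, `T ω = (fun l => X ω (g l), X ω h')`, `S` = the image of `g` and `h'` (`#S ≤ r + 1`),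
`Φ h ω (k, k') w = y1 X g h β (J ω k, w β) N(w β, ω h' β') [k' β' = true]`: this is at most `(1/n) ∑_h E [x_(h',β') y_(h,β) N(ω h β, ω h' β')] + (2^(b(r+1))/n)^(1/2) + 2 (r+1)/n`. (1) `E [x_(h',β') y_(h,β) N] ≤ E [x_(h',β') y'_(h',h,β) N] + (E (y' - y)^2)^(1/2)` (Cauchy-Schwarz, `0 ≤ x N ≤ 1`) and
`E [x_(h',β') y'_(h',h,β) N] = E [x_(h',β') x_(h,β) N]` by CND (2) for `φ ω = (I, (ω h', X ω h'), ω h β)` (`x_(h',β') N` is a function of `φ ω`), which is `0` for `h ≠ h'` by the hypothesis and at most `1` for `h = h'`. Average over `h, h'`: the terms `h = h'` give at most `1/n`, and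
`(1/n^2) ∑_(h', h) (E (y' - y)^2)^(1/2) ≤ (Dl X g)^(1/2)` (Cauchy-Schwarz; `Dl` has the sum over all `β`). -/
def FCA_stmt : Prop := ∀ (n b R r : ℕ) (X : Om n b R → Fin n → Fin b → Bool) (E : Fin b → Fin b → Fin R → Fin R → Prop) (g : Fin r → Fin n), 1 ≤ n → 1 ≤ R →
  (∀ ω h h' β β', h ≠ h' → β ≠ β' → X ω h β = true → X ω h' β' = true → E β β' (ω h β) (ω h' β')) → ∀ β β' : Fin b, β ≠ β' →
  Av (fun ω => (∑ u, ∑ v, (if E β β' u v then 0 else ab X g (inf X g ω) β u * ab X g (inf X g ω) β' v)) / (R : ℝ) ^ 2) ≤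
    Real.sqrt (Dl X g) + 2 * Real.sqrt (2 ^ (b * (r + 1)) / n) + (4 * r + 3) / n

/-- **FCM** (short-medium; from CND, BES). For each `β`: BES with `K = Fin r → Fin b → Bool`, `T ω = fun l => X ω (g l)`, `S` = the image of `g`, `Φ h ω k w = y1 X g h β (J ω k, w β)`, `J ω k = fun l => (ω (g l), k l)` gives
`(1/n) ∑_h E [y1 X g h β (inf X g ω, ω h β)] ≤ E [(∑_u ab X g (inf X g ω) β u)/R] + (2^(b r)/n)^(1/2) + 2 r/n`, and `E [y1 X g h β (inf X g ω, ω h β)] = E [lb X h β ω]` by CND (2) with `g = 1`. Sum over `β`. -/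
def FCM_stmt : Prop := ∀ (n b R r : ℕ) (X : Om n b R → Fin n → Fin b → Bool) (g : Fin r → Fin n), 1 ≤ n → 1 ≤ R →
  (∑ h, ∑ β, Av (lb X h β)) / n - b * (Real.sqrt (2 ^ (b * r) / n) + 2 * r / n) ≤
    Av (fun ω => ∑ β, (∑ u, ab X g (inf X g ω) β u) / R)

open Classical in
/-- FRACTIONAL CLIQUES -/
def FC_stmt : Prop := ∀ (b : ℕ) (ε : ℝ), 1 ≤ b → 0 < ε → ε ≤ 1 → ∃ (n : ℕ) (η : ℝ), 1 ≤ n ∧ 0 < η ∧ ∀ (R : ℕ) (α : ℝ) (E : Fin b → Fin b → ℕ → ℕ → Prop), 1 ≤ R → 0 ≤ α →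
  (#{ω : Om n b R | ¬ ∃ J : Finset (Fin n × Fin b), α * (n * b) ≤ #J ∧
    ∀ x ∈ J, ∀ y ∈ J, x.2 ≠ y.2 → E x.2 y.2 (ω x.1 x.2) (ω y.1 y.2)} : ℝ) ≤ η * (R : ℝ) ^ (n * b) →
  ∃ a : Fin b → ℕ → ℝ, (∀ β u, 0 ≤ a β u ∧ a β u ≤ 1) ∧ (α - ε) * (b * R) ≤ ∑ β, ∑ u ∈ range R, a β u ∧
    ∀ β β', β ≠ β' → ∑ u ∈ range R, ∑ v ∈ range R, (if E β β' u v then 0 else a β u * a β' v) ≤ ε * (R : ℝ) ^ 2

/-- **FCB** (medium; from ENP, FCA, FCM, CND (1)): `theorem FCB (h0 : CND_stmt) (h1 : ENP_stmt) (h2 : FCA_stmt) (h3 : FCM_stmt) : FC_stmt`. Choose `m ≥ 1`, then `n ≥ 1` such that `err = (b/m)^(1/2) + 2 (2^(b m)/n)^(1/2) + (4 m + 3)/n` satisfies `(1 + 2 b^2/ε) err ≤ ε/2`; `η = ε/4`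
(so `η < 1`). For `ω` outside the exceptional set choose `J(ω)` and put `X ω h β = true` iff `(h, β) ∈ J(ω)`; in the exceptional set `X = false`. The hypothesis of FCA holds. `α ≤ 1`, otherwise all `ω` are exceptional. `∑_h ∑_β Av (lb X h β) = Av #J ≥ α n b (1 - η)`. `r < m` from ENP: `n^(-r) ∑_g Dl X g ≤ b/m`, so
`n^(-r) ∑_g (Dl X g)^(1/2) ≤ (b/m)^(1/2)`. Let `Z(g, ω) = (1/b) ∑_β (∑_u ab)/R ≤ 1` and `B(g, ω) = ∑_(β ≠ β') (∑_u ∑_v [not E] ab ab)/R^2`. The average over all `g : Fin r → Fin n` and `ω` of `Z` is at least `α (1 - η) - err` (FCM, `r ≤ m`), that of `B` at most `b^2 err` (FCA), so that of `Z - (2/ε) B` is at least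
`α - ε/4 - (1 + 2 b^2/ε) err ≥ α - ε`, and some `(g, ω)` has `Z - (2/ε) B ≥ α - ε`: then `Z ≥ α - ε` and `B ≤ (ε/2)(Z + ε - α) ≤ (ε/2)(1 + ε) ≤ ε`. Put `a β u = ab X g (inf X g ω) β u` for `u < R`, `0` otherwise; `0 ≤ ab ≤ 1` by CND (1). -/
def FCB_stmt : Prop := CND_stmt → ENP_stmt → FCA_stmt → FCM_stmt → FC_stmt

/-! ## Part 3: the extremal choice -/

open Classical in
/-- the number of `x < l` with `g (Y + s x)` -/
noncomputable def cw (g : ℕ → Prop) (Y s l : ℕ) : ℕ := #{x ∈ range l | g (Y + s * x)}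

/-- **FEK** (short-medium; pure; Fekete). `c l` = the minimum of `cw g Y s l` over the `Y` with `V Y` (a minimum of natural numbers: `Nat.find` or `sInf`). `c (l + l') ≥ c l + c l'` (`cw g Y s (l + l') = cw g Y s l + cw g (Y + s l) s l'`, `V (Y + s l)`), `0 ≤ c l ≤ l`. `γ` = the supremum of
`c l/l` over `l ≥ 1`. First statement: the minimum is attained and `c l ≤ γ l`. Second: choose `k ≥ 1` with `c k/k ≥ γ - ε/2`; `c l ≥ ⌊l/k⌋ c k ≥ (l/k - 1) c k ≥ (γ - ε/2) l - k` and `l₀ ≥ 2 k/ε`. -/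
def FEK_stmt : Prop := ∀ (g V : ℕ → Prop) (s : ℕ), (∃ Y, V Y) → (∀ Y, V Y → V (Y + s)) → ∃ γ : ℝ, 0 ≤ γ ∧ γ ≤ 1 ∧
  (∀ l : ℕ, ∃ Y, V Y ∧ (cw g Y s l : ℝ) ≤ γ * l) ∧ ∀ ε : ℝ, 0 < ε → ∃ l₀ : ℕ, ∀ l : ℕ, l₀ ≤ l → ∀ Y, V Y → (γ - ε) * l ≤ cw g Y s l

/-- **EXT** (short-medium; from FEK). For `r ≥ 1` let `γ_r` be the `γ` of FEK for `V Y = (D ∣ Y)` and the step `D r`. MONOTONICITY: `γ_(r k) ≤ γ_r`: a progression of step `D r` and length `l k` with at most `γ_r l k` elements of `g` is the union of `k` progressions of step `D r k` and length `l` starting at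
multiples of `D`; one of them has at most `γ_r l`; if `γ_(r k) > γ_r` this contradicts the second statement of FEK for large `l`. Let `γ` be the infimum of the `γ_r`, choose `r` with `γ_r ≤ γ + ε` and a bad `s`, `D r ∣ s`, `s ≥ 1`, `s = D r'`, `r ∣ r'`. `γ_(r') ≤ γ_r ≤ γ + ε`: first statement. `γ_(r' q) ≥ γ`
for all `q ≥ 1`: second statement (FEK with `ε`). -/
def EXT_stmt : Prop := FEK_stmt → ∀ (g : ℕ → Prop) (D : ℕ), 1 ≤ D → ∀ Bad : ℕ → Prop, (∀ m₀ : ℕ, 1 ≤ m₀ → ∃ m : ℕ, 1 ≤ m ∧ m₀ ∣ m ∧ Bad m) → ∀ ε : ℝ, 0 < ε →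
  ∃ (s : ℕ) (γ : ℝ), 1 ≤ s ∧ D ∣ s ∧ Bad s ∧ 0 ≤ γ ∧ γ ≤ 1 ∧ (∀ l : ℕ, ∃ Y, D ∣ Y ∧ (cw g Y s l : ℝ) ≤ (γ + ε) * l) ∧
    ∀ q : ℕ, 1 ≤ q → ∃ l₀ : ℕ, ∀ l : ℕ, l₀ ≤ l → ∀ Y, D ∣ Y → (γ - ε) * l ≤ cw g Y (s * q) l

/-- **GEN** (short-medium; pure). `O ⊆ [-H, H]`. Take `l` very large and `Y₀` with `V Y₀`, `cw g Y₀ s l ≤ (γ + ε) l`. For `x` with `H + R ≤ x`, `x + H + R ≤ l` and `o ∈ O` let `f_o(x) = cw g (Y₀ + s (x + o - R)) s (2 R)` (a window of length `2 R` inside `[0, l)`). Every element of `[0, l)` is in at most `2 R` windows, so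
`∑_x f_o(x) ≤ 2 R (γ + ε) l`; `f_o(x) ≥ (γ - ε) 2 R` (`2 R ≥ l₀`). There are at least `l - 2 H - 2 R` values `x`, so `∑_x (f_o(x) - (γ - ε) 2 R) ≤ 2 R (2 ε l + 2 H + 2 R)` and at most `(2 ε l + 2 H + 2 R)/(4 (N + 1) ε)` of them have `f_o(x) > (γ + 4 (N + 1) ε) 2 R`. For large `l` the at most `N` sets of
these `x` (about `l/(2 (N + 1))` each) do not cover the `x ≥ B` in the range; `Y = Y₀ + s x ≥ B` (`s ≥ 1`), `Y' = Y₀ + s (x + o - R)`. -/
def GEN_stmt : Prop := ∀ (g V : ℕ → Prop) (s N l₀ : ℕ) (γ ε : ℝ), 1 ≤ s → (∀ Y, V Y → V (Y + s)) → 0 < ε → 0 ≤ γ → γ ≤ 1 →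
  (∀ l : ℕ, ∃ Y, V Y ∧ (cw g Y s l : ℝ) ≤ (γ + ε) * l) → (∀ l : ℕ, l₀ ≤ l → ∀ Y, V Y → (γ - ε) * l ≤ cw g Y s l) →
  ∀ R : ℕ, 1 ≤ R → l₀ ≤ R → ∀ O : Finset ℤ, #O ≤ N → ∀ B : ℕ, ∃ Y : ℕ, V Y ∧ B ≤ Y ∧
    ∀ o ∈ O, ∃ Y' : ℕ, V Y' ∧ (Y' : ℤ) = Y + s * o - s * R ∧ (cw g Y' s (2 * R) : ℝ) ≤ (γ + 4 * (N + 1) * ε) * (2 * R)

/-- **NES** (short-medium; from GEN). Choose `Z_0, Z_1, ..., Z_(N-1)` one after the other with GEN for `V Y = (s ∣ Y)`: `Z_j` = the `Y` of GEN for `O = {-Z_i/s : i < j}` (`s ∣ Z_i`) and `B = max_(i < j) Z_i + s R` (for instance `B = ∑_(i < j) Z_i + s R`); `Y' = Z_j - Z_i - s R`. (Induction on `N'`: a function `Z` with the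
properties for all `i < j < N'`.) -/
def NES_stmt : Prop := GEN_stmt → ∀ (g : ℕ → Prop) (s N l₀ : ℕ) (γ ε : ℝ), 1 ≤ s → 0 < ε → 0 ≤ γ → γ ≤ 1 →
  (∀ l : ℕ, ∃ Y, s ∣ Y ∧ (cw g Y s l : ℝ) ≤ (γ + ε) * l) → (∀ l : ℕ, l₀ ≤ l → ∀ Y, s ∣ Y → (γ - ε) * l ≤ cw g Y s l) →
  ∀ R : ℕ, 1 ≤ R → l₀ ≤ R → ∃ Z : ℕ → ℕ, (∀ j, s ∣ Z j) ∧ ∀ i j, i < j → j < N → Z i + s * R ≤ Z j ∧
    (cw g (Z j - Z i - s * R) s (2 * R) : ℝ) ≤ (γ + 4 * (N + 1) * ε) * (2 * R)

/-! ## Part 4: the abstract theorem -/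

/-- more than `α k` of the `x i` form a clique: all differences (of different ones) are in `g` -/
def Clq (g : ℕ → Prop) (α : ℝ) {k : ℕ} (x : Fin k → ℕ) : Prop :=
  ∃ J : Finset (Fin k), α * k < #J ∧ ∀ i ∈ J, ∀ j ∈ J, x i < x j → g (x j - x i)

open Classical in
/-- THE HYPOTHESIS: almost all `k`-tuples in a product of large finite sets of multiples of `D` have a large clique -/
def Hyp (g : ℕ → Prop) (α : ℝ) : Prop := ∀ (k : ℕ) (η : ℝ), 1 ≤ k → 0 < η → ∃ D L : ℕ, 1 ≤ D ∧ ∀ F : Fin k → Finset ℕ, (∀ i, ∀ x ∈ F i, D ∣ x) → (∀ i, L ≤ #(F i)) →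
  (#{x ∈ Fintype.piFinset F | ¬ Clq g α x} : ℝ) ≤ η * ∏ i, (#(F i) : ℝ)

open Classical in
/-- **CLI** (short-medium; pure). `Hyp` for `k = n b`, `η`; `F i = {P β u : u < R}` with `(h, β) = finProdFinEquiv.symm i` (`Fin n × Fin b ≃ Fin (n * b)`), `#(F i) = R` (`P β` injective). `ω ↦ (i ↦ P β (ω h β))` is a bijection of `Om n b R` onto the product; a clique `J` of the tuple gives the clique
`{(h, β)}` = image of `J` under `finProdFinEquiv.symm`. -/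
def CLI_stmt : Prop := ∀ (g : ℕ → Prop) (α : ℝ), Hyp g α → ∀ (n b : ℕ) (η : ℝ), 1 ≤ n → 1 ≤ b → 0 < η → ∃ D L : ℕ, 1 ≤ D ∧ ∀ (R : ℕ) (P : Fin b → ℕ → ℕ), L ≤ R →
  (∀ β u v, u < v → P β u < P β v) → (∀ β u, D ∣ P β u) →
  (#{ω : Om n b R | ¬ ∃ J : Finset (Fin n × Fin b), α * (n * b) ≤ #J ∧
    ∀ x ∈ J, ∀ y ∈ J, x.2 ≠ y.2 → P x.2 (ω x.1 x.2) < P y.2 (ω y.1 y.2) → g (P y.2 (ω y.1 y.2) - P x.2 (ω x.1 x.2))} : ℝ) ≤ η * (R : ℝ) ^ (n * b)

open Classical in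
/-- the conclusion: for all multiples `m` of some `m₀` the set `{t : g (m t)}` has lower Banach density at least `d` -/
def Cnc (g : ℕ → Prop) (d : ℝ) : Prop := ∃ m₀ : ℕ, 1 ≤ m₀ ∧ ∀ m : ℕ, 1 ≤ m → m₀ ∣ m → ∃ l₀ : ℕ, ∀ l : ℕ, l₀ ≤ l → ∀ u : ℕ, d * l ≤ (#{t ∈ Ioc u (u + l) | g (m * t)} : ℝ)

/-- **MAIN** (medium-long; the assembly). Suppose not: with `Bad m` = the negation of the last part for `m`, every `m₀` has a bad multiple. `e = δ/8` (we may assume `δ ≤ 1`). `ε_1, ε_1', Q` from LRB for `e`, `ε_2, ε_2'` from LLB for `e`; `k₂ ≥ 8/δ`, `b = 2 k₂`, `N = k₂^2`; `ε_F ≤ ε_1', ε_2', δ/16`, `n, η` from FC; `D, L` from CLI; `ε_X` with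
`4 (N + 1) ε_X ≤ ε_1, ε_2`, `ε_X ≤ e`; `s, γ` from EXT (`D`, `ε_X`), `l₀` = the maximum of the `l₀` of EXT for `q ≤ Q`; `γ₂` from FEK for `V Y = (s ∣ Y)` and step `s`, `l₁` its `l₀` for `ε_X`; `γ₂ ≤ 2 α - δ` since `s` is bad (otherwise all long windows have density `≥ 2 α - δ`; `Ioc u (u + l)` corresponds to `Y = s (u + 1)`), and `γ - ε_X ≤ γ₂`
(a window with at most `γ₂ l` elements starting at a multiple of `s`). `R` larger than all `R₀`, `L`, `l₀`, `l₁`. `Z` from NES (`γ₂`, `N`), `Y` from GEN (`V Y = (D ∣ Y)`, `γ`, `O = {(Z_j - Z_i)/s : i, j < k₂}`, `B` = the sum of all `Z_i + s R`, `i < k₂`, and more). Blocks: `P_β u = Z_β + s u` for `β < k₂`, `P_(k₂ + j) u = Y + Z_j + s u`. CLI and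
FC with `E β β' u v = (P β u < P β' v → g (P β' v - P β u))` give `a_β`. For `β < β'` with `loc = P_β' 0 - P_β 0` and `bb δ = g ((loc + s δ).toNat)`: H3 holds with `ε_F` for `a_β, a_β'`; H1, H2 with `γ₂` for two left or two right blocks (`loc = Z_j - Z_i`), with `γ` for a left and a right block. Let `M_β = (∑ a_β)/R`. LLB: if two left blocks... : either all left
`M_β < e`, or some left `M_i ≥ e` and then `M_j ≤ γ₂ + e` for all left `j ≠ i`; so `∑_left M ≤ k₂ (γ₂ + e) + 1`; the same on the right. `∑ M ≥ (α - ε_F) 2 k₂`, so `∑_right M ≥ k₂ (2 α - 2 ε_F - γ₂ - e - 1/k₂) ≥ k₂ e` (`≥ k₂ (δ - δ/8 - δ/8 - δ/8)`), and some left `i`, right `j` with `M_i ≥ e`, `M_j ≥ e`, `M_i + M_j ≥ 2 α - 2 ε_F`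
(the maxima). LRB: `M_i + M_j ≤ γ + e ≤ γ₂ + ε_X + e ≤ 2 α - δ + δ/4 < 2 α - 2 ε_F`; `γ ≤ 1 - e` since `γ ≤ γ₂ + ε_X ≤ 2 α - δ + δ/8` and `α ≤ 1/2`. -/
def MAIN_stmt : Prop := FC_stmt → LLB_stmt → LRB_stmt → FEK_stmt → EXT_stmt → GEN_stmt → NES_stmt → CLI_stmt →
  ∀ (g : ℕ → Prop) (α δ : ℝ), 0 ≤ α → α ≤ 1 / 2 → 0 < δ → Hyp g α → Cnc g (2 * α - δ)

open Classical in
/-- **COR** (short; pure). (1) For `N` large apply the hypothesis to `M = N - 1`, `u = 0`: more than half of the `t ∈ [1, N - 1]` have `g`, so `t` and `N - t` for some `t`. (2) `t` and `t + h`: inclusion and exclusion in `(u, u + M]`, the windows `(u, u + M]` and `(u + h, u + h + M]` differ in `h` elements on each side: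
`#{t : g t and g (t + h)} ≥ 2 (1/2 + κ) M - M = 2 κ M`. -/
def COR_stmt : Prop := ∀ (g : ℕ → Prop) (κ : ℝ) (M₀ : ℕ), 0 < κ → (∀ M : ℕ, M₀ ≤ M → ∀ u : ℕ, (1 / 2 + κ) * M ≤ (#{t ∈ Ioc u (u + M) | g t} : ℝ)) →
  (∃ N₀ : ℕ, ∀ N : ℕ, N₀ ≤ N → ∃ t t' : ℕ, 1 ≤ t ∧ 1 ≤ t' ∧ t + t' = N ∧ g t ∧ g t') ∧
  ∀ h M : ℕ, M₀ ≤ M → ∀ u : ℕ, 2 * κ * M ≤ (#{t ∈ Ioc u (u + M) | g t ∧ g (t + h)} : ℝ)

end Pool.Agent.HF
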