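import Pool.Agent.helper19.HF.SpecA
import Pool.Agent.helper38.AT.Spec
import Pool.Agent.helper99.IT.Spec

/-!
# Project HF (MP_bf63dc_nt, rows `hf:*`), the orbits of the cases of Q1
-/

set_option autoImplicit false

namespace Pool.Agent.HF

open Finset Pool.Agent.AT Pool.Agent.IT

/-- **ADK** (short-medium; admissibility of orbits, `k` forms; model Pool/Agent/helper49/IT/ADO.lean, use its `ADO_rec`). Prime `l`. If `l ∣ a`: `b`, `c` are units modulo `l`; the forms with `e_i < E` have slope `0` modulo `l` and `b h_(e_i) = a h_(e_i + 1) - c = - c`, a unit; the forms with `e_i = E` are `b^E n + h_E`: choose `n` modulo `l` outside one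
class (`l ≥ 2`). If `l ∣ b`: the same with `e_i = 0` (form `a^E n + h_0`) and `a h_(e_i) = b h_(e_i - 1) + c = c` for `e_i > 0`. Otherwise `a`, `b` are units modulo `l`. If `l > k`: for each `i` one class of `n` is bad, `k < l`. If `l ≤ k`: `l (l - 1)` divides `(k!)^2`, so it divides all `e_i`, and with `r = a/b` in `ZMod l` `∑_(j < e_i) r^j = 0` (`r = 1`: it is `e_i`;
`r ≠ 1`: `r^(l-1) = 1`), so by `ADO_rec` `a^(e_i) h_(e_i) = b^(e_i) h_0` and `a^(e_i) (a^(E - e_i) b^(e_i) n + h_(e_i)) = b^(e_i) (a^E n + h_0)`: choose `n` with `a^E n + h_0 = 1` in `ZMod l`. -/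
def ADK_stmt : Prop := ∀ (k a b E : ℕ) (c : ℤ) (e : Fin k → ℕ) (h : ℕ → ℤ), Ad a b c → (∀ i < E, (a : ℤ) * h (i + 1) = b * h i + c) → (∀ i, e i ≤ E) →
  (∀ i, (Nat.factorial k) ^ 2 ∣ e i) → Adm (fun i => (a ^ (E - e i) * b ^ (e i), h (e i)))

/-- **ORBK** (medium; from ADK; the theorems `ORB`, `PRI`, `EVT_np` of Pool/Agent/helper9/IT/ORB.lean, Pool/Agent/helper24/IT/PRI.lean, Pool/Agent/helper41/IT/EVT.lean and `PRT` of Pool/Agent/helper17/AT or as imported by Pool/Agent/helper72/MM/O1.lean may be used; model: `orbF` in that file, and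
`low_adm` in Pool/Agent/helper72/MM/O0.lean for the use of `Qk`). Given `k, η`: `D = (k!)^2`, `L ≥ 1` with `C L^(-δ) ≤ η` (`C, δ` from `Qk k`). Given `F`: `E` = an upper bound for all elements, `h` from ORB, `f x = (a^(E - x) b^x, h x)`, injective on `[0, E]`. `F' i = image f (F i)`, `#(F' i) = #(F i) ≥ L`.
All tuples `f ∘ x` are admissible (ADK). If `Many (f ∘ x)` then `Clq (It a b c) (1/4 + 1/500000) x`: for infinitely many `n` the set of the `i` with `(ev (f (x i)) n).Prime` has more than `(1/4 + 1/500000) k` elements; there are finitely many sets, so one set `J` belongs to infinitely many `n`; for `i, j ∈ J` with `x i < x j` the two forms are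
simultaneously prime infinitely often, so by PRT (a pair of forms of an admissible tuple is admissible; the forms are different) and PRI `It a b c (x j - x i)`. So the tuples without a clique are at most `#{f' ∈ Fintype.piFinset F' | Adm f' ∧ ¬ Many f'} ≤ C (∏ #(F' i)) L^(-δ) ≤ η ∏ #(F i)`. -/
def ORBK_stmt : Prop := (∀ k : ℕ, 1 ≤ k → Qk k) → ∀ (a b : ℕ) (c : ℤ), Ad a b c → Hyp (It a b c) (1 / 4 + 1 / 500000)

end Pool.Agent.HF
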