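import Pool.Agent.helper19.HF.SpecA
import Pool.Agent.helper38.AT.Spec
import Pool.Agent.helper99.IT.Spec

/-!
# Project HF (MP_bf63dc_nt, rows `hz:*`): HALF OR ALMOST ALL

GOAL (THEOREM DH). At least one of the following is true. (A') For every `δ > 0` there is `n₀` such that in every arithmetic progression of multiples of `n₀` at least `(1 - δ) M` of any `M ≥ M₀` consecutive terms are
differences `p - q` of infinitely many pairs of primes. (B') For EVERY coprime pair `(a, b)` (also `(1, 1)`) and every progression more than half, at least the proportion `1/2 + 3/10^6`, of the admissible `c` among any `M ≥ M₀` consecutive terms are true: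
`a p - b q = c` for infinitely many pairs of primes.

PROOF. Suppose (B') fails for `(a, b)` and (A') for `δ'`. `G c = (a, b, c) is true`, `G₁ c = (1, 1, c) is true`. Let `k = 4 n` be large, `D` a multiple of `k!` and of `2 a b`. Some class `c₀` modulo `D` and some step divisible by `D` have windows of density `≤ 2 α - δ` for `G`. Let `γ`
be the infimum of the lower Banach densities of `G` along the progressions of step `D r` in the class `c₀`, nearly attained at the step `s` (EXZ). As (A') fails there are progressions inside `s ℤ` with windows of density `≤ 1 - δ'` for `G₁`; let `γ₁ ≤ 1 - δ'` be the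
infimum of the densities of `G₁` along the progressions of step `s r` inside `s ℤ`, nearly attained at `s'` with a low window at `Y`. Blocks (of forms): `b x + h`, `h ∈ Λ + s' [0, R)`; `b x + h`, `h ∈ Λ + Y + s' [0, R)`; `a x + h'`, `h' ∈ H + s' [0, R)`; `a x + h'`, `h' ∈ H + Y + s' [0, R)`, where
`Λ = h₀`, `H = h₁` modulo `D`, `a h₀ - b h₁ = c₀`, `h₀, h₁` prime to `D`: all tuples are admissible (CLZ). The pair of two forms `b x + h`, `b x + h₂` is the case `(1, 1, h - h₂)`; the pair of `b x + h`, `a x + h'` is `(a, b, a h - b h')`. A random place `y = a Λ - b H` in a long window of `G` of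
step `s` and density `≤ γ + ε` makes the four windows of step `s'` at `y + {0, a Y, - b Y, (a - b) Y}` low (GEZ), as all progressions of steps `s r` have density `≥ γ - ε`. FC (four blocks): functions with means `M_1 + M_2 + M_3 + M_4 ≥ 4 α - ε > 1`. LRZ for `G₁`: `M_1 + M_2 ≤ γ₁ + e < 1` if
both are `≥ e`, the same for `M_3, M_4`; LRZ for `G`: `M_i + M_j ≤ γ + e` for `i ∈ {1, 2}`, `j ∈ {3, 4}` if both are `≥ e`. If `M_1, M_2 < e` then `M_3 + M_4 > 1`, so both are `≥ e` and `M_3 + M_4 < 1`: contradiction; the same on the other side. So the two maxima are `≥ e`, their sum is `≤ γ + e ≤ 2 α - δ + e` and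
`∑ M_i ≤ 2 (2 α - δ + e) < 4 α - ε`: contradiction.

RULES as in SpecA. Row `XX`: file `Pool/Agent/<seat>/HF/XX.lean`, `import Pool.Agent.helper19.HF.SpecC`, `namespace Pool.Agent.HF`.
-/

set_option autoImplicit false

namespace Pool.Agent.HF

open Finset Pool.Agent.AT Pool.Agent.IT

/-! ## Part 5: two slopes -/

/-- the number of pairs `(x, y) ∈ A × B` with `a x - b y = d` modulo `p` -/
def rdz (p a b : ℕ) (A B : Finset ℕ) (d : ℕ) : ℕ := #{z ∈ A ×ˢ B | (p : ℤ) ∣ (a : ℤ) * (z.1 : ℕ) - b * (z.2 : ℕ) - d}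

/-- **PPZ** (short-medium; from POL; adaptation of Pool/Agent/helper20/HF/PPS.lean). For `A, B ⊆ {0, ..., p - 1}`, `rdz p a b A B d` is `rp (a A) (- b B)` at `d` in `ZMod p` (the dilations by `a` and `- b` are injective). POL gives `∑_(d < p) min (rdz p a b A B d) t ≥ t min(p, #A + #B - t) ≥ t (l p - t)`; the rest as in PPS. -/
def PPZ_stmt : Prop := ∀ (p a b : ℕ), p.Prime → ¬ p ∣ a → ¬ p ∣ b → ∀ (ι : Type) (S : Finset ι) (A B : ι → Finset ℕ) (t : ℕ) (l v : ℝ), S.Nonempty → 1 ≤ t → l ≤ 1 → 0 ≤ v →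
  (∀ s ∈ S, A s ⊆ range p ∧ B s ⊆ range p ∧ t ≤ #(A s) ∧ t ≤ #(B s) ∧ l * p ≤ (#(A s) : ℝ) + #(B s)) →
  (l - v) * p - t ≤ (#{d ∈ range p | v * (#S * t) ≤ ∑ s ∈ S, (rdz p a b (A s) (B s) d : ℝ)} : ℝ)

/-- the number of `(u, v) ∈ S × S'` with `a u - b v = d` -/
def ctz (a b : ℕ) (S S' : Finset ℕ) (d : ℤ) : ℕ := #{z ∈ S ×ˢ S' | (a : ℤ) * (z.1 : ℕ) - b * (z.2 : ℕ) = d}

/-- **APZ** (medium; adaptation of Pool/Agent/helper72/HF/APL.lean). `F d = ctz a b S S' d = ∑_(u ∈ S) [∃ v ∈ S', a u - b v = d]` (`b ≥ 1`: at most one `v`) vanishes unless `- b R < d < a R`. `m ≥ 16 (a + b)/κ`, `Q' + 1 > 2 (2/σ)^m`, `Q = a Q'`. For `u ∈ S^m` let `F_u d = (#S/m) ∑_l [∃ v ∈ S', a u_l - b v = d]`; the average over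
`u ∈ S^m` of `∑_d (F_u d - F d)^2` is at most `(a + b) R R^2/m`, so at least half of the `u` have `∑_d (F_u d - F d)^2 ≤ 2 (a + b) R^3/m`. Two of the translates `good + l p (1, ..., 1)`, `0 ≤ l ≤ Q'` (subsets of `[0, 2R)^m` as `p Q' ≤ R`) meet: `u = u' + q' p`, `1 ≤ q' ≤ Q'`, so `F_u d = F_u' (d - a q' p)`: with `q = a q'`
`∑_d (F d - F (d - p q))^2 ≤ 2 ∑ (F d - F_u d)^2 + 2 ∑ (F_u' (d - p q) - F (d - p q))^2 ≤ 8 (a + b) R^3/m ≤ κ R^3`. -/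
def APZ_stmt : Prop := ∀ a b : ℕ, 1 ≤ a → 1 ≤ b → ∀ σ κ : ℝ, 0 < σ → 0 < κ → ∃ Q : ℕ, 1 ≤ Q ∧ ∀ (p R : ℕ) (S S' : Finset ℕ), 1 ≤ R → p * Q ≤ R → S ⊆ range R → S' ⊆ range R →
  σ * R ≤ #S → ∃ q : ℕ, 1 ≤ q ∧ q ≤ Q ∧ ∑ d ∈ Icc (-(2 * (a + b) * R : ℤ)) (2 * (a + b) * R), ((ctz a b S S' d : ℝ) - ctz a b S S' (d - p * q)) ^ 2 ≤ κ * (R : ℝ) ^ 3

/-- **LAZ** (medium; from PPZ; adaptation of Pool/Agent/helper72/HF/LRA.lean). `τ = e^2/128`, `κ = e^4/(8192 (a + b))`, `p₀ ≥ 8/e`, `p₀ > a b`. `A_s`, `A'_s`, `X`, `X'` as in LRA (`#X, #X' ≥ e R/8`). For `w ∈ [-b R, a R)` let `Σ_w = {s ∈ X : ∃ s' ∈ X', a s - b s' = w}` (`s'` is determined by `s`); `∑_w #Σ_w = #X #X' ≥ e^2 R^2/64`, `#Σ_w ≤ R`,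
so `Ω = {w : #Σ_w ≥ e^2 R/(128 (a + b))}` has `#Ω R + (a + b) R e^2 R/(128 (a + b)) ≥ e^2 R^2/64`, `#Ω ≥ e^2 R/128`. For `w ∈ Ω` PPZ with `t = ⌈e p/8⌉`, `v = e/8`, `l - e/2` gives at least `(l - e) p` values `d < p` with `∑_(s ∈ Σ_w) rdz p a b A_s A'_(s') d ≥ (e/8) #Σ_w t ≥ κ R p`. If `a x - b y = d + p j`, `x, y < p`, `d < p`, then
`- b ≤ j ≤ a`, and for `u = s + q x ∈ S`, `v = s' + q y ∈ S'`: `a u - b v = w + q d + q p j`; `(s, x, y)` is determined by `j`, `(u, v)` and `x`. So the sum is at most `p ∑_j ctz a b S S' (w + q d + q p j)`. -/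
def LAZ_stmt : Prop := ∀ a b : ℕ, 1 ≤ a → 1 ≤ b → ∀ e : ℝ, 0 < e → e ≤ 1 → ∃ τ κ : ℝ, 0 < τ ∧ 0 < κ ∧ ∃ p₀ : ℕ, ∀ p : ℕ, p.Prime → p₀ ≤ p → ∀ (q R : ℕ) (S S' : Finset ℕ) (l : ℝ),
  1 ≤ q → 1 ≤ R → 16 * ((p : ℝ) * q) ≤ e * R → S ⊆ range R → S' ⊆ range R → e * R ≤ #S → e * R ≤ #S' → l * R ≤ (#S : ℝ) + #S' → l ≤ 1 →
  ∃ Ω : Finset ℤ, Ω ⊆ Ico (-(b * R : ℤ)) (a * R) ∧ τ * R ≤ #Ω ∧
    ∀ w ∈ Ω, (l - e) * p ≤ (#{d ∈ range p | κ * R ≤ ∑ j ∈ Icc (-(a + b : ℤ)) (a + b), (ctz a b S S' (w + q * (d : ℕ) + q * p * j) : ℝ)} : ℝ)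

open Classical in
/-- the density on `[-b R, a R)` is at most `γ + ε` -/
def H2Z (P : ℤ → Prop) (γ ε : ℝ) (a b R : ℕ) : Prop := (#{d ∈ Ico (-(b * R : ℤ)) (a * R) | P d} : ℝ) ≤ (γ + ε) * ((a + b) * R)

open Classical in
/-- almost all pairs of `f × f'` have `a u - b v` in `P` -/
def H3Z (P : ℤ → Prop) (ε₁ : ℝ) (a b R : ℕ) (f f' : ℕ → ℝ) : Prop :=
  ∑ u ∈ range R, ∑ v ∈ range R, (if P ((a : ℤ) * (u : ℕ) - b * (v : ℕ)) then 0 else f u * f' v) ≤ ε₁ * (R : ℝ) ^ 2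

/-- **LRZ** (medium; from APZ, LAZ; adaptation of Pool/Agent/helper15/HF/LRB.lean). `m = 2 (a + b) + 1` (the number of the `j`), `A = a + b`. `τ, κ, p₁` from LAZ for `e/4`; `t₀ = e/16`; `κ₂` with `4 m^3 A^2 κ₂/κ^2 ≤ τ e/32`, `ε₁` with `2 m ε₁/(κ t₀^2) ≤ τ e/32`, `ε = τ e/(64 A)`; `Q` from APZ for `σ = e/4`, `κ₂`. Given `l₀`: `p` a prime `≥ max p₁ l₀`,
`R₀ ≥ A p Q`, `16 p Q ≤ (e/4) R₀`, `p Q/R₀ ≤ τ e/32`, `R₀ ≥ 1`. Suppose `∑ f + ∑ f' > (γ + e) R`; `S = {u < R : f u ≥ t₀}`, `S' = {v < R : f' v ≥ t₀}` as in LRB, `l = γ + e/2`. For `w ∈ Ω`, `d ∈ D_w`, with `δ = w + q d ∈ [- b R, a R + p q)` and `P δ` false: either `ctz δ ≥ κ R/(2 m)`: at most `(2 m/(κ R)) ε₁ R^2/t₀^2` such `δ` (H3Z); or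
`∑_j (ctz (δ + q p j) - ctz δ) ≥ κ R/2`, so `|ctz (δ + q p j) - ctz δ| ≥ κ R/(2 m)` for some `j`, `|j| ≤ A`: as `∑_δ (ctz (δ + q p j) - ctz δ)^2 ≤ j^2 κ₂ R^3` (telescoping and Cauchy-Schwarz; everything vanishes outside `[-2 A R, 2 A R]`) there are at most `m A^2 κ₂ R^3 (2 m)^2/(κ R)^2` such `δ`. Each `δ` belongs to at most `p` pairs `(w, d)`. With
`∑_(w ∈ [-bR, aR)) #{d < p : P (w + q d)} ≤ p ((γ + ε) A R + q p)` and H1 (`l = p ≥ l₀`) for the `w ∉ Ω`: `#Ω (e/4) ≤ 2 ε A R + q p + R τ e/16`, so `τ e/4 ≤ τ e/32 + τ e/32 + τ e/16`: contradiction. -/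
def LRZ_stmt : Prop := ∀ a b : ℕ, 1 ≤ a → 1 ≤ b → ∀ e : ℝ, 0 < e → e ≤ 1 → ∃ (ε ε₁ : ℝ) (Q : ℕ), 0 < ε ∧ 0 < ε₁ ∧ 1 ≤ Q ∧ ∀ l₀ : ℕ, ∃ R₀ : ℕ, ∀ R : ℕ, R₀ ≤ R → ∀ (P : ℤ → Prop) (γ : ℝ), 0 ≤ γ → γ ≤ 1 - e →
  H1 P γ ε Q l₀ ((a + b) * R) → H2Z P γ ε a b R → ∀ f f' : ℕ → ℝ, (∀ u, 0 ≤ f u ∧ f u ≤ 1) → (∀ u, 0 ≤ f' u ∧ f' u ≤ 1) → H3Z P ε₁ a b R f f' →
  e * R ≤ ∑ u ∈ range R, f u → e * R ≤ ∑ u ∈ range R, f' u → ∑ u ∈ range R, f u + ∑ u ∈ range R, f' u ≤ (γ + e) * R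

/-! ## Part 6: the extremal choice over the integers -/

open Classical in
/-- the number of `x < l` with `g (Y + s x)` -/
noncomputable def cz (g : ℤ → Prop) (Y : ℤ) (s l : ℕ) : ℕ := #{x ∈ range l | g (Y + s * (x : ℕ))}

/-- **FEZ** (short-medium; Pool/Agent/helper92/HF/FEK.lean over the integers, the same proof). -/
def FEZ_stmt : Prop := ∀ (g V : ℤ → Prop) (s : ℕ), (∃ Y, V Y) → (∀ Y, V Y → V (Y + s)) → ∃ γ : ℝ, 0 ≤ γ ∧ γ ≤ 1 ∧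
  (∀ l : ℕ, ∃ Y, V Y ∧ (cz g Y s l : ℝ) ≤ γ * l) ∧ ∀ ε : ℝ, 0 < ε → ∃ l₀ : ℕ, ∀ l : ℕ, l₀ ≤ l → ∀ Y, V Y → (γ - ε) * l ≤ cz g Y s l

/-- some progression of a step divisible by `D` in the class `c` modulo `D` has arbitrarily long windows of density at most `d` -/
def Low (g : ℤ → Prop) (D : ℕ) (c : ℤ) (d : ℝ) : Prop := ∃ s : ℕ, 1 ≤ s ∧ D ∣ s ∧ ∀ l₀ : ℕ, ∃ l : ℕ, l₀ ≤ l ∧ ∃ Y : ℤ, (D : ℤ) ∣ Y - c ∧ (cz g Y s l : ℝ) ≤ d * l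

/-- **EXZ** (short-medium; from FEZ; adaptation of Pool/Agent/helper78/HF/EXT.lean). For `r ≥ 1` let `γ_r` be the `γ` of FEZ for `V Y = (D ∣ Y - c)` and the step `D r`; `γ_(r k) ≤ γ_r` as in EXT. `γ` = the infimum of the `γ_r`. `Low g D c d` with the step `s₀ = D r₀`: `(γ_(r₀) - ε) l ≤ d l` for arbitrarily large `l`, so `γ ≤ γ_(r₀) ≤ d`. Choose `r` with
`γ_r ≤ γ + ε`, `s = D r`. The first property is FEZ for `s`, the second FEZ for `D r q` and `γ_(r q) ≥ γ`. -/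
def EXZ_stmt : Prop := FEZ_stmt → ∀ (g : ℤ → Prop) (D : ℕ) (c : ℤ) (d ε : ℝ), 1 ≤ D → Low g D c d → 0 < ε →
  ∃ (s : ℕ) (γ : ℝ), 1 ≤ s ∧ D ∣ s ∧ 0 ≤ γ ∧ γ ≤ 1 ∧ γ ≤ d ∧ (∀ l : ℕ, ∃ Y : ℤ, (D : ℤ) ∣ Y - c ∧ (cz g Y s l : ℝ) ≤ (γ + ε) * l) ∧
    ∀ q : ℕ, 1 ≤ q → ∃ l₀ : ℕ, ∀ l : ℕ, l₀ ≤ l → ∀ Y : ℤ, (D : ℤ) ∣ Y - c → (γ - ε) * l ≤ cz g Y (s * q) l

/-- **GEZ** (short-medium; adaptation of Pool/Agent/helper73/HF/GEN.lean). `O ⊆ [-H, H]`, `s' = s r`. Take `l` very large and `Y₀` with `V Y₀`, `cz g Y₀ s l ≤ (γ + ε) l`. For `x ∈ [H, l - H - r R]` and `o ∈ O` let `f_o(x) = cz g (Y₀ + s (x + o)) s' R`: this counts the `y < R` with `g (Y₀ + s (x + o + r y))`, elements of the window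
`[0, l)`; each element `z` of the window is `x + o + r y` for at most `R` pairs `(x, y)`, so `∑_x f_o(x) ≤ R (γ + ε) l`; `f_o(x) ≥ (γ - ε) R` (`R ≥ l₀`). At most `(2 ε l + 2 H + r R)/(4 (N + 1) ε)` of the `x` have `f_o(x) > (γ + 4 (N + 1) ε) R`. For large `l` these at most `N` sets and the at most `2 B + 1` values `x` with
`|Y₀ + s x| < B` do not cover the range of `x`. `Y = Y₀ + s x`, `Y' = Y + s o` (`V Y'` as `x + o ≥ 0`). -/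
def GEZ_stmt : Prop := ∀ (g V : ℤ → Prop) (s s' N l₀ : ℕ) (γ ε : ℝ), 1 ≤ s → 1 ≤ s' → s ∣ s' → (∀ Y, V Y → V (Y + s)) → 0 < ε → 0 ≤ γ → γ ≤ 1 →
  (∀ l : ℕ, ∃ Y, V Y ∧ (cz g Y s l : ℝ) ≤ (γ + ε) * l) → (∀ l : ℕ, l₀ ≤ l → ∀ Y, V Y → (γ - ε) * l ≤ cz g Y s' l) →
  ∀ R : ℕ, 1 ≤ R → l₀ ≤ R → ∀ O : Finset ℤ, #O ≤ N → ∀ B : ℕ, ∃ Y : ℤ, V Y ∧ (B : ℤ) ≤ |Y| ∧
    ∀ o ∈ O, V (Y + s * o) ∧ (cz g (Y + s * o) s' R : ℝ) ≤ (γ + 4 * (N + 1) * ε) * R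

/-! ## Part 7: the forms -/

/-- `(a, b, c)` is a true case of Q1 -/
def TC (a b : ℕ) (c : ℤ) : Prop := Pool.Agent.helper85.FC.TrueCase a b c

/-- **UNZ** (short-medium; pure number theory). For every prime `l ∣ D` there are `h₀, h₁` prime to `l` with `a h₀ - b h₁ = c` modulo `l`: if `l ∣ a` (so `l ∤ b`, `l ∤ c`) take `h₀ = 1`, `b h₁ = a - c`; `l ∣ b`: `h₁ = 1`, `a h₀ = b + c`; `l = 2 ∤ a b`: `c` is even, `h₀ = h₁ = 1`; `l ≥ 3`, `l ∤ a b`: choose `h₀` not `0` and not `c/a`. Start with any solution of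
`a h₀ - b h₁ = c` (`gcd(a, b) = 1`) and change it by `(b t, a t)`: modulo `l` the local solution is the start plus `(b t, a t)` for some `t` modulo `l` (`a (h₀ - h₀') = b (h₁ - h₁')` modulo `l`, and `a`, `b` are not both `0`); the Chinese remainder theorem over the primes dividing `D` (`Nat.primeFactors`, for instance induction on a finite set of primes) gives
one `t` for all `l`. -/
def UNZ_stmt : Prop := ∀ (a b D : ℕ) (c : ℤ), 1 ≤ D → Ad a b c → ∃ h₀ h₁ : ℤ, (a : ℤ) * h₀ - b * h₁ = c ∧ IsCoprime h₀ (D : ℤ) ∧ IsCoprime h₁ (D : ℤ)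

open Classical in
/-- **CLZ** (medium; models Pool/Agent/helper60/HF/ORBK.lean and Pool/Agent/helper95/HF/CLI.lean; `PRT` of Pool/Agent/helper17/AT may be used). `k = 4 n`, `D = 2 a b k!`, `L ≥ 1` with `C L^(-δ) ≤ η` (`C, δ` from `Qk k`). Forms: `fm β u = (b, P β u)` for `β = 0, 1` and `(a, P β u)` for `β = 2, 3`; `F i = {fm β u : u < R}` for `i` = the index of `(h, β)`
(`finProdFinEquiv : Fin n × Fin 4 ≃ Fin (n * 4)`), `#(F i) = R` (`P β` injective). All tuples are admissible: for a prime `l ∣ D` take `x = 0`: the values are `P β u = h₀` or `h₁` modulo `D`, prime to `l`; a prime `l ∤ D` is larger than `k` and does not divide `a b`, so at most one class of `x` is bad for each form. `Many (f_i)` gives a set `J` of more than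
`(1/4 + 1/500000) k` indices for which the forms are simultaneously prime infinitely often; for two of them in different blocks the forms are different by the hypothesis on `P`, so PRT gives `Pair f g`: for `f = (b, h)`, `g = (b, h₂)` this is `TrueCase 1 1 (h - h₂)`, the same for `a`, and for `f = (b, h)`, `g = (a, h')` (`gcd(a, b) = 1`) it is
`TrueCase a b (a h - b h')`. So `#{ω : no such J} ≤ C (∏ #(F i)) L^(-δ) ≤ η R^(4 n)` (`ω ↦ (i ↦ fm β (ω h β))` is injective). -/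
def CLZ_stmt : Prop := (∀ k : ℕ, 1 ≤ k → Qk k) → ∀ (a b : ℕ), 1 ≤ a → 1 ≤ b → Nat.Coprime a b → ∀ (n : ℕ) (η : ℝ), 1 ≤ n → 0 < η → ∃ D L : ℕ, 1 ≤ D ∧
  ∀ (h₀ h₁ : ℤ), IsCoprime h₀ (D : ℤ) → IsCoprime h₁ (D : ℤ) → ∀ (R : ℕ) (P : Fin 4 → ℕ → ℤ), L ≤ R →
  (∀ β u v, u < v → P β u < P β v) → (∀ u, (D : ℤ) ∣ P 0 u - h₀ ∧ (D : ℤ) ∣ P 1 u - h₀ ∧ (D : ℤ) ∣ P 2 u - h₁ ∧ (D : ℤ) ∣ P 3 u - h₁) →
  (∀ u < R, ∀ v < R, P 0 u ≠ P 1 v ∧ P 2 u ≠ P 3 v ∧ ∀ β β' : Fin 4, β.val < 2 → 2 ≤ β'.val → (a : ℤ) * P β u ≠ b * P β' v) →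
  (#{ω : Om n 4 R | ¬ ∃ J : Finset (Fin n × Fin 4), (1 / 4 + 1 / 500000) * ((n : ℝ) * (4 : ℕ)) ≤ #J ∧
    ∀ x ∈ J, ∀ y ∈ J, (x.2 = 0 → y.2 = 1 → TC 1 1 (P 0 (ω x.1 0) - P 1 (ω y.1 1))) ∧ (x.2 = 2 → y.2 = 3 → TC 1 1 (P 2 (ω x.1 2) - P 3 (ω y.1 3))) ∧
      (x.2.val < 2 → 2 ≤ y.2.val → TC a b (a * P x.2 (ω x.1 x.2) - b * P y.2 (ω y.1 y.2)))} : ℝ) ≤ η * (R : ℝ) ^ (n * 4)

/-- **MAINZ** (medium-long; helper19). See the header. -/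
def MAINZ_stmt : Prop := FC_stmt → LRZ_stmt → FEZ_stmt → EXZ_stmt → GEZ_stmt → UNZ_stmt → CLZ_stmt → (∀ k : ℕ, 1 ≤ k → Qk k) →
  ∀ (a b : ℕ), 1 ≤ a → 1 ≤ b → Nat.Coprime a b → ∀ δ : ℝ, 0 < δ → δ ≤ 1 / 4 → ∃ D : ℕ, 1 ≤ D ∧ ∀ c : ℤ, Ad a b c →
    Low (TC a b) D c (2 * (1 / 4 + 1 / 500000) - δ) → ¬ ∀ s : ℕ, 1 ≤ s → D ∣ s → Low (TC 1 1) s 0 (1 - δ)

open Classical in
/-- **FINZ** (medium; from MAINZ's conclusion). Suppose the first alternative fails for some `δ'` (we may assume `δ' ≤ 1/4`): for every `n₀ ≥ 1` there is `s ≥ 1`, `n₀ ∣ s`, such that for every `M₀` there are `M ≥ M₀` and `y`, `n₀ ∣ y`, with fewer than `(1 - δ') M` of the `t < M` with `TC 1 1 (y + s t)`: `Low (TC 1 1) n₀ 0 (1 - δ')`. Let `a, b` be coprime,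
`δ = min δ' (1/10^6)`, `D` from the hypothesis (`Low` is monotone in `d`; we may replace `D` by a multiple: `Low g (D D') c d → Low g D c d`; so assume `2 a b ∣ D`). For no `c` with `Ad a b c` is `Low (TC a b) D c (2 α - δ)` true. Let `s ≥ 1`. For every class `r` modulo `D` which contains some `c` with `Ad a b c` there is `l₀` such that all
windows of length `l ≥ l₀` of step `s D` starting in the class have more than `(2 α - δ) l` true terms; take `l₀` for all classes, `M₀ ≥ D (l₀ + 1)`. For `M ≥ M₀` split the `t < M` by their residue `j` modulo `D`: the terms `y + s j + s D t'`, `t' < l_j`, `l_j ≥ l₀`; either no term of them is admissible or there are at least `(2 α - δ) l_j ≥ (2 α - δ) #(admissible)`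
true ones (a term is admissible only if its class contains an admissible `c`). Sum over `j`; `2 α - δ ≥ 1/2 + 3/10^6`. -/
def FINZ_stmt : Prop := (∀ (a b : ℕ), 1 ≤ a → 1 ≤ b → Nat.Coprime a b → ∀ δ : ℝ, 0 < δ → δ ≤ 1 / 4 → ∃ D : ℕ, 1 ≤ D ∧ ∀ c : ℤ, Ad a b c →
    Low (TC a b) D c (2 * (1 / 4 + 1 / 500000) - δ) → ¬ ∀ s : ℕ, 1 ≤ s → D ∣ s → Low (TC 1 1) s 0 (1 - δ)) →
  (∀ δ : ℝ, 0 < δ → ∃ n₀ : ℕ, 1 ≤ n₀ ∧ ∀ s : ℕ, 1 ≤ s → n₀ ∣ s → ∃ M₀ : ℕ, ∀ M : ℕ, M₀ ≤ M → ∀ y : ℤ, (n₀ : ℤ) ∣ y → (1 - δ) * M ≤ (#{t ∈ range M | TC 1 1 (y + s * (t : ℕ))} : ℝ)) ∨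
  (∀ (a b : ℕ), 1 ≤ a → 1 ≤ b → Nat.Coprime a b → ∀ s : ℕ, 1 ≤ s → ∃ M₀ : ℕ, ∀ M : ℕ, M₀ ≤ M → ∀ y : ℤ,
    (1 / 2 + 3 / 10 ^ 6) * (#{t ∈ range M | Ad a b (y + s * (t : ℕ))} : ℝ) ≤ (#{t ∈ range M | TC a b (y + s * (t : ℕ))} : ℝ))

end Pool.Agent.HF
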