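import Pool.Agent.helper19.HF.SpecC
import Pool.Agent.helper76.DK.Defs

/-!
# Project HF (MP_bf63dc_nt, rows `hy:*`): MORE THAN HALF FOR ALL PAIRS OR POWER SAVING

GOAL (THEOREM DH+; with helper76). At least one of the following is true. (A*) There are `m, K` such that in every interval of `N` integers all but `N^(1 - 1/K)` of the multiples of `2 m` are infinitely often differences `p - q`.
(B') For EVERY coprime pair `(a, b)` and every progression more than half, at least the proportion `1/2 + 3/10^6`, of the admissible `c` among any `M ≥ M₀` consecutive terms are true.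

PROOF. Suppose (A*) fails. By the theorem of Kovari, Sos and Turan (helper7/AL) for all `s, K` there are `x_i, y_j ∈ s ℤ` (`i, j < K`) such that no `x_i - y_j` is a true case of `(1, 1)`. Suppose (B') fails for `(a, b)`: as in SpecC some class `c` modulo `D` has windows of density `≤ 2 α - δ` for
`G c = (a, b, c) is true`; `γ`, `s` from EXZ (only for `G`). Sample points: `n` points `(u, i, j)` for the slope `b` and `n` points for the slope `a`, `u < R`, `i, j < K`. Every point `(u, i, j)` gives TWO forms `b x + (Λ + s u + x_i)`, `b x + (Λ + s u + y_j)` (the same with `a`, `H`). Since the difference `x_i - y_j` is false at most one of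
the two forms of a sample point is in the clique. For fixed `u`s the sets of the forms are products, so by `Qk` most samples have a clique with more than `α 4 n` elements (CLY). Fractional cliques with types (FCP of helper76, Pool/Agent/helper76/DK): functions `a_β` on the points, `a_0 + a_1 ≤ 1`,
`a_2 + a_3 ≤ 1`, sum of the means `≥ 4 (α - ε)`. By averaging (SEY) some `(i, j)` for the slope `b` and `(i', j')` for the slope `a` are good: now the four blocks are exact progressions `Λ + x_i + s [0, R)`, `Λ + y_j + s [0, R)`, `H + x_i' + s [0, R)`, `H + y_j' + s [0, R)`. The location `y = a Λ - b H` is chosen by GEZ such that all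
windows at `y + a z - b z'`, `z, z' ∈ {x_i, y_j}` are low. `M_0 + M_1 ≤ 1`, `M_2 + M_3 ≤ 1`, the sum is `≥ 4 α - ε > 1`, so both sides are not small, and LRZ gives `M_i + M_j ≤ γ + e` for the two maxima: the sum is at most `2 (γ + e) ≤ 2 (2 α - δ + e)`: contradiction.

RULES as in SpecA. Row `XX`: file `Pool/Agent/<seat>/HF/XX.lean`, `import Pool.Agent.helper19.HF.SpecD`, `namespace Pool.Agent.HF`.
-/

set_option autoImplicit false

namespace Pool.Agent.HF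

open Finset Pool.Agent.AT Pool.Agent.IT

/-! ## Part 9: points with two forms -/

open Classical in
/-- **SEY** (short-medium; pure; averaging). The points `p < R (K K)` are `p = u (K K) + i K + j`, `u < R`, `i, j < K`. For a quadruple `(i, j, i', j')` let `S` be the sum in the first statement and `Err` the sum over the four pairs `(β, β')` of the second. The sum of the `S` over all `K^4` quadruples is
`K^2 ∑_β ∑_p a β p ≥ K^2 (α - ε) 4 R K^2` (block `β = 0, 1` does not depend on `i', j'`, and conversely), the sum of the `Err` is at most `4 ε (R K^2)^2`. So some quadruple has `S/(4 R) - (1/ε') Err/R^2 ≥ α - ε - 4 ε/ε' ≥ α - ε'` (`ε ≤ ε'^2/8`, `ε' ≤ 1`: `ε ≤ ε'/2`, `4 ε/ε' ≤ ε'/2`). Hence `S/(4 R) ≥ α - ε'`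
and `Err/R^2 ≤ ε' (S/(4 R) - α + ε') ≤ ε'` as `S ≤ 4 R` and `ε' ≤ α`. Bijection: `Finset.sum_bij'` or twice `Finset.sum_range` with `p / (K * K)`, `p / K % K`, `p % K`, or `Finset.sum_product'` and `Finset.range_image`; it may be convenient to prove first
`∑_(p < R (K K)) F p = ∑_(u < R) ∑_(i < K) ∑_(j < K) F (u (K K) + i K + j)`. -/
def SEY_stmt : Prop := ∀ (R K : ℕ) (α ε ε' : ℝ) (a : Fin 4 → ℕ → ℝ) (E : Fin 4 → Fin 4 → ℕ → ℕ → Prop), 1 ≤ R → 1 ≤ K → 0 < ε' → ε' ≤ α → ε' ≤ 1 → ε ≤ ε' ^ 2 / 8 →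
  (∀ β p, 0 ≤ a β p ∧ a β p ≤ 1) → (α - ε) * (4 * (R * (K * K) : ℕ)) ≤ ∑ β, ∑ p ∈ range (R * (K * K)), a β p →
  (∀ β β' : Fin 4, β.val < 2 → 2 ≤ β'.val → ∑ p ∈ range (R * (K * K)), ∑ q ∈ range (R * (K * K)), (if E β β' p q then 0 else a β p * a β' q) ≤ ε * ((R * (K * K) : ℕ) : ℝ) ^ 2) →
  ∃ i j i' j' : ℕ, i < K ∧ j < K ∧ i' < K ∧ j' < K ∧
    (α - ε') * (4 * R) ≤ ∑ u ∈ range R, (a 0 (u * (K * K) + i * K + j) + a 1 (u * (K * K) + i * K + j) + a 2 (u * (K * K) + i' * K + j') + a 3 (u * (K * K) + i' * K + j')) ∧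
    ∀ β β' : Fin 4, β.val < 2 → 2 ≤ β'.val → ∑ u ∈ range R, ∑ v ∈ range R, (if E β β' (u * (K * K) + i * K + j) (v * (K * K) + i' * K + j') then 0 else
      a β (u * (K * K) + i * K + j) * a β' (v * (K * K) + i' * K + j')) ≤ ε' * (R : ℝ) ^ 2

/-- the sample coordinate of a block: blocks `0, 1` have slope `b`, blocks `2, 3` slope `a` -/
def sg : Fin 4 → Fin 2 := ![0, 0, 1, 1]

/-- the constant term of the form of the point `p` in the block `β` -/
def fmY (P : Fin 2 → ℕ → ℤ) (x y : ℕ → ℤ) (K : ℕ) (β : Fin 4) (p : ℕ) : ℤ := P (sg β) (p / (K * K)) + (if β.val % 2 = 0 then x (p / K % K) else y (p % K))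

open Classical in
/-- **CLY** (medium; models Pool/Agent/helper63/HF/CLZ.lean and Pool/Agent/helper76/DI). `k = 4 n`, `D = 2 a b k!`, `K ≥ 1` with `C K^(-δ) ≤ η` (`C, δ` from `Qk k`). For fixed `τ : Fin n → Fin 2 → Fin R` consider the samples `ω` with `(ω h s)/(K K) = τ h s` for all `h, s`; they correspond to the choices of `i_(h,s), j_(h,s) < K`, and the forms
`(b, P 0 (τ h 0) + x i_(h,0))`, `(b, P 0 (τ h 0) + y j_(h,0))`, `(a, P 1 (τ h 1) + x i_(h,1))`, `(a, P 1 (τ h 1) + y j_(h,1))` run independently through sets of `K` forms (`x`, `y` are injective on `range K`): these `4 n` sets (indices `finProdFinEquiv : Fin n × Fin 4 ≃ Fin (n * 4)`) are the `F i` of `Qk k`. All tuples are admissible as in CLZ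
(primes `l ∣ D`: `x = 0`, all values are `h₀` or `h₁` modulo `D`; `l ∤ D`: `l > k`, `l ∤ a b`). So for each `τ` at most `C K^(4 n) K^(-δ) ≤ η K^(4 n)` samples have not `Many`, altogether at most `η R^(2 n) K^(4 n) = η (R K K)^(2 n)`. `Many` gives a set `J` of more than `(1/4 + 1/500000) k` indices for which the forms are simultaneously prime infinitely
often (as in CLZ). If both forms of a sample point (blocks `0, 1` or `2, 3`, the same `h`) were in `J` then `PRT` (the forms are different: `x i ≠ y j`) would give `TC 1 1 (x i - y j)`: contradiction. For blocks of different slopes PRT gives `TC a b` as in CLZ. -/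
def CLY_stmt : Prop := (∀ k : ℕ, 1 ≤ k → Qk k) → ∀ (a b : ℕ), 1 ≤ a → 1 ≤ b → Nat.Coprime a b → ∀ (n : ℕ) (η : ℝ), 1 ≤ n → 0 < η → ∃ D K : ℕ, 1 ≤ D ∧ 1 ≤ K ∧
  ∀ (h₀ h₁ : ℤ), IsCoprime h₀ (D : ℤ) → IsCoprime h₁ (D : ℤ) → ∀ (R : ℕ) (P : Fin 2 → ℕ → ℤ) (x y : ℕ → ℤ), 1 ≤ R →
  (∀ u, (D : ℤ) ∣ P 0 u - h₀ ∧ (D : ℤ) ∣ P 1 u - h₁) → (∀ i < K, (D : ℤ) ∣ x i ∧ (D : ℤ) ∣ y i) → (∀ i < K, ∀ j < K, i ≠ j → x i ≠ x j ∧ y i ≠ y j) →
  (∀ i < K, ∀ j < K, x i ≠ y j ∧ ¬ TC 1 1 (x i - y j)) →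
  (∀ β β' : Fin 4, β.val < 2 → 2 ≤ β'.val → ∀ p < R * (K * K), ∀ q < R * (K * K), (a : ℤ) * fmY P x y K β p ≠ b * fmY P x y K β' q) →
  (#{ω : Om n 2 (R * (K * K)) | ¬ ∃ J : Finset (Fin n × Fin 4), (1 / 4 + 1 / 500000) * ((n : ℝ) * (4 : ℕ)) ≤ #J ∧
    (∀ z ∈ J, ∀ w ∈ J, z.1 = w.1 → sg z.2 = sg w.2 → z.2 = w.2) ∧
    ∀ z ∈ J, ∀ w ∈ J, z.2.val < 2 → 2 ≤ w.2.val → TC a b (a * fmY P x y K z.2 (ω z.1 (sg z.2)) - b * fmY P x y K w.2 (ω w.1 (sg w.2)))} : ℝ) ≤
    η * ((R * (K * K) : ℕ) : ℝ) ^ (n * 2)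

/-- no bounded number of integers in two sets forces a true difference divisible by `2 m`: the input if (A*) fails -/
def NoTC : Prop := ∀ s K : ℕ, 1 ≤ s → 1 ≤ K → ∃ x y : ℕ → ℤ, (∀ i < K, (s : ℤ) ∣ x i ∧ (s : ℤ) ∣ y i) ∧ (∀ i < K, ∀ j < K, i ≠ j → x i ≠ x j ∧ y i ≠ y j) ∧
  ∀ i < K, ∀ j < K, x i ≠ y j ∧ ¬ TC 1 1 (x i - y j)

open Classical in
/-- **FINY** (short; copy of the second part of Pool/Agent/helper25/HF/FINZ.lean; use `FINZ_unif`, `FINZ_split`, `FINZ_len` from there; `δ = 1/10^6`). -/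
def FINY_stmt : Prop := (∀ (a b : ℕ), 1 ≤ a → 1 ≤ b → Nat.Coprime a b → ∀ δ : ℝ, 0 < δ → δ ≤ 1 / 4 → ∃ D : ℕ, 1 ≤ D ∧ ∀ c : ℤ, Ad a b c →
    ¬ Low (TC a b) D c (2 * (1 / 4 + 1 / 500000) - δ)) →
  ∀ (a b : ℕ), 1 ≤ a → 1 ≤ b → Nat.Coprime a b → ∀ s : ℕ, 1 ≤ s → ∃ M₀ : ℕ, ∀ M : ℕ, M₀ ≤ M → ∀ y : ℤ,
    (1 / 2 + 3 / 10 ^ 6) * (#{t ∈ range M | Ad a b (y + s * (t : ℕ))} : ℝ) ≤ (#{t ∈ range M | TC a b (y + s * (t : ℕ))} : ℝ)

/-- **MAINY** (medium-long; helper19). See the header. -/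
def MAINY_stmt : Prop := Pool.Agent.DK.FCP_stmt → SEY_stmt → LRZ_stmt → FEZ_stmt → EXZ_stmt → GEZ_stmt → UNZ_stmt → CLY_stmt → (∀ k : ℕ, 1 ≤ k → Qk k) → NoTC →
  ∀ (a b : ℕ), 1 ≤ a → 1 ≤ b → Nat.Coprime a b → ∀ δ : ℝ, 0 < δ → δ ≤ 1 / 4 → ∃ D : ℕ, 1 ≤ D ∧ ∀ c : ℤ, Ad a b c →
    ¬ Low (TC a b) D c (2 * (1 / 4 + 1 / 500000) - δ)

end Pool.Agent.HF
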